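import Pool.Agent.Lib_helper33.ASM.Stmts

/-!
# Module GOOD, part (a)(i): the free volume in a ball of radius `4 * 2 ^ (i + l)` is bounded
-/

set_option autoImplicit false

open scoped BigOperators

namespace Pool.Agent.Lib_helper33.ASM

section ann

variable {d : ℕ} {p : ℝ}

lemma ann_good (hd : 0 < d) (hp0 : 0 < p) (hp1 : p < 1) (hWT : StmtWT d p) (α : ℝ) (hα : 0 < α)
    (l : ℕ) :
    ∃ lam : ℝ, 0 < lam ∧ ∀ I : ℕ, Ev d p (fun 𝓜 => ∀ i ≤ I, ∀ o : Sp d, ‖o‖ ≤ I →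
      pr 𝓜.a p (fun ω => ¬ (𝓜.a * cnt fun z => dist (𝓜.x z) o ≤ 4 * 2 ^ (i + l) ∧
        FM 𝓜.x ω (2 ^ i) z) ≤ lam) ≤ α) := by
  obtain ⟨C, hC, hWT⟩ := hWT
  set Nm : ℝ := (8 * 2 ^ l + 1) ^ d with hNm
  have hNm0 : 0 < Nm := by positivity
  obtain ⟨m, hm1, hm⟩ : ∃ m : ℕ, 1 ≤ m ∧ Nm * (C * (1 / 2 : ℝ) ^ (d * m)) ≤ α := by
    obtain ⟨n, hn⟩ := exists_pow_lt_of_lt_one (show (0 : ℝ) < α / (Nm * C) by positivity)
      (show (1 / 2 : ℝ) < 1 by norm_num)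
    refine ⟨n + 1, by omega, ?_⟩
    have h1 : (1 / 2 : ℝ) ^ (d * (n + 1)) ≤ (1 / 2) ^ n := by
      apply pow_le_pow_of_le_one (by norm_num) (by norm_num)
      nlinarith
    rw [lt_div_iff₀ (by positivity)] at hn
    calc Nm * (C * (1 / 2 : ℝ) ^ (d * (n + 1))) ≤ Nm * (C * (1 / 2) ^ n) := by gcongr
      _ = (1 / 2) ^ n * (Nm * C) := by ring
      _ ≤ α := hn.le
  refine ⟨Nm * (C * m) , by
    have : (0 : ℝ) < m := by exact_mod_cast hm1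
    positivity, fun I => ?_⟩
  obtain ⟨I', hI1, hI2, hI3⟩ : ∃ I' : ℕ, I ≤ I' ∧ m ≤ I' ∧ (I : ℝ) + 4 * 2 ^ (I + l) ≤ I' := by
    obtain ⟨n, hn⟩ := exists_nat_ge ((I : ℝ) + 4 * 2 ^ (I + l))
    exact ⟨max I (max m n), le_max_left _ _, (le_max_left _ _).trans (le_max_right _ _),
      hn.trans (by exact_mod_cast (le_max_right _ _).trans (le_max_right _ _))⟩
  refine ((hWT I').and (Ev.good (d := d) p 0 0 one_pos)).mono ?_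
  rintro 𝓜 ⟨hW, hG⟩ i hi o ho
  have hpar : Par 𝓜.a p := hG.par hp0 hp1
  have hr : (0 : ℝ) < 2 ^ i := by positivity
  obtain ⟨Nn, hN1, hN2, hN3⟩ := exists_net o (R := 4 * 2 ^ (i + l)) (ρ := 2 ^ i) hr (by positivity)
  have hcard : (Nn.card : ℝ) ≤ Nm := by
    refine hN3.trans (le_of_eq ?_)
    rw [hNm]
    congr 1
    rw [pow_add]
    field_simp
    ring
  have hsub : ∀ ω : Cfg 𝓜.ι, ¬ (𝓜.a * cnt fun z => dist (𝓜.x z) o ≤ 4 * 2 ^ (i + l) ∧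
        FM 𝓜.x ω (2 ^ i) z) ≤ Nm * (C * m) → ∃ u ∈ Nn,
        C * m < 𝓜.a * cnt fun s => dist (𝓜.x s) u ≤ 3 * 2 ^ i ∧ FM 𝓜.x ω (2 ^ i) s := by
    intro ω hω
    by_contra hcon
    push Not at hcon
    refine hω ?_
    have h1 : (cnt fun z => dist (𝓜.x z) o ≤ 4 * 2 ^ (i + l) ∧ FM 𝓜.x ω (2 ^ i) z) ≤
        ∑ u ∈ Nn, cnt fun s => dist (𝓜.x s) u ≤ 3 * 2 ^ i ∧ FM 𝓜.x ω (2 ^ i) s := by
      refine le_trans (cnt_mono ?_) (cnt_exists_le Nn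
        (fun u s => dist (𝓜.x s) u ≤ 3 * 2 ^ i ∧ FM 𝓜.x ω (2 ^ i) s))
      rintro z ⟨hz, hf⟩
      obtain ⟨u, hu, hdu⟩ := hN2 _ hz
      exact ⟨u, hu, by linarith, hf⟩
    calc (𝓜.a * cnt fun z => dist (𝓜.x z) o ≤ 4 * 2 ^ (i + l) ∧ FM 𝓜.x ω (2 ^ i) z)
        ≤ 𝓜.a * ∑ u ∈ Nn, cnt fun s => dist (𝓜.x s) u ≤ 3 * 2 ^ i ∧ FM 𝓜.x ω (2 ^ i) s :=
          mul_le_mul_of_nonneg_left h1 hG.a_pos.le
      _ = ∑ u ∈ Nn, 𝓜.a * cnt fun s => dist (𝓜.x s) u ≤ 3 * 2 ^ i ∧ FM 𝓜.x ω (2 ^ i) s :=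
          Finset.mul_sum _ _ _
      _ ≤ ∑ _u ∈ Nn, C * m := Finset.sum_le_sum hcon
      _ = Nn.card * (C * m) := by rw [Finset.sum_const, nsmul_eq_mul]
      _ ≤ Nm * (C * m) := mul_le_mul_of_nonneg_right hcard (by positivity)
  refine (pr_mono hpar hsub).trans ((pr_exists_le hpar Nn _).trans ?_)
  have h2 : ∀ u ∈ Nn, pr 𝓜.a p (fun ω => C * m < 𝓜.a * cnt fun s =>
      dist (𝓜.x s) u ≤ 3 * 2 ^ i ∧ FM 𝓜.x ω (2 ^ i) s) ≤ C * (1 / 2) ^ (d * m) := by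
    intro u hu
    refine hW i (hi.trans hI1) m hI2 hm1 u ?_
    have h3 := hN1 u hu
    have h4 := norm_le_norm_add_norm_sub' u o
    rw [← dist_eq_norm] at h4
    have h5 : (2 : ℝ) ^ (i + l) ≤ 2 ^ (I + l) := pow_le_pow_right₀ (by norm_num) (by omega)
    linarith
  refine (Finset.sum_le_sum h2).trans ?_
  rw [Finset.sum_const, nsmul_eq_mul]
  refine le_trans ?_ hm
  exact mul_le_mul_of_nonneg_right hcard (by positivity)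

end ann

end Pool.Agent.Lib_helper33.ASM
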