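import Pool.Agent.Lib_helper33.ASM.Stmts

/-!
# Module GOOD, part (a)(ii): a large ball contains free volume with high probability
-/

set_option autoImplicit false

open scoped BigOperators

namespace Pool.Agent.Lib_helper33.ASM

section box

variable {d : ℕ} {p : ℝ}

lemma bx_mix_mem {ι : Type*} {D : Set ι} {ω β : Cfg ι} {i : ι} (h : i ∈ D) :
    mix D ω β i = ω i := by
  simp [mix, h]

lemma bx_mix_congr {ι : Type*} {D : Set ι} {ω ω' β : Cfg ι} (h : ∀ i ∈ D, ω i = ω' i) :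
    mix D ω β = mix D ω' β := by
  funext i
  by_cases hi : i ∈ D
  · simp [mix, hi, h i hi]
  · simp [mix, hi]

/-- one ball: lower bound of the probability -/
lemma one_ball (hd : 0 < d) (hp0 : 0 < p) (hp1 : p < 1) (hUB : StmtUB d p) (hLB : StmtLB d p) :
    ∃ (i₀ : ℕ) (η c₀ : ℝ), 0 < η ∧ 0 < c₀ ∧ c₀ ≤ 1 ∧ ∀ I : ℕ, Ev d p (fun 𝓜 => ∀ i, i₀ ≤ i → i ≤ I →
      ∀ u : Sp d, ‖u‖ ≤ I → c₀ ≤ pr 𝓜.a p (fun ω =>
        η ≤ 𝓜.a * cnt fun z => dist (𝓜.x z) u ≤ 2 ^ i / 2 ∧ FMR 𝓜.x ω (2 ^ i) z)) := by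
  obtain ⟨C, hC, hUB⟩ := hUB
  obtain ⟨c, hc, hLB⟩ := hLB
  set m : ℝ := c * (1 / (2 * d)) ^ d with hm
  have hdr : (0 : ℝ) < d := by exact_mod_cast hd
  have hm0 : 0 < m := by positivity
  refine ⟨8 * d, m / 2, min 1 (m ^ 2 / (4 * C)), by positivity, by positivity, min_le_left _ _,
    fun I => ?_⟩
  have hev := ((hUB (I + (I + 2 ^ I + 1))).and (hLB (I + (I + 2 ^ I + 1)))).and
    (Ev.good (d := d) p 0 0 one_pos)
  refine hev.mono ?_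
  rintro 𝓜 ⟨⟨hU, hL⟩, hG⟩ i hi0 hiI u hu
  have hpar : Par 𝓜.a p := hG.par hp0 hp1
  refine (min_le_right _ _).trans ?_
  have hiI2 : i ≤ I + (I + 2 ^ I + 1) := hiI.trans (Nat.le_add_right _ _)
  set f : Cfg 𝓜.ι → ℝ := fun ω => 𝓜.a * cnt fun z => dist (𝓜.x z) u ≤ 2 ^ i / 2 ∧
    FR 𝓜.x ω (2 ^ i) z with hf
  have hf0 : ∀ ω, 0 ≤ f ω := fun ω => mul_nonneg hG.a_pos.le (cnt_nonneg _)
  -- second moment
  have h2 : ex 𝓜.a p (fun ω => f ω ^ 2) ≤ C := by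
    refine le_trans (ex_mono hpar fun ω => ?_) ((hU i hiI2).2 u (by push_cast; linarith [show (0:ℝ) ≤ I from Nat.cast_nonneg I, show (0:ℝ) ≤ 2 ^ I by positivity]))
    have : f ω ≤ 𝓜.a * cnt fun z => dist (𝓜.x z) u ≤ 2 ^ i ∧ FR 𝓜.x ω (2 ^ i) z := by
      refine mul_le_mul_of_nonneg_left (cnt_mono ?_) hG.a_pos.le
      rintro z ⟨hz, hz2⟩
      refine ⟨hz.trans ?_, hz2⟩
      have : (0 : ℝ) < 2 ^ i := by positivity
      linarith
    exact pow_le_pow_left₀ (hf0 ω) this 2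
  -- first moment
  have h1 : m ≤ ex 𝓜.a p f := by
    have hR : (4 : ℝ) * d ≤ 2 ^ i / 2 := by
      have h3 : ((8 * d : ℕ) : ℝ) ≤ 2 ^ i := by
        have h4 : 8 * d < 2 ^ (8 * d) := Nat.lt_two_pow_self
        have h5 : 2 ^ (8 * d) ≤ 2 ^ i := Nat.pow_le_pow_right (by norm_num) hi0
        exact_mod_cast (h4.le.trans h5)
      push_cast at h3
      linarith
    obtain ⟨J, hJ1, hJ2, hJ3⟩ := exists_inner_cubes hd u hR
    have e1 : ex 𝓜.a p f = bs 𝓜 u (2 ^ i / 2) (vv p 𝓜 (2 ^ i)) := by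
      have e2 : ∀ ω, f ω = bs 𝓜 u (2 ^ i / 2) (fun s => ind (FR 𝓜.x ω (2 ^ i) s)) := by
        intro ω
        rw [bs_one]
      have e3 : ex 𝓜.a p f = ex 𝓜.a p (fun ω => 𝓜.a * ∑ s,
          (if dist (𝓜.x s) u ≤ 2 ^ i / 2 then ind (FR 𝓜.x ω (2 ^ i) s) else 0)) := by
        congr 1; funext ω; rw [e2 ω]; unfold bs; congr!
      rw [e3, ex_mul_left, ex_sum]
      unfold bs
      congr 1
      refine Finset.sum_congr rfl fun s _ => ?_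
      by_cases hs : dist (𝓜.x s) u ≤ 2 ^ i / 2
      · simp only [hs, if_true]; rfl
      · simp only [hs, if_false]; exact ex_const _ _ _
    rw [e1]
    refine le_trans ?_ (sum_cs_le_bs 𝓜 hG.a_pos.le u (2 ^ i / 2)
      (fun s => pr_nonneg hpar _) J hJ1)
    have h6 : ∀ j ∈ J, c * (1 / 2) ^ (d * i) ≤ cs 𝓜 j (vv p 𝓜 (2 ^ i)) := by
      intro j hj
      refine hL i hiI2 j fun k => ?_
      have h7 := abs_le_of_mem_cubes (B := ((I + (I + 2 ^ I + 1) : ℕ) : ℝ)) (hJ3 hj) (by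
        push_cast
        have h8 : (2 : ℝ) ^ i ≤ 2 ^ I := pow_le_pow_right₀ (by norm_num) hiI
        have h9 : (0 : ℝ) ≤ I := Nat.cast_nonneg I
        have h10 : (0 : ℝ) ≤ 2 ^ i := by positivity
        linarith) k
      have h11 : |(j k : ℝ)| = ((|j k| : ℤ) : ℝ) := by push_cast; rfl
      rw [h11] at h7
      exact_mod_cast h7
    calc m = ((2 ^ i / 2 / d : ℝ)) ^ d * (c * (1 / 2) ^ (d * i)) := by
          rw [hm]
          have e4 : (2 ^ i / 2 / d : ℝ) = (1 / (2 * d)) * 2 ^ i := by field_simp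
          rw [e4, mul_pow, ← pow_mul]
          have e5 : (2 : ℝ) ^ (i * d) * (1 / 2) ^ (d * i) = 1 := by
            rw [mul_comm i d, ← mul_pow]; norm_num
          calc c * (1 / (2 * (d : ℝ))) ^ d = c * (1 / (2 * (d : ℝ))) ^ d * 1 := by ring
            _ = c * (1 / (2 * (d : ℝ))) ^ d * ((2 : ℝ) ^ (i * d) * (1 / 2) ^ (d * i)) := by rw [e5]
            _ = _ := by ring
      _ ≤ (J.card : ℝ) * (c * (1 / 2) ^ (d * i)) :=
          mul_le_mul_of_nonneg_right hJ2 (by positivity)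
      _ = ∑ _j ∈ J, c * (1 / 2) ^ (d * i) := by rw [Finset.sum_const, nsmul_eq_mul]
      _ ≤ _ := Finset.sum_le_sum h6
  refine (paley_zygmund hpar hf0 hm0 h1 h2).trans (pr_mono hpar fun ω hω => hω.trans ?_)
  refine mul_le_mul_of_nonneg_left (cnt_mono ?_) hG.a_pos.le
  rintro z ⟨hz, hz2⟩
  exact ⟨hz, hz2.fmr 𝓜.gen⟩

/-- Module GOOD, part (a)(ii) -/
lemma box_good (hd : 0 < d) (hp0 : 0 < p) (hp1 : p < 1) (hUB : StmtUB d p) (hLB : StmtLB d p)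
    (hLOC : StmtLOC d p) (α : ℝ) (hα : 0 < α) :
    ∃ (l₁ i₀ : ℕ) (η : ℝ), 0 < η ∧ ∀ I : ℕ, Ev d p (fun 𝓜 => ∀ i, i₀ ≤ i → i ≤ I →
      ∀ l, l₁ ≤ l → ∀ c : Sp d, ‖c‖ ≤ I → pr 𝓜.a p (fun ω =>
        ¬ η ≤ 𝓜.a * cnt fun z => dist (𝓜.x z) c ≤ 2 ^ (i + l) / 50 ∧
          FMR 𝓜.x ω (2 ^ i) z) ≤ α) := by
  classical
  obtain ⟨i₀, η, c₀, hη, hc₀, hc₁, hball⟩ := one_ball hd hp0 hp1 hUB hLB
  obtain ⟨C, hC, hLOC⟩ := hLOC
  -- choice of `K`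
  obtain ⟨K, hK⟩ : ∃ K : ℕ, (1 - c₀ / 2) ^ K ≤ α / 2 := by
    obtain ⟨K, hK⟩ := exists_pow_lt_of_lt_one (show (0 : ℝ) < α / 2 by positivity)
      (show 1 - c₀ / 2 < 1 by linarith)
    exact ⟨K, hK.le⟩
  -- choice of `l'`
  obtain ⟨l', hl', hl'2⟩ : ∃ l' : ℕ, 1 ≤ l' ∧
      C * (1 / 2 : ℝ) ^ ((d + 2) * l') ≤ min (c₀ / 2) (α / (2 * (K + 1))) := by
    have hpos : 0 < min (c₀ / 2) (α / (2 * ((K : ℝ) + 1))) := by positivity
    obtain ⟨n, hn⟩ := exists_pow_lt_of_lt_one (show (0 : ℝ) <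
      min (c₀ / 2) (α / (2 * ((K : ℝ) + 1))) / C by positivity)
      (show (1 / 2 : ℝ) < 1 by norm_num)
    refine ⟨n + 1, by omega, ?_⟩
    have h1 : (1 / 2 : ℝ) ^ ((d + 2) * (n + 1)) ≤ (1 / 2) ^ n := by
      apply pow_le_pow_of_le_one (by norm_num) (by norm_num)
      nlinarith
    rw [lt_div_iff₀ hC] at hn
    calc C * (1 / 2 : ℝ) ^ ((d + 2) * (n + 1)) ≤ C * (1 / 2) ^ n :=
          mul_le_mul_of_nonneg_left h1 hC.le
      _ ≤ _ := by rw [mul_comm]; exact hn.le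
  set ε : ℝ := C * (1 / 2 : ℝ) ^ ((d + 2) * l') with hε
  have hε0 : 0 ≤ ε := by positivity
  have hε1 : ε ≤ c₀ / 2 := hl'2.trans (min_le_left _ _)
  have hε2 : K * ε ≤ α / 2 := by
    have h1 : ε ≤ α / (2 * (K + 1)) := hl'2.trans (min_le_right _ _)
    have hK0 : (0 : ℝ) ≤ K := Nat.cast_nonneg K
    rw [le_div_iff₀ (by positivity)] at h1
    nlinarith
  -- choice of `l₁`
  obtain ⟨l₁, hl₁2⟩ : ∃ l₁ : ℕ, (50 * (5 * K * 2 ^ l' + 1) : ℝ) ≤ 2 ^ l₁ := by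
    obtain ⟨n, hn⟩ := pow_unbounded_of_one_lt (50 * (5 * K * 2 ^ l' + 1) : ℝ)
      (show (1 : ℝ) < 2 by norm_num)
    exact ⟨n, hn.le⟩
  refine ⟨l₁, i₀, η, hη, fun I => ?_⟩
  obtain ⟨I', hI1, hI2, hI3⟩ : ∃ I' : ℕ, I ≤ I' ∧ l' ≤ I' ∧ (I : ℝ) + 2 ^ (I + l₁) ≤ I' := by
    obtain ⟨n, hn⟩ := exists_nat_ge ((I : ℝ) + 2 ^ (I + l₁))
    exact ⟨max I (max l' n), le_max_left _ _, (le_max_left _ _).trans (le_max_right _ _),
      hn.trans (by exact_mod_cast (le_max_right _ _).trans (le_max_right _ _))⟩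
  have hev := ((hball I').and (hLOC I')).and (Ev.good (d := d) p 0 0 one_pos)
  refine hev.mono ?_
  rintro 𝓜 ⟨⟨hB, hL⟩, hG⟩ i hi0 hiI l hl c hcI
  have hpar : Par 𝓜.a p := hG.par hp0 hp1
  have hr : (0 : ℝ) < 2 ^ i := by positivity
  -- the points
  obtain ⟨u, hu1, hu2⟩ := exists_spaced hd c (ρ := 5 * 2 ^ l' * 2 ^ i) (R := 5 * 2 ^ l' * 2 ^ i * K)
    (by positivity) K le_rfl
  have hR : (5 * 2 ^ l' * 2 ^ i * K + 2 ^ i / 2 : ℝ) ≤ 2 ^ (i + l₁) / 50 := by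
    rw [pow_add]
    have h1 := mul_le_mul_of_nonneg_left hl₁2 hr.le
    nlinarith
  have hR2 : (2 : ℝ) ^ (i + l₁) / 50 ≤ 2 ^ (i + l) / 50 := by
    have : (2 : ℝ) ^ (i + l₁) ≤ 2 ^ (i + l) := pow_le_pow_right₀ (by norm_num) (by omega)
    linarith
  have hui : ∀ m < K, ‖u m‖ ≤ I' := by
    intro m hm
    have h1 := hu1 m hm
    have h2 := norm_le_norm_add_norm_sub' (u m) c
    rw [← dist_eq_norm] at h2
    have h3 : (2 : ℝ) ^ (i + l₁) ≤ 2 ^ (I + l₁) := pow_le_pow_right₀ (by norm_num) (by omega)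
    have h4 : (0 : ℝ) ≤ 2 ^ (i + l₁) := by positivity
    linarith
  set D : ℕ → Set 𝓜.ι := fun m => {s | dist (𝓜.x s) (u m) ≤ 2 * 2 ^ l' * 2 ^ i} with hD
  set A : ℕ → Set 𝓜.ι := fun m => {s | dist (𝓜.x s) (u m) ≤ 3 / 2 * 2 ^ i} with hA
  set β : Cfg 𝓜.ι := fun _ => none with hβ
  set Ev1 : ℕ → Cfg 𝓜.ι → Prop := fun m ω =>
    η ≤ 𝓜.a * cnt fun z => dist (𝓜.x z) (u m) ≤ 2 ^ i / 2 ∧ FMR 𝓜.x ω (2 ^ i) z with hEv1
  have h2l : (2 : ℝ) ≤ 2 ^ l' := by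
    calc (2 : ℝ) = 2 ^ 1 := by norm_num
      _ ≤ 2 ^ l' := pow_le_pow_right₀ (by norm_num) hl'
  have hpw : (0 : ℝ) < 2 ^ l' * 2 ^ i := by positivity
  have hAD : ∀ m, ∀ s ∈ A m, ∀ s', dist (𝓜.x s) (𝓜.x s') ≤ 2 ^ (l' + i) → s' ∈ D m := by
    intro m s hs s' hss
    simp only [hA, Set.mem_setOf_eq] at hs
    simp only [hD, Set.mem_setOf_eq]
    have h1 := dist_triangle (𝓜.x s') (𝓜.x s) (u m)
    rw [dist_comm (𝓜.x s') (𝓜.x s)] at h1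
    rw [pow_add] at hss
    nlinarith
  have hagr : ∀ m < K, pr 𝓜.a p (fun ω => ¬ Agree 𝓜.x (mix (D m) ω β) ω (A m) (2 ^ i)) ≤ ε := by
    intro m hm
    refine hL i (hiI.trans hI1) l' hI2 (u m) (hui m hm) (D m) (A m) β ?_
      (hAD m)
    intro s hs
    simp only [hA, Set.mem_setOf_eq] at hs
    refine hs.trans ?_
    rw [pow_add, pow_add]
    have h3 : (1024 : ℝ) ≤ 2 ^ 10 := by norm_num
    nlinarith
  -- the truncated events agree on the agreement event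
  have hsame : ∀ m, ∀ ω, Agree 𝓜.x (mix (D m) ω β) ω (A m) (2 ^ i) →
      (Ev1 m (mix (D m) ω β) ↔ Ev1 m ω) := by
    intro m ω hag
    have h1 : ∀ z, dist (𝓜.x z) (u m) ≤ 2 ^ i / 2 →
        (FMR 𝓜.x (mix (D m) ω β) (2 ^ i) z ↔ FMR 𝓜.x ω (2 ^ i) z) := by
      intro z hz
      refine fmr_agree hag hr ?_
      intro k hk
      have h2 : k ∈ A m := by
        simp only [hA, Set.mem_setOf_eq]
        have h3 := dist_triangle (𝓜.x k) (𝓜.x z) (u m)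
        rw [dist_comm (𝓜.x k) (𝓜.x z)] at h3
        linarith
      refine ⟨h2, bx_mix_mem (hAD m k h2 k ?_)⟩
      simp
    have h2 : (cnt fun z => dist (𝓜.x z) (u m) ≤ 2 ^ i / 2 ∧
        FMR 𝓜.x (mix (D m) ω β) (2 ^ i) z) =
        cnt fun z => dist (𝓜.x z) (u m) ≤ 2 ^ i / 2 ∧ FMR 𝓜.x ω (2 ^ i) z :=
      le_antisymm (cnt_mono fun z hz => ⟨hz.1, (h1 z hz.1).1 hz.2⟩)
        (cnt_mono fun z hz => ⟨hz.1, (h1 z hz.1).2 hz.2⟩)
    simp only [hEv1, h2]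
  -- independence
  have hind : pr 𝓜.a p (fun ω => ∀ m ∈ Finset.range K, ¬ Ev1 m (mix (D m) ω β)) =
      ∏ m ∈ Finset.range K, pr 𝓜.a p (fun ω => ¬ Ev1 m (mix (D m) ω β)) := by
    refine pr_indep_finset hpar (Finset.range K) D ?_ (fun m ω => ¬ Ev1 m (mix (D m) ω β)) ?_
    · intro m hm m' hm' hne
      rw [Set.disjoint_left]
      intro s hs hs'
      simp only [hD, Set.mem_setOf_eq] at hs hs'
      have h1 := hu2 m (Finset.mem_range.1 hm) m' (Finset.mem_range.1 hm') hne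
      have h2 := dist_triangle_left (u m) (u m') (𝓜.x s)
      nlinarith
    · intro m _ ω ω' hωω'
      rw [bx_mix_congr hωω']
  have hone : ∀ m ∈ Finset.range K, pr 𝓜.a p (fun ω => ¬ Ev1 m (mix (D m) ω β)) ≤ 1 - c₀ / 2 := by
    intro m hm
    have hmK := Finset.mem_range.1 hm
    have h1 : pr 𝓜.a p (fun ω => ¬ Ev1 m (mix (D m) ω β)) ≤
        pr 𝓜.a p (fun ω => ¬ Ev1 m ω) +
        pr 𝓜.a p (fun ω => ¬ Agree 𝓜.x (mix (D m) ω β) ω (A m) (2 ^ i)) := by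
      refine le_trans (pr_mono hpar ?_) (pr_or_le hpar _ _)
      intro ω hω
      by_cases hag : Agree 𝓜.x (mix (D m) ω β) ω (A m) (2 ^ i)
      · exact Or.inl fun h => hω ((hsame m ω hag).2 h)
      · exact Or.inr hag
    have h2 := hB i hi0 (hiI.trans hI1) (u m) (hui m hmK)
    have h3 := hagr m hmK
    have h4 : c₀ ≤ pr 𝓜.a p (Ev1 m) := h2
    have h5 : pr 𝓜.a p (fun ω => ¬ Ev1 m ω) = 1 - pr 𝓜.a p (Ev1 m) := pr_not (Ev1 m)
    linarith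
  have hprod : ∏ m ∈ Finset.range K, pr 𝓜.a p (fun ω => ¬ Ev1 m (mix (D m) ω β)) ≤ α / 2 := by
    refine le_trans ?_ hK
    calc ∏ m ∈ Finset.range K, pr 𝓜.a p (fun ω => ¬ Ev1 m (mix (D m) ω β))
        ≤ ∏ _m ∈ Finset.range K, (1 - c₀ / 2) :=
          Finset.prod_le_prod (fun m _ => pr_nonneg hpar _) hone
      _ = (1 - c₀ / 2) ^ K := by rw [Finset.prod_const, Finset.card_range]
  -- conclusion
  have hfinal : pr 𝓜.a p (fun ω => ¬ η ≤ 𝓜.a * cnt fun z => dist (𝓜.x z) c ≤ 2 ^ (i + l) / 50 ∧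
      FMR 𝓜.x ω (2 ^ i) z) ≤
      pr 𝓜.a p (fun ω => ∀ m ∈ Finset.range K, ¬ Ev1 m (mix (D m) ω β)) +
      ∑ m ∈ Finset.range K,
        pr 𝓜.a p (fun ω => ¬ Agree 𝓜.x (mix (D m) ω β) ω (A m) (2 ^ i)) := by
    refine le_trans (pr_mono hpar ?_) ((pr_or_le hpar _ (fun ω => ∃ m ∈ Finset.range K,
      ¬ Agree 𝓜.x (mix (D m) ω β) ω (A m) (2 ^ i))).trans
      (add_le_add le_rfl (pr_exists_le hpar _ _)))
    intro ω hω
    by_cases hex : ∃ m ∈ Finset.range K, ¬ Agree 𝓜.x (mix (D m) ω β) ω (A m) (2 ^ i)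
    · exact Or.inr hex
    · refine Or.inl fun m hm hE => hω ?_
      push Not at hex
      have h1 := (hsame m ω (hex m hm)).1 hE
      refine h1.trans (mul_le_mul_of_nonneg_left (cnt_mono ?_) hG.a_pos.le)
      rintro z ⟨hz, hz2⟩
      refine ⟨?_, hz2⟩
      have h2 := hu1 m (Finset.mem_range.1 hm)
      have h3 := dist_triangle (𝓜.x z) (u m) c
      linarith
  refine hfinal.trans ?_
  rw [hind]
  have hsum : ∑ m ∈ Finset.range K,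
      pr 𝓜.a p (fun ω => ¬ Agree 𝓜.x (mix (D m) ω β) ω (A m) (2 ^ i)) ≤ K * ε := by
    calc _ ≤ ∑ _m ∈ Finset.range K, ε :=
          Finset.sum_le_sum fun m hm => hagr m (Finset.mem_range.1 hm)
      _ = K * ε := by rw [Finset.sum_const, Finset.card_range, nsmul_eq_mul]
  linarith

end box

end Pool.Agent.Lib_helper33.ASM
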