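import Mathlib

/-!
# Asymmetric stable matching: the finite (discrete) model

Sites `s : ι` with positions `x s` in `d`-dimensional space, all distances different.  A configuration
`ω : Cfg ι` says for every site whether it is empty (`none`), carries a red point (`some true`) or
a blue point (`some false`).  Two points may be matched unless both are blue.
-/

set_option autoImplicit false

open scoped BigOperators

namespace Pool.Agent.Lib_helper33.ASM

/-- `d`-dimensional Euclidean space. -/
abbrev Sp (d : ℕ) := EuclideanSpace ℝ (Fin d)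

/-- configurations: `none` = no point, `some true` = red point, `some false` = blue point -/
abbrev Cfg (ι : Type*) := ι → Option Bool

/-! ## The matching -/

section det

variable {ι : Type*} {E : Type*} [MetricSpace E]

/-- all distances between distinct sites are different -/
def Gen (x : ι → E) : Prop :=
  ∀ i j k l, i ≠ j → k ≠ l → dist (x i) (x j) = dist (x k) (x l) →
    (i = k ∧ j = l) ∨ (i = l ∧ j = k)

/-- `i ≠ j` both carry points and the rule allows to match them -/
def Ok (ω : Cfg ι) (i j : ι) : Prop :=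
  i ≠ j ∧ ω i ≠ none ∧ ω j ≠ none ∧ (ω i = some true ∨ ω j = some true)

/-- `M` is the (greedy = stable) matching of the configuration `ω`: an allowed pair is matched iff
no shorter adjacent pair is matched. -/
def IsKer (x : ι → E) (ω : Cfg ι) (M : ι → ι → Prop) : Prop :=
  ∀ i j, M i j ↔ Ok ω i j ∧ ∀ k, (M i k → dist (x i) (x j) ≤ dist (x i) (x k)) ∧
    (M j k → dist (x i) (x j) ≤ dist (x j) (x k))

/-- the stable matching of `ω` -/
def mt (x : ι → E) (ω : Cfg ι) (i j : ι) : Prop := ∃ M, IsKer x ω M ∧ M i j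

/-- `i` is matched at distance `< r` (before time `r`) -/
def Bf (x : ι → E) (ω : Cfg ι) (r : ℝ) (i : ι) : Prop :=
  ∃ j, mt x ω i j ∧ dist (x i) (x j) < r

/-- `i` carries a point which is unmatched at time `r` -/
def Un (x : ι → E) (ω : Cfg ι) (r : ℝ) (i : ι) : Prop := ω i ≠ none ∧ ¬ Bf x ω r i

/-- the empty site `z` is free for a RED point up to time `r`: no point `y` within distance `r`
that is still unmatched at time `|z-y|` -/
def FR (x : ι → E) (ω : Cfg ι) (r : ℝ) (z : ι) : Prop :=
  ω z = none ∧ ∀ y, ω y ≠ none → dist (x z) (x y) < r →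
    ∃ k, mt x ω y k ∧ dist (x y) (x k) ≤ dist (x z) (x y)

/-- the empty site `z` is free for a BLUE point up to time `r` -/
def FB (x : ι → E) (ω : Cfg ι) (r : ℝ) (z : ι) : Prop :=
  ω z = none ∧ ∀ y, ω y = some true → dist (x z) (x y) < r →
    ∃ k, mt x ω y k ∧ dist (x y) (x k) ≤ dist (x z) (x y)

/-- `z` is not matched before `r`, and no red point matched before time `r` blocks `z`.
Depends only on the pairs matched before time `r`. -/
def FM (x : ι → E) (ω : Cfg ι) (r : ℝ) (z : ι) : Prop :=
  ¬ Bf x ω r z ∧ ∀ y k, ω y = some true → mt x ω y k → dist (x y) (x k) < r →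
    dist (x y) (x k) ≤ dist (x z) (x y)

/-- `z` is not matched before `r`, and no point (of any colour) matched before time `r` blocks
`z`. -/
def FMR (x : ι → E) (ω : Cfg ι) (r : ℝ) (z : ι) : Prop :=
  ¬ Bf x ω r z ∧ ∀ y k, mt x ω y k → dist (x y) (x k) < r →
    dist (x y) (x k) ≤ dist (x z) (x y)

/-- `i` is matched to `j` in `M`, and later (or never) in `M'` -/
def Earlier (x : ι → E) (M M' : ι → ι → Prop) (i j : ι) : Prop :=
  M i j ∧ ∀ k, M' i k → dist (x i) (x j) < dist (x i) (x k)

/-- `j` is the predecessor of the discrepancy `i`: the partner of `i` in the configuration where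
`i` is matched earlier -/
def Pred (x : ι → E) (ω ω' : Cfg ι) (i j : ι) : Prop :=
  Earlier x (mt x ω) (mt x ω') i j ∨ Earlier x (mt x ω') (mt x ω) i j

open Classical in
/-- the configuration which is `ω` on `D` and `β` outside `D` -/
noncomputable def mix (D : Set ι) (ω β : Cfg ι) : Cfg ι := fun i => if i ∈ D then ω i else β i

open Classical in
/-- erase the points of `S` -/
noncomputable def er (ω : Cfg ι) (S : Set ι) : Cfg ι := fun i => if i ∈ S then none else ω i

end det

/-! ## The finite product measure -/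

section prob

variable {ι : Type*} [Fintype ι] [DecidableEq ι]

/-- weights of the states of a site: occupied with probability `a`, red with probability `p` given
that it is occupied -/
def wt (a p : ℝ) : Option Bool → ℝ
  | none => 1 - a
  | some true => a * p
  | some false => a * (1 - p)

/-- weight of a configuration -/
def pw (a p : ℝ) (ω : Cfg ι) : ℝ := ∏ i, wt a p (ω i)

/-- expectation -/
def ex (a p : ℝ) (f : Cfg ι → ℝ) : ℝ := ∑ ω : Cfg ι, pw a p ω * f ω

open Classical in
/-- indicator of a proposition -/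
noncomputable def ind (A : Prop) : ℝ := if A then 1 else 0

/-- probability -/
noncomputable def pr (a p : ℝ) (A : Cfg ι → Prop) : ℝ := ex a p (fun ω => ind (A ω))

open Classical in
/-- number of sites with a property -/
noncomputable def cnt (A : ι → Prop) : ℝ := ((Finset.univ.filter A).card : ℝ)

end prob

/-! ## Models -/

/-- a finite generic set of sites in the box `[-n, n)^d`, with occupation probability `a` -/
structure Model (d : ℕ) where
  /-- the type of sites -/
  ι : Type
  [ft : Fintype ι]
  [de : DecidableEq ι]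
  /-- the positions -/
  x : ι → Sp d
  gen : Gen x
  /-- occupation probability of a site -/
  a : ℝ
  /-- half side of the box -/
  n : ℕ

attribute [instance] Model.ft Model.de

variable {d : ℕ}

/-- the unit cube containing `y` -/
noncomputable def cb (y : Sp d) : Fin d → ℤ := fun i => ⌊y i⌋

/-- expected number of red points in the unit cube `j` unmatched at time `t` -/
noncomputable def ER (p : ℝ) (𝓜 : Model d) (j : Fin d → ℤ) (t : ℝ) : ℝ :=
  ex 𝓜.a p (fun ω => cnt fun s => cb (𝓜.x s) = j ∧ ω s = some true ∧ Un 𝓜.x ω t s)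

/-- expected number of blue points in the unit cube `j` unmatched at time `t` -/
noncomputable def EB (p : ℝ) (𝓜 : Model d) (j : Fin d → ℤ) (t : ℝ) : ℝ :=
  ex 𝓜.a p (fun ω => cnt fun s => cb (𝓜.x s) = j ∧ ω s = some false ∧ Un 𝓜.x ω t s)

/-- The hypotheses on a model: the sites fill the box, about `1 / a` sites per unit cube, the
density of unmatched red points at the times `2 ^ i`, `i ≤ I`, is nearly translation invariant in
the bulk, and the density of unmatched blue points is at most twice that of the red points. -/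
structure Good (p : ℝ) (I n₀ : ℕ) (a₀ : ℝ) (𝓜 : Model d) : Prop where
  n_le : n₀ ≤ 𝓜.n
  a_pos : 0 < 𝓜.a
  a_le : 𝓜.a ≤ a₀
  a_half : 𝓜.a ≤ 1 / 2
  box : ∀ s i, -(𝓜.n : ℤ) ≤ cb (𝓜.x s) i ∧ cb (𝓜.x s) i < 𝓜.n
  dens_lo : ∀ j : Fin d → ℤ, (∀ i, -(𝓜.n : ℤ) ≤ j i ∧ j i < 𝓜.n) →
    1 / 2 ≤ 𝓜.a * cnt fun s => cb (𝓜.x s) = j
  dens_hi : ∀ j : Fin d → ℤ, 𝓜.a * (cnt fun s => cb (𝓜.x s) = j) ≤ 1
  shift : ∀ i ≤ I, ∀ j j' : Fin d → ℤ, (∀ k, |j k| ≤ (n₀ : ℤ)) → (∀ k, |j' k| ≤ (n₀ : ℤ)) →
    ER p 𝓜 j (2 ^ i) ≤ 2 * ER p 𝓜 j' (2 ^ i)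
  blue : ∀ i ≤ I, ∀ j : Fin d → ℤ, (∀ k, |j k| ≤ (n₀ : ℤ)) →
    EB p 𝓜 j (2 ^ i) ≤ 2 * ER p 𝓜 j (2 ^ i)

/-- the quantifier: for all sufficiently good models -/
def Ev (d : ℕ) (p : ℝ) (P : Model d → Prop) : Prop :=
  ∃ (I n₀ : ℕ) (a₀ : ℝ), 0 < a₀ ∧ ∀ 𝓜 : Model d, Good p I n₀ a₀ 𝓜 → P 𝓜

end Pool.Agent.Lib_helper33.ASM
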