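import Pool.Agent.Lib_helper33.ASM.Kernel

/-!
# More definitions of the finite part
-/

set_option autoImplicit false

open scoped BigOperators

namespace Pool.Agent.Lib_helper33.ASM

section det

variable {ι : Type*} {E : Type*} [MetricSpace E]

open Classical in
/-- insert (or recolour) a point of colour `b` at `z` -/
noncomputable def ins (ω : Cfg ι) (z : ι) (b : Bool) : Cfg ι := fun i => if i = z then some b else ω i

open Classical in
/-- recolour the points of `R` to blue -/
noncomputable def rcb (ω : Cfg ι) (R : Set ι) : Cfg ι := fun i => if i ∈ R then some false else ω i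

/-- the matchings agree below `r` -/
def Same (x : ι → E) (ω ω' : Cfg ι) (r : ℝ) : Prop :=
  ∀ i j, dist (x i) (x j) < r → (mt x ω i j ↔ mt x ω' i j)

/-- `DP n z`: there is a backward chain `z = z_n, z_{n-1}, ..., z_1 ∈ G`, `z_0 ∉ G`, where `z_{i-1}` is
the predecessor of the discrepancy `z_i`, all steps shorter than `r'` -/
def DP (x : ι → E) (ω ω' : Cfg ι) (G : Set ι) (r' : ℝ) : ℕ → ι → Prop
  | 0, z => z ∉ G
  | n + 1, z => z ∈ G ∧ ∃ k, Pred x ω ω' z k ∧ dist (x z) (x k) < r' ∧ DP x ω ω' G r' n k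

/-- `z` is the last vertex of its chain -/
def Term (x : ι → E) (ω ω' : Cfg ι) (G : Set ι) (r' : ℝ) (z : ι) : Prop :=
  ¬ ∃ z' ∈ G, Pred x ω ω' z' z ∧ dist (x z') (x z) < r'

/-- `z` is stoppable: blue, or red with a red predecessor -/
def Stop (x : ι → E) (ω ω' : Cfg ι) (z : ι) : Prop :=
  ω z = some false ∨ (ω z = some true ∧ ∃ k, Pred x ω ω' z k ∧ ω k = some true)

/-- the matchings of `ω` and `ω'` agree at the sites of `A` below `r` -/
def Agree (x : ι → E) (ω ω' : Cfg ι) (A : Set ι) (r : ℝ) : Prop :=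
  ∀ i ∈ A, ∀ j, dist (x i) (x j) < r → (mt x ω i j ↔ mt x ω' i j)

end det

/-- parameters of the product measure -/
structure Par (a p : ℝ) : Prop where
  a_pos : 0 < a
  a_half : a ≤ 1 / 2
  p_pos : 0 < p
  p_lt : p < 1

variable {d : ℕ}

/-- the unit cubes which meet the ball -/
noncomputable def cubes (c : Sp d) (R : ℝ) : Finset (Fin d → ℤ) :=
  Fintype.piFinset fun i => Finset.Icc ⌊c i - R⌋ ⌊c i + R⌋

open Classical in
/-- sum over the sites of a unit cube, times `a` -/
noncomputable def cs (𝓜 : Model d) (j : Fin d → ℤ) (f : 𝓜.ι → ℝ) : ℝ :=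
  𝓜.a * ∑ s, if cb (𝓜.x s) = j then f s else 0

open Classical in
/-- sum over the sites of a ball, times `a` -/
noncomputable def bs (𝓜 : Model d) (c : Sp d) (R : ℝ) (f : 𝓜.ι → ℝ) : ℝ :=
  𝓜.a * ∑ s, if dist (𝓜.x s) c ≤ R then f s else 0

end Pool.Agent.Lib_helper33.ASM
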