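import Pool.Agent.Lib_helper33.ASM.Defs2

/-!
# Geometry, part 1
-/

set_option autoImplicit false
set_option linter.unusedSectionVars false
set_option linter.unusedVariables false

open scoped BigOperators

namespace Pool.Agent.Lib_helper33.ASM

variable {d : ℕ}

/-- packing bound -/
lemma packing {ι : Type*} (S : Finset ι) (x : ι → Sp d) (c : Sp d) {R ρ : ℝ} (hρ : 0 < ρ)
    (hR : 0 ≤ R) (h1 : ∀ s ∈ S, dist (x s) c ≤ R)
    (h2 : ∀ s ∈ S, ∀ s' ∈ S, s ≠ s' → ρ ≤ dist (x s) (x s')) :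
    (S.card : ℝ) ≤ (2 * R / ρ + 1) ^ d := by
  classical
  set μ : MeasureTheory.Measure (Sp d) := MeasureTheory.volume with hμ
  have hr : 0 < ρ / 2 := by positivity
  have hRr : 0 < R + ρ / 2 := by positivity
  have hfin : Module.finrank ℝ (Sp d) = d := by simp
  have hdisj : (S : Set ι).PairwiseDisjoint (fun s => Metric.ball (x s) (ρ / 2)) := by
    intro s hs s' hs' hne
    apply Metric.ball_disjoint_ball
    have := h2 s hs s' hs' hne
    linarith
  have hunion : μ (⋃ s ∈ S, Metric.ball (x s) (ρ / 2)) = ∑ s ∈ S, μ (Metric.ball (x s) (ρ / 2)) :=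
    MeasureTheory.measure_biUnion_finset hdisj (fun s _ => measurableSet_ball)
  have hsub : (⋃ s ∈ S, Metric.ball (x s) (ρ / 2)) ⊆ Metric.ball c (R + ρ / 2) := by
    refine Set.iUnion₂_subset fun s hs => ?_
    apply Metric.ball_subset_ball'
    have := h1 s hs
    linarith
  have hle := MeasureTheory.measure_mono (μ := μ) hsub
  rw [hunion] at hle
  simp only [MeasureTheory.Measure.addHaar_ball_of_pos μ _ hr,
    MeasureTheory.Measure.addHaar_ball_of_pos μ _ hRr, hfin, Finset.sum_const, nsmul_eq_mul] at hle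
  have hpos : μ (Metric.ball (0 : Sp d) 1) ≠ 0 := (Metric.measure_ball_pos μ _ one_pos).ne'
  have htop : μ (Metric.ball (0 : Sp d) 1) ≠ ⊤ := MeasureTheory.measure_ball_lt_top.ne
  rw [← mul_assoc, ENNReal.mul_le_mul_iff_left hpos htop] at hle
  rw [← ENNReal.ofReal_natCast, ← ENNReal.ofReal_mul (by positivity),
    ENNReal.ofReal_le_ofReal_iff (by positivity)] at hle
  have h3 : (2 * R / ρ + 1) ^ d = (R + ρ / 2) ^ d / (ρ / 2) ^ d := by
    rw [← div_pow]
    congr 1
    field_simp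
  rw [h3, le_div_iff₀ (by positivity)]
  exact hle

/-- nets in balls -/
lemma exists_net (c : Sp d) {R ρ : ℝ} (hρ : 0 < ρ) (hR : 0 ≤ R) :
    ∃ N : Finset (Sp d), (∀ u ∈ N, dist u c ≤ R) ∧ (∀ y, dist y c ≤ R → ∃ u ∈ N, dist y u ≤ ρ) ∧
      (N.card : ℝ) ≤ (2 * R / ρ + 1) ^ d := by
  classical
  -- separated sets
  let P : Finset (Sp d) → Prop := fun N => (∀ u ∈ N, dist u c ≤ R) ∧
    ∀ u ∈ N, ∀ v ∈ N, u ≠ v → ρ ≤ dist u v
  have hP : ∀ N, P N → (N.card : ℝ) ≤ (2 * R / ρ + 1) ^ d := fun N hN =>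
    packing N (fun u => u) c hρ hR hN.1 hN.2
  let T : Set ℕ := {m | ∃ N, P N ∧ N.card = m}
  have hne : T.Nonempty := ⟨0, ∅, ⟨by simp, by simp⟩, rfl⟩
  have hbdd : BddAbove T := by
    refine ⟨⌊(2 * R / ρ + 1) ^ d⌋₊, ?_⟩
    rintro m ⟨N, hN, rfl⟩
    exact Nat.le_floor (hP N hN)
  obtain ⟨N, hN, hcard⟩ := Nat.sSup_mem hne hbdd
  refine ⟨N, hN.1, fun y hy => ?_, hP N hN⟩
  by_contra hcon
  push Not at hcon
  have hyN : y ∉ N := by
    intro h
    have := hcon y h
    rw [dist_self] at this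
    linarith
  have hnew : P (insert y N) := by
    refine ⟨?_, ?_⟩
    · intro u hu
      rw [Finset.mem_insert] at hu
      rcases hu with rfl | hu
      · exact hy
      · exact hN.1 u hu
    · intro u hu v hv huv
      rw [Finset.mem_insert] at hu hv
      rcases hu with rfl | hu <;> rcases hv with rfl | hv
      · exact absurd rfl huv
      · exact (hcon v hv).le
      · rw [dist_comm]; exact (hcon u hu).le
      · exact hN.2 u hu v hv huv
  have h1 : (insert y N).card ≤ sSup T := le_csSup hbdd ⟨_, hnew, rfl⟩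
  rw [Finset.card_insert_of_notMem hyN, hcard] at h1
  omega

/-- many far apart points in a ball: `(m + 1) ^ d` points with mutual distances `≥ ρ` (here only one
direction is used: `m + 1` points on a segment) -/
lemma exists_spaced (hd : 0 < d) (c : Sp d) {ρ R : ℝ} (hρ : 0 < ρ) (K : ℕ) (hR : ρ * K ≤ R) :
    ∃ u : ℕ → Sp d, (∀ i < K, dist (u i) c ≤ R) ∧
      ∀ i < K, ∀ j < K, i ≠ j → ρ ≤ dist (u i) (u j) := by
  set e : Sp d := EuclideanSpace.single (⟨0, hd⟩ : Fin d) (1 : ℝ) with he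
  have hen : ‖e‖ = 1 := by simp [he]
  refine ⟨fun i => c + ((i : ℝ) * ρ) • e, fun i hi => ?_, fun i hi j hj hij => ?_⟩
  · rw [dist_eq_norm, add_sub_cancel_left, norm_smul, hen, mul_one, Real.norm_of_nonneg (by positivity)]
    have : (i : ℝ) ≤ K := by exact_mod_cast hi.le
    nlinarith
  · rw [dist_eq_norm, add_sub_add_left_eq_sub, ← sub_smul, norm_smul, hen, mul_one, ← sub_mul,
      norm_mul, Real.norm_of_nonneg hρ.le, Real.norm_eq_abs]
    have h1 : (1 : ℝ) ≤ |(i : ℝ) - j| := by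
      have h2 : (1 : ℤ) ≤ |(i : ℤ) - j| := by
        apply Int.one_le_abs
        omega
      exact_mod_cast h2
    nlinarith

end Pool.Agent.Lib_helper33.ASM
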