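import Pool.Agent.Lib_helper33.ASM.Defs2

/-!
# Deterministic surgeries

Everything here is deterministic.  `[Finite ι]`, `Gen x`.
-/

set_option autoImplicit false
set_option linter.unusedSectionVars false
set_option linter.unusedVariables false

namespace Pool.Agent.Lib_helper33.ASM

section k2

variable {ι : Type*} [Finite ι] {E : Type*} [MetricSpace E] {x : ι → E} {ω ω' : Cfg ι}

/-! ### K2a: insertion of one point -/

lemma k2_ins_self {z : ι} {b : Bool} : ins ω z b z = some b := by simp [ins]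

lemma k2_ins_ne {z i : ι} {b : Bool} (h : i ≠ z) : ins ω z b i = ω i := by simp [ins, h]

/-- a pair of matched points at distance `≤` a free site is at distance `<` -/
lemma k2_lt_of_le_of_gen (hx : Gen x) {y k z : ι} (hm : mt x ω y k) (hzy : z ≠ y)
    (hkz : k ≠ z) (hle : dist (x y) (x k) ≤ dist (x z) (x y)) :
    dist (x y) (x k) < dist (x z) (x y) := by
  rcases hle.lt_or_eq with h | h
  · exact h
  · rcases hx y k z y (mt_ok hm).1 hzy h with h1 | h1
    · exact absurd h1.1.symm hzy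
    · exact absurd h1.2 hkz

lemma mt_ins_blue (hx : Gen x) {t : ℝ} {z : ι} (h : FB x ω t z) : Same x (ins ω z false) ω t := by
  intro i j hij
  refine IsKer.agree_of_added (Set.Iio t) (isLowerSet_Iio t) (mt_isKer x ω)
    (mt_isKer x (ins ω z false)) ?_ ?_ i j hij
  · intro i j _ hok
    have hi : i ≠ z := fun e => hok.2.1 (by rw [e]; exact h.1)
    have hj : j ≠ z := fun e => hok.2.2.1 (by rw [e]; exact h.1)
    simpa [Ok, k2_ins_ne hi, k2_ins_ne hj] using hok
  · intro i j hd hok hnok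
    have key : ∀ j, dist (x z) (x j) < t → Ok (ins ω z false) z j →
        ∃ k, mt x ω j k ∧ dist (x j) (x k) < dist (x z) (x j) := by
      intro j hd hok
      have hjz : j ≠ z := hok.1.symm
      have hr : ω j = some true := by
        have := hok.2.2.2
        rw [k2_ins_self, k2_ins_ne hjz] at this
        simpa using this
      obtain ⟨k, hk, hk2⟩ := h.2 j hr hd
      have hkz : k ≠ z := fun e => (mt_ok hk).2.2.1 (by rw [e]; exact h.1)
      exact ⟨k, hk, k2_lt_of_le_of_gen hx hk hok.1 hkz hk2⟩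
    by_cases hi : i = z
    · subst hi
      obtain ⟨k, hk, hk2⟩ := key j hd hok
      exact ⟨k, Or.inr ⟨hk, hk2⟩⟩
    · by_cases hj : j = z
      · subst hj
        have hd' : dist (x j) (x i) < t := by rw [dist_comm]; exact hd
        obtain ⟨k, hk, hk2⟩ := key i hd' hok.symm
        exact ⟨k, Or.inl ⟨hk, by rwa [dist_comm (x j) (x i)] at hk2⟩⟩
      · exact absurd (by simpa [Ok, k2_ins_ne hi, k2_ins_ne hj] using hok) hnok

lemma mt_ins_red (hx : Gen x) {t : ℝ} {z : ι} (h : FR x ω t z) : Same x (ins ω z true) ω t := by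
  intro i j hij
  refine IsKer.agree_of_added (Set.Iio t) (isLowerSet_Iio t) (mt_isKer x ω)
    (mt_isKer x (ins ω z true)) ?_ ?_ i j hij
  · intro i j _ hok
    have hi : i ≠ z := fun e => hok.2.1 (by rw [e]; exact h.1)
    have hj : j ≠ z := fun e => hok.2.2.1 (by rw [e]; exact h.1)
    simpa [Ok, k2_ins_ne hi, k2_ins_ne hj] using hok
  · intro i j hd hok hnok
    have key : ∀ j, dist (x z) (x j) < t → Ok (ins ω z true) z j →
        ∃ k, mt x ω j k ∧ dist (x j) (x k) < dist (x z) (x j) := by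
      intro j hd hok
      have hjz : j ≠ z := hok.1.symm
      have hr : ω j ≠ none := by
        have := hok.2.2.1
        rwa [k2_ins_ne hjz] at this
      obtain ⟨k, hk, hk2⟩ := h.2 j hr hd
      have hkz : k ≠ z := fun e => (mt_ok hk).2.2.1 (by rw [e]; exact h.1)
      exact ⟨k, hk, k2_lt_of_le_of_gen hx hk hok.1 hkz hk2⟩
    by_cases hi : i = z
    · subst hi
      obtain ⟨k, hk, hk2⟩ := key j hd hok
      exact ⟨k, Or.inr ⟨hk, hk2⟩⟩
    · by_cases hj : j = z
      · subst hj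
        have hd' : dist (x j) (x i) < t := by rw [dist_comm]; exact hd
        obtain ⟨k, hk, hk2⟩ := key i hd' hok.symm
        exact ⟨k, Or.inl ⟨hk, by rwa [dist_comm (x j) (x i)] at hk2⟩⟩
      · exact absurd (by simpa [Ok, k2_ins_ne hi, k2_ins_ne hj] using hok) hnok

/-- erasing the inserted point gives the configuration back -/
lemma k2_er_ins {z : ι} {b : Bool} (h : ω z = none) : er (ins ω z b) {z} = ω := by
  funext i
  by_cases hi : i = z
  · subst hi
    rw [er_apply_mem (by simp), h]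
  · rw [er_apply_not_mem (by simpa using hi), k2_ins_ne hi]

/-- if the inserted point is unmatched at time `t`, nothing changes before time `t` -/
lemma k2_same_of_un_ins {t : ℝ} {z : ι} {b : Bool} (h : ω z = none)
    (hu : Un x (ins ω z b) t z) : Same x ω (ins ω z b) t := by
  intro i j hij
  have := mt_er (x := x) (ω := ins ω z b) (Set.Iio t) (isLowerSet_Iio t) {z} (by
    intro s hs k hk hd
    rw [Set.mem_singleton_iff] at hs
    subst hs
    exact hu.2 ⟨k, hk, hd⟩) i j hij
  rwa [k2_er_ins h] at this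

/-- deterministic Mecke formula, red -/
lemma un_ins_red (hx : Gen x) {t : ℝ} {z : ι} (h : ω z = none) :
    Un x (ins ω z true) t z ↔ FR x ω t z := by
  constructor
  · intro hu
    refine ⟨h, fun y hy hd => ?_⟩
    have hyz : z ≠ y := fun e => hy (by rw [← e]; exact h)
    have hok : Ok (ins ω z true) z y :=
      ⟨hyz, by rw [k2_ins_self]; simp, by rwa [k2_ins_ne hyz.symm], Or.inl k2_ins_self⟩
    have hn : ¬ mt x (ins ω z true) z y := fun hm => hu.2 ⟨y, hm, hd⟩
    obtain ⟨k, hk | hk⟩ := mt_stable hok hn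
    · exact absurd ⟨k, hk.1, hk.2.trans hd⟩ hu.2
    · exact ⟨k, (k2_same_of_un_ins h hu y k (hk.2.trans hd)).2 hk.1, hk.2.le⟩
  · intro hf
    refine ⟨by rw [k2_ins_self]; simp, ?_⟩
    rintro ⟨j, hj, hjd⟩
    exact mt_occ ((mt_ins_red hx hf z j hjd).1 hj) h

/-- deterministic Mecke formula, blue -/
lemma un_ins_blue (hx : Gen x) {t : ℝ} {z : ι} (h : ω z = none) :
    Un x (ins ω z false) t z ↔ FB x ω t z := by
  constructor
  · intro hu
    refine ⟨h, fun y hy hd => ?_⟩
    have hyz : z ≠ y := fun e => by rw [← e, h] at hy; simp at hy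
    have hok : Ok (ins ω z false) z y :=
      ⟨hyz, by rw [k2_ins_self]; simp, by rw [k2_ins_ne hyz.symm, hy]; simp,
        Or.inr (by rw [k2_ins_ne hyz.symm, hy])⟩
    have hn : ¬ mt x (ins ω z false) z y := fun hm => hu.2 ⟨y, hm, hd⟩
    obtain ⟨k, hk | hk⟩ := mt_stable hok hn
    · exact absurd ⟨k, hk.1, hk.2.trans hd⟩ hu.2
    · exact ⟨k, (k2_same_of_un_ins h hu y k (hk.2.trans hd)).2 hk.1, hk.2.le⟩
  · intro hf
    refine ⟨by rw [k2_ins_self]; simp, ?_⟩
    rintro ⟨j, hj, hjd⟩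
    exact mt_occ ((mt_ins_blue hx hf z j hjd).1 hj) h

/-- the surgery of module UB -/
lemma ub_step (hx : Gen x) {t : ℝ} {o z : ι} (ho : FR x ω t o) (hz : FB x ω t z) (hne : z ≠ o)
    (hd : dist (x o) (x z) < t) :
    FB x (ins ω z false) t o ∧ ¬ FR x (ins ω z false) t o ∧
    ∀ z', ω z' ≠ none → dist (x o) (x z') < t →
      ∃ k, mt x (ins ω z false) z' k ∧ dist (x z') (x k) ≤ dist (x o) (x z') := by
  have hs := mt_ins_blue hx hz
  have key : ∀ z', ω z' ≠ none → dist (x o) (x z') < t →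
      ∃ k, mt x (ins ω z false) z' k ∧ dist (x z') (x k) ≤ dist (x o) (x z') := by
    intro z' hz' hd'
    obtain ⟨k, hk, hk2⟩ := ho.2 z' hz' hd'
    exact ⟨k, (hs z' k (hk2.trans_lt hd')).2 hk, hk2⟩
  refine ⟨⟨by rw [k2_ins_ne hne.symm]; exact ho.1, fun y hy hdy => ?_⟩, fun hfr => ?_, key⟩
  · have hyz : y ≠ z := fun e => by rw [e, k2_ins_self] at hy; simp at hy
    rw [k2_ins_ne hyz] at hy
    exact key y (by rw [hy]; simp) hdy
  · obtain ⟨k, hk, hk2⟩ := hfr.2 z (by rw [k2_ins_self]; simp) hd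
    exact mt_occ ((hs z k (hk2.trans_lt hd)).1 hk) hz.1

/-! ### K2b: invariance -/

lemma Same.symm {r : ℝ} (h : Same x ω ω' r) : Same x ω' ω r := fun i j hij => (h i j hij).symm

lemma bf_congr {r : ℝ} (h : Same x ω ω' r) (z : ι) : Bf x ω r z ↔ Bf x ω' r z := by
  constructor
  · rintro ⟨j, hj, hd⟩
    exact ⟨j, (h z j hd).1 hj, hd⟩
  · rintro ⟨j, hj, hd⟩
    exact ⟨j, (h z j hd).2 hj, hd⟩

lemma fm_congr {r : ℝ} (h : Same x ω ω' r) (hc : ∀ y, Bf x ω r y → ω y = ω' y) (z : ι) :
    FM x ω r z ↔ FM x ω' r z := by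
  constructor
  · rintro ⟨h1, h2⟩
    refine ⟨fun hb => h1 ((bf_congr h z).2 hb), fun y k hy hm hd => ?_⟩
    have hm' := (h y k hd).2 hm
    exact h2 y k (by rw [hc y ⟨k, hm', hd⟩]; exact hy) hm' hd
  · rintro ⟨h1, h2⟩
    refine ⟨fun hb => h1 ((bf_congr h z).1 hb), fun y k hy hm hd => ?_⟩
    exact h2 y k (by rw [← hc y ⟨k, hm, hd⟩]; exact hy) ((h y k hd).1 hm) hd

lemma fmr_congr {r : ℝ} (h : Same x ω ω' r) (z : ι) : FMR x ω r z ↔ FMR x ω' r z := by
  constructor
  · rintro ⟨h1, h2⟩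
    exact ⟨fun hb => h1 ((bf_congr h z).2 hb), fun y k hm hd => h2 y k ((h y k hd).2 hm) hd⟩
  · rintro ⟨h1, h2⟩
    exact ⟨fun hb => h1 ((bf_congr h z).1 hb), fun y k hm hd => h2 y k ((h y k hd).1 hm) hd⟩

/-- the common part of the next two lemmas -/
lemma Un.k2_free (hx : Gen x) {r : ℝ} {z : ι} (h : Un x ω r z) {y k : ι}
    (hok : y ≠ z → Ok ω z y) (hm : mt x ω y k) (hk : dist (x y) (x k) < r) :
    dist (x y) (x k) ≤ dist (x z) (x y) := by
  by_cases hyz : y = z
  · subst hyz
    exact absurd ⟨k, hm, hk⟩ h.2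
  · by_cases hzy : mt x ω z y
    · have : k = z := mt_unique hx hm (mt_symm hzy)
      subst this
      exact absurd ⟨y, hzy, by rwa [dist_comm]⟩ h.2
    · obtain ⟨k', hk' | hk'⟩ := mt_stable (hok hyz) hzy
      · have hge : r ≤ dist (x z) (x k') := by
          by_contra hlt
          exact h.2 ⟨k', hk'.1, not_le.1 hlt⟩
        linarith [hk'.2]
      · rw [mt_unique hx hm hk'.1]
        exact hk'.2.le

/-- points unmatched at time `r` sit at free sites -/
lemma Un.fm (hx : Gen x) {r : ℝ} {z : ι} (h : Un x ω r z) : FM x ω r z :=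
  ⟨h.2, fun y k hy hm hk => h.k2_free hx (fun hyz => ⟨fun e => hyz e.symm, h.1, mt_occ hm, Or.inr hy⟩)
    hm hk⟩

lemma Un.fmr (hx : Gen x) {r : ℝ} {z : ι} (h : Un x ω r z) (hr : ω z = some true) :
    FMR x ω r z :=
  ⟨h.2, fun y k hm hk => h.k2_free hx (fun hyz => ⟨fun e => hyz e.symm, h.1, mt_occ hm, Or.inl hr⟩)
    hm hk⟩

/-- erasing sites which are not matched before `r` -/
lemma k2_same_er {r : ℝ} {S : Set ι} (hS : ∀ s ∈ S, ¬ Bf x ω r s) : Same x (er ω S) ω r := by
  intro i j hij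
  exact mt_er (Set.Iio r) (isLowerSet_Iio r) S (fun s hs k hk hd => hS s hs ⟨k, hk, hd⟩) i j hij

/-- erasing points unmatched at time `r` -/
lemma same_er {r : ℝ} {S : Set ι} (hS : ∀ s ∈ S, Un x ω r s) : Same x (er ω S) ω r :=
  k2_same_er fun s hs => (hS s hs).2

lemma k2_rcb_mem {R : Set ι} {i : ι} (h : i ∈ R) : rcb ω R i = some false := by simp [rcb, h]

lemma k2_rcb_not_mem {R : Set ι} {i : ι} (h : i ∉ R) : rcb ω R i = ω i := by simp [rcb, h]

/-- recolouring red points unmatched at time `r` to blue -/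
lemma same_rcb {r : ℝ} {R : Set ι} (hR : ∀ s ∈ R, ω s = some true ∧ Un x ω r s) :
    Same x (rcb ω R) ω r := by
  intro i j hij
  refine IsKer.agree_of_removed (Set.Iio r) (isLowerSet_Iio r) (mt_isKer x ω)
    (mt_isKer x (rcb ω R)) ?_ ?_ i j hij
  · intro i j _ hok
    by_cases hi : i ∈ R
    · by_cases hj : j ∈ R
      · exact ⟨hok.1, by rw [(hR i hi).1]; simp, by rw [(hR j hj).1]; simp, Or.inl (hR i hi).1⟩
      · exact ⟨hok.1, by rw [(hR i hi).1]; simp, by rw [← k2_rcb_not_mem (ω := ω) hj]; exact hok.2.2.1,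
          Or.inl (hR i hi).1⟩
    · by_cases hj : j ∈ R
      · exact ⟨hok.1, by rw [← k2_rcb_not_mem (ω := ω) hi]; exact hok.2.1, by rw [(hR j hj).1]; simp,
          Or.inr (hR j hj).1⟩
      · simpa [Ok, k2_rcb_not_mem hi, k2_rcb_not_mem hj] using hok
  · intro i j hd hm
    have hi : i ∉ R := fun h => (hR i h).2.2 ⟨j, hm, hd⟩
    have hj : j ∉ R := fun h => (hR j h).2.2 ⟨i, mt_symm hm, by rw [dist_comm]; exact hd⟩
    simpa [Ok, k2_rcb_not_mem hi, k2_rcb_not_mem hj] using mt_ok hm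

/-- changing the free sites of `S` between empty and blue, when there is no unmatched red point
near -/
lemma same_change_blue (hx : Gen x) {r : ℝ} {S : Set ι} (h : ∀ i ∉ S, ω' i = ω i)
    (h1 : ∀ i ∈ S, ω i = none ∨ ω i = some false) (h2 : ∀ i ∈ S, ω' i = none ∨ ω' i = some false)
    (h3 : ∀ i ∈ S, FM x ω r i)
    (h4 : ∀ i ∈ S, ∀ y, ω y = some true → dist (x i) (x y) < r → Bf x ω r y) :
    Same x ω' ω r := by
  have hs : Same x (er ω S) ω r := k2_same_er fun s hs => (h3 s hs).1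
  have hs2 : Same x ω' (er ω S) r := by
    intro i j hij
    refine IsKer.agree_of_added (Set.Iio r) (isLowerSet_Iio r) (mt_isKer x (er ω S))
      (mt_isKer x ω') ?_ ?_ i j hij
    · intro i j _ hok
      obtain ⟨hok, hi, hj⟩ := ok_er.1 hok
      simpa [Ok, h i hi, h j hj] using hok
    · intro i j hd hok hnok
      have key : ∀ i j, i ∈ S → dist (x i) (x j) < r → Ok ω' i j →
          ∃ k, mt x (er ω S) j k ∧ dist (x j) (x k) < dist (x i) (x j) := by
        intro i j hi hd hok
        have hib : ω' i = some false := (h2 i hi).resolve_left hok.2.1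
        have hjr : ω' j = some true := by
          rcases hok.2.2.2 with h5 | h5
          · rw [hib] at h5; simp at h5
          · exact h5
        have hjS : j ∉ S := by
          intro hj
          rcases h2 j hj with h5 | h5 <;> rw [hjr] at h5 <;> simp at h5
        rw [h j hjS] at hjr
        obtain ⟨k, hk, hk2⟩ := h4 i hi j hjr hd
        have hle := (h3 i hi).2 j k hjr hk hk2
        have hki : k ≠ i := by
          rintro rfl
          exact (h3 k hi).1 ⟨j, mt_symm hk, hd⟩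
        exact ⟨k, (hs j k hk2).2 hk, k2_lt_of_le_of_gen hx hk hok.1 hki hle⟩
      by_cases hi : i ∈ S
      · obtain ⟨k, hk, hk2⟩ := key i j hi hd hok
        exact ⟨k, Or.inr ⟨hk, hk2⟩⟩
      · by_cases hj : j ∈ S
        · obtain ⟨k, hk, hk2⟩ := key j i hj (by rw [dist_comm]; exact hd) hok.symm
          exact ⟨k, Or.inl ⟨hk, by rwa [dist_comm (x j) (x i)] at hk2⟩⟩
        · exact absurd (ok_er.2 ⟨by simpa [Ok, h i hi, h j hj] using hok, hi, hj⟩) hnok
  intro i j hij
  exact (hs2 i j hij).trans (hs i j hij)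

end k2

end Pool.Agent.Lib_helper33.ASM
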