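import Pool.Agent.Lib_helper33.ASM.X2
import Pool.Agent.Lib_helper33.ASM.K2

/-!
# Geometry, part 2 (proofs: helper48)
-/

set_option autoImplicit false
set_option linter.unusedSectionVars false
set_option linter.unusedVariables false

open scoped BigOperators

namespace Pool.Agent.Lib_helper33.ASM

variable {d : ℕ}

lemma geo2_abs_apply_le (y c : Sp d) (i : Fin d) : |y i - c i| ≤ dist y c := by
  rw [dist_eq_norm]
  have h := PiLp.norm_apply_le (y - c) i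
  simpa [Real.norm_eq_abs] using h

lemma geo2_norm_sq (y : Sp d) : ‖y‖ ^ 2 = ∑ i, |y i| ^ 2 := by
  rw [EuclideanSpace.norm_sq_eq]
  simp [Real.norm_eq_abs]

lemma mem_cubes {c y : Sp d} {R : ℝ} (h : dist y c ≤ R) : cb y ∈ cubes c R := by
  unfold cubes
  rw [Fintype.mem_piFinset]
  intro i
  have h1 := abs_le.1 ((geo2_abs_apply_le y c i).trans h)
  rw [Finset.mem_Icc]
  unfold cb
  exact ⟨Int.floor_le_floor (by linarith [h1.1]), Int.floor_le_floor (by linarith [h1.2])⟩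

lemma card_cubes (c : Sp d) {R : ℝ} (hR : 0 ≤ R) :
    ((cubes c R).card : ℝ) ≤ (2 * R + 2) ^ d := by
  unfold cubes
  rw [Fintype.card_piFinset]
  push_cast
  have h1 : ∀ i : Fin d, ((Finset.Icc ⌊c i - R⌋ ⌊c i + R⌋).card : ℝ) ≤ 2 * R + 2 := by
    intro i
    rw [Int.card_Icc]
    have h2 := Int.floor_le (c i + R)
    have h3 := Int.lt_floor_add_one (c i - R)
    have h4 : (⌊c i - R⌋ : ℤ) ≤ ⌊c i + R⌋ := Int.floor_le_floor (by linarith)
    have h5 : (((⌊c i + R⌋ + 1 - ⌊c i - R⌋).toNat : ℤ) : ℝ) = ⌊c i + R⌋ + 1 - ⌊c i - R⌋ := by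
      rw [Int.toNat_of_nonneg (by omega)]
      push_cast
      ring
    have h6 : (((⌊c i + R⌋ + 1 - ⌊c i - R⌋).toNat : ℕ) : ℝ) = ⌊c i + R⌋ + 1 - ⌊c i - R⌋ := by
      rw [← h5]
      norm_cast
    rw [h6]
    linarith
  calc ∏ i : Fin d, ((Finset.Icc ⌊c i - R⌋ ⌊c i + R⌋).card : ℝ)
      ≤ ∏ _i : Fin d, (2 * R + 2) := Finset.prod_le_prod (fun i _ => by positivity) fun i _ => h1 i
    _ = (2 * R + 2) ^ d := by simp

lemma abs_le_of_mem_cubes {c : Sp d} {R B : ℝ} {j : Fin d → ℤ} (h : j ∈ cubes c R)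
    (hB : ‖c‖ + R + 1 ≤ B) (k : Fin d) : |(j k : ℝ)| ≤ B := by
  unfold cubes at h
  rw [Fintype.mem_piFinset] at h
  have h1 := Finset.mem_Icc.1 (h k)
  have h2 : ((⌊c k - R⌋ : ℤ) : ℝ) ≤ j k := by exact_mod_cast h1.1
  have h3 : ((j k : ℤ) : ℝ) ≤ (⌊c k + R⌋ : ℤ) := by exact_mod_cast h1.2
  have h4 := Int.lt_floor_add_one (c k - R)
  have h5 := Int.floor_le (c k + R)
  have h6 : |c k| ≤ ‖c‖ := by
    have := PiLp.norm_apply_le c k
    simpa [Real.norm_eq_abs] using this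
  have h7 := abs_le.1 h6
  rw [abs_le]
  constructor <;> linarith

/-- cubes contained in a ball -/
lemma exists_inner_cubes (hd : 0 < d) (c : Sp d) {R : ℝ} (hR : 4 * d ≤ R) :
    ∃ J : Finset (Fin d → ℤ), (∀ j ∈ J, ∀ y, cb y = j → dist y c ≤ R) ∧
      (R / d) ^ d ≤ (J.card : ℝ) ∧ J ⊆ cubes c R := by
  have hd' : (1 : ℝ) ≤ d := by exact_mod_cast hd
  have hd0 : (0 : ℝ) < d := by linarith
  have hR0 : 0 ≤ R := by nlinarith
  have hRd : 4 ≤ R / d := by rwa [le_div_iff₀ hd0]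
  have hRd2 : R / d ≤ R := div_le_self hR0 hd'
  refine ⟨Fintype.piFinset fun i => Finset.Icc ⌈c i - R / d⌉ ⌊c i + R / d - 1⌋, ?_, ?_, ?_⟩
  · intro j hj y hy
    rw [Fintype.mem_piFinset] at hj
    have h1 : ∀ i, |(y - c) i| ≤ R / d := by
      intro i
      have h2 := Finset.mem_Icc.1 (hj i)
      have h3 : c i - R / d ≤ j i := Int.ceil_le.1 h2.1
      have h4 : ((j i : ℤ) : ℝ) ≤ c i + R / d - 1 := Int.le_floor.1 h2.2
      have h5 : ⌊y i⌋ = j i := by rw [← hy]; rfl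
      have h6 : ((j i : ℤ) : ℝ) ≤ y i := by rw [← h5]; exact Int.floor_le _
      have h7 : y i < j i + 1 := by rw [← h5]; exact Int.lt_floor_add_one _
      have h8 : (y - c) i = y i - c i := rfl
      rw [h8, abs_le]
      constructor <;> linarith
    rw [dist_eq_norm]
    have h2 : ‖y - c‖ ^ 2 ≤ R ^ 2 := by
      rw [geo2_norm_sq]
      calc ∑ i, |(y - c) i| ^ 2 ≤ ∑ _i : Fin d, (R / d) ^ 2 :=
            Finset.sum_le_sum fun i _ => pow_le_pow_left₀ (abs_nonneg _) (h1 i) 2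
        _ = R * (R / d) := by
            rw [Finset.sum_const, Finset.card_univ, Fintype.card_fin, nsmul_eq_mul]
            field_simp
        _ ≤ R * R := mul_le_mul_of_nonneg_left hRd2 hR0
        _ = R ^ 2 := by ring
    exact (pow_le_pow_iff_left₀ (norm_nonneg _) hR0 two_ne_zero).1 h2
  · rw [Fintype.card_piFinset]
    push_cast
    have h1 : ∀ i : Fin d, R / d ≤ ((Finset.Icc ⌈c i - R / d⌉ ⌊c i + R / d - 1⌋).card : ℝ) := by
      intro i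
      rw [Int.card_Icc]
      have h2 := Int.ceil_lt_add_one (c i - R / d)
      have h3 := Int.lt_floor_add_one (c i + R / d - 1)
      have h4 : ((⌊c i + R / d - 1⌋ + 1 - ⌈c i - R / d⌉ : ℤ) : ℝ) ≤
          (((⌊c i + R / d - 1⌋ + 1 - ⌈c i - R / d⌉).toNat : ℤ) : ℝ) := by
        exact_mod_cast Int.self_le_toNat _
      push_cast at h4
      linarith
    calc (R / d) ^ d = ∏ _i : Fin d, (R / d) := by
          rw [Finset.prod_const, Finset.card_univ, Fintype.card_fin]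
      _ ≤ ∏ i : Fin d, ((Finset.Icc ⌈c i - R / d⌉ ⌊c i + R / d - 1⌋).card : ℝ) :=
          Finset.prod_le_prod (fun _ _ => by positivity) fun i _ => h1 i
  · intro j hj
    rw [Fintype.mem_piFinset] at hj
    unfold cubes
    rw [Fintype.mem_piFinset]
    intro i
    have h2 := Finset.mem_Icc.1 (hj i)
    rw [Finset.mem_Icc]
    refine ⟨?_, h2.2.trans (Int.floor_le_floor (by linarith))⟩
    refine le_trans ?_ h2.1
    exact (Int.floor_le_floor (by linarith)).trans (Int.floor_le_ceil _)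

lemma norm_le_of_cb {y : Sp d} {j : Fin d → ℤ} (h : cb y = j) {B : ℝ}
    (hB : ∀ k, |(j k : ℝ)| ≤ B) : ‖y‖ ≤ d * (B + 1) := by
  have h1 : ∀ i, |y i| ≤ B + 1 := by
    intro i
    have h2 := abs_le.1 (hB i)
    have h5 : ⌊y i⌋ = j i := by rw [← h]; rfl
    have h6 : ((j i : ℤ) : ℝ) ≤ y i := by rw [← h5]; exact Int.floor_le _
    have h7 : y i < j i + 1 := by rw [← h5]; exact Int.lt_floor_add_one _
    rw [abs_le]
    constructor <;> linarith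
  rcases Nat.eq_zero_or_pos d with rfl | hd
  · have : y = 0 := by ext i; exact i.elim0
    rw [this]
    simp
  have hd' : (1 : ℝ) ≤ d := by exact_mod_cast hd
  have hB0 : 0 ≤ B + 1 := (abs_nonneg _).trans (h1 ⟨0, hd⟩)
  have h2 : ‖y‖ ^ 2 ≤ (d * (B + 1)) ^ 2 := by
    rw [geo2_norm_sq]
    calc ∑ i, |y i| ^ 2 ≤ ∑ _i : Fin d, (B + 1) ^ 2 :=
          Finset.sum_le_sum fun i _ => pow_le_pow_left₀ (abs_nonneg _) (h1 i) 2
      _ = 1 * (d * (B + 1) ^ 2) := by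
          rw [Finset.sum_const, Finset.card_univ, Fintype.card_fin, nsmul_eq_mul, one_mul]
      _ ≤ d * (d * (B + 1) ^ 2) := mul_le_mul_of_nonneg_right hd' (by positivity)
      _ = (d * (B + 1)) ^ 2 := by ring
  exact (pow_le_pow_iff_left₀ (norm_nonneg _) (by positivity) two_ne_zero).1 h2

lemma cs_mono (𝓜 : Model d) (ha : 0 ≤ 𝓜.a) (j : Fin d → ℤ) {f g : 𝓜.ι → ℝ} (h : ∀ s, f s ≤ g s) :
    cs 𝓜 j f ≤ cs 𝓜 j g := by
  unfold cs
  refine mul_le_mul_of_nonneg_left (Finset.sum_le_sum fun s _ => ?_) ha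
  split_ifs
  · exact h s
  · exact le_rfl

lemma geo2_sum_cs (𝓜 : Model d) (J : Finset (Fin d → ℤ)) (f : 𝓜.ι → ℝ) :
    ∑ j ∈ J, cs 𝓜 j f = 𝓜.a * ∑ s, if cb (𝓜.x s) ∈ J then f s else 0 := by
  classical
  unfold cs
  rw [← Finset.mul_sum, Finset.sum_comm]
  congr 1
  refine Finset.sum_congr rfl fun s _ => ?_
  by_cases h1 : cb (𝓜.x s) ∈ J
  · rw [if_pos h1, Finset.sum_eq_single (cb (𝓜.x s)), if_pos rfl]
    · intro j _ hj
      exact if_neg fun h => hj h.symm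
    · intro h
      exact absurd h1 h
  · rw [if_neg h1]
    refine Finset.sum_eq_zero fun j hj => if_neg fun h => h1 ?_
    rw [h]
    exact hj

lemma bs_le_sum_cs (𝓜 : Model d) (ha : 0 ≤ 𝓜.a) (c : Sp d) (R : ℝ) {f : 𝓜.ι → ℝ}
    (h : ∀ s, 0 ≤ f s) : bs 𝓜 c R f ≤ ∑ j ∈ cubes c R, cs 𝓜 j f := by
  classical
  rw [geo2_sum_cs]
  unfold bs
  refine mul_le_mul_of_nonneg_left (Finset.sum_le_sum fun s _ => ?_) ha
  by_cases h1 : dist (𝓜.x s) c ≤ R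
  · rw [if_pos h1, if_pos (mem_cubes h1)]
  · rw [if_neg h1]
    split_ifs
    · exact h s
    · exact le_rfl

lemma sum_cs_le_bs (𝓜 : Model d) (ha : 0 ≤ 𝓜.a) (c : Sp d) (R : ℝ) {f : 𝓜.ι → ℝ}
    (h : ∀ s, 0 ≤ f s) (J : Finset (Fin d → ℤ)) (hJ : ∀ j ∈ J, ∀ y, cb y = j → dist y c ≤ R) :
    ∑ j ∈ J, cs 𝓜 j f ≤ bs 𝓜 c R f := by
  classical
  rw [geo2_sum_cs]
  unfold bs
  refine mul_le_mul_of_nonneg_left (Finset.sum_le_sum fun s _ => ?_) ha
  by_cases h1 : cb (𝓜.x s) ∈ J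
  · rw [if_pos h1, if_pos (hJ _ h1 _ rfl)]
  · rw [if_neg h1]
    split_ifs
    · exact h s
    · exact le_rfl

lemma bs_one (𝓜 : Model d) (c : Sp d) (R : ℝ) (A : 𝓜.ι → Prop) :
    bs 𝓜 c R (fun s => ind (A s)) = 𝓜.a * cnt fun s => dist (𝓜.x s) c ≤ R ∧ A s := by
  unfold bs
  rw [cnt_eq_sum]
  congr 1
  refine Finset.sum_congr rfl fun s _ => ?_
  rw [ind_and]
  by_cases h1 : dist (𝓜.x s) c ≤ R
  · rw [if_pos h1, ind_true h1, one_mul]
  · rw [if_neg h1, ind_false h1, zero_mul]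

lemma cs_le_one {p : ℝ} {I n₀ : ℕ} {a₀ : ℝ} {𝓜 : Model d} (h : Good p I n₀ a₀ 𝓜)
    (j : Fin d → ℤ) {f : 𝓜.ι → ℝ} (hf : ∀ s, f s ≤ 1) : cs 𝓜 j f ≤ 1 := by
  refine le_trans ?_ (h.dens_hi j)
  unfold cs
  rw [cnt_eq_sum]
  refine mul_le_mul_of_nonneg_left (Finset.sum_le_sum fun s _ => ?_) h.a_pos.le
  by_cases h1 : cb (𝓜.x s) = j
  · rw [if_pos h1, ind_true h1]
    exact hf s
  · rw [if_neg h1]
    exact ind_nonneg _

/-- number of sites in a ball, upper bound -/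
lemma vol_le {p : ℝ} {I n₀ : ℕ} {a₀ : ℝ} {𝓜 : Model d} (h : Good p I n₀ a₀ 𝓜) (c : Sp d) {R : ℝ}
    (hR : 0 ≤ R) : 𝓜.a * (cnt fun s => dist (𝓜.x s) c ≤ R) ≤ (2 * R + 2) ^ d := by
  have h1 : 𝓜.a * (cnt fun s => dist (𝓜.x s) c ≤ R) = bs 𝓜 c R (fun _ => 1) := by
    unfold bs
    rw [cnt_eq_sum]
    rfl
  rw [h1]
  calc bs 𝓜 c R (fun _ => 1) ≤ ∑ j ∈ cubes c R, cs 𝓜 j (fun _ => 1) :=
        bs_le_sum_cs 𝓜 h.a_pos.le c R fun _ => zero_le_one
    _ ≤ ∑ _j ∈ cubes c R, (1 : ℝ) := Finset.sum_le_sum fun j _ => cs_le_one h j fun _ => le_rfl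
    _ = (cubes c R).card := by simp
    _ ≤ (2 * R + 2) ^ d := card_cubes c hR

/-- ER and EB by Mecke's formula: `ER = p / (1 - a) * (cube sum of P(FR))` -/
lemma ER_eq {p : ℝ} (𝓜 : Model d) (h : Par 𝓜.a p) (j : Fin d → ℤ) (t : ℝ) :
    ER p 𝓜 j t = p / (1 - 𝓜.a) * cs 𝓜 j (fun s => pr 𝓜.a p fun ω => FR 𝓜.x ω t s) := by
  classical
  unfold ER cs
  rw [ex_cnt, Finset.mul_sum, Finset.mul_sum]
  refine Finset.sum_congr rfl fun s _ => ?_
  by_cases hs : cb (𝓜.x s) = j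
  · rw [if_pos hs]
    have h1 : pr 𝓜.a p (fun ω => cb (𝓜.x s) = j ∧ ω s = some true ∧ Un 𝓜.x ω t s) =
        ex 𝓜.a p (fun ω => ind (ω s = some true) * ind (Un 𝓜.x ω t s)) := by
      unfold pr
      congr 1
      funext ω
      rw [← ind_and]
      congr 1
      simp only [hs, true_and]
    have h2 : pr 𝓜.a p (fun ω => FR 𝓜.x ω t s) =
        ex 𝓜.a p (fun ω => ind (ω s = none) * ind (Un 𝓜.x (ins ω s true) t s)) := by
      unfold pr
      congr 1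
      funext ω
      by_cases hω : ω s = none
      · rw [ind_true hω, one_mul]
        congr 1
        exact propext (un_ins_red 𝓜.gen hω).symm
      · rw [ind_false hω, zero_mul, ind_false fun hf => hω hf.1]
    show _ = p / (1 - 𝓜.a) * (𝓜.a * pr 𝓜.a p fun ω => FR 𝓜.x ω t s)
    rw [h1, h2, mecke h s true]
    simp only [if_true]
    ring
  · rw [if_neg hs]
    have h1 : (fun ω : Cfg 𝓜.ι => ind (cb (𝓜.x s) = j ∧ ω s = some true ∧ Un 𝓜.x ω t s)) =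
        fun _ => 0 := by
      funext ω
      exact ind_false fun hc => hs hc.1
    unfold pr
    rw [h1, ex_const]
    ring

lemma EB_eq {p : ℝ} (𝓜 : Model d) (h : Par 𝓜.a p) (j : Fin d → ℤ) (t : ℝ) :
    EB p 𝓜 j t = (1 - p) / (1 - 𝓜.a) * cs 𝓜 j (fun s => pr 𝓜.a p fun ω => FB 𝓜.x ω t s) := by
  classical
  unfold EB cs
  rw [ex_cnt, Finset.mul_sum, Finset.mul_sum]
  refine Finset.sum_congr rfl fun s _ => ?_
  by_cases hs : cb (𝓜.x s) = j
  · rw [if_pos hs]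
    have h1 : pr 𝓜.a p (fun ω => cb (𝓜.x s) = j ∧ ω s = some false ∧ Un 𝓜.x ω t s) =
        ex 𝓜.a p (fun ω => ind (ω s = some false) * ind (Un 𝓜.x ω t s)) := by
      unfold pr
      congr 1
      funext ω
      rw [← ind_and]
      congr 1
      simp only [hs, true_and]
    have h2 : pr 𝓜.a p (fun ω => FB 𝓜.x ω t s) =
        ex 𝓜.a p (fun ω => ind (ω s = none) * ind (Un 𝓜.x (ins ω s false) t s)) := by
      unfold pr
      congr 1
      funext ω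
      by_cases hω : ω s = none
      · rw [ind_true hω, one_mul]
        congr 1
        exact propext (un_ins_blue 𝓜.gen hω).symm
      · rw [ind_false hω, zero_mul, ind_false fun hf => hω hf.1]
    show _ = (1 - p) / (1 - 𝓜.a) * (𝓜.a * pr 𝓜.a p fun ω => FB 𝓜.x ω t s)
    rw [h1, h2, mecke h s false]
    simp only [Bool.false_eq_true, if_false]
    ring
  · rw [if_neg hs]
    have h1 : (fun ω : Cfg 𝓜.ι => ind (cb (𝓜.x s) = j ∧ ω s = some false ∧ Un 𝓜.x ω t s)) =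
        fun _ => 0 := by
      funext ω
      exact ind_false fun hc => hs hc.1
    unfold pr
    rw [h1, ex_const]
    ring

/-! ### the quantifier `Ev` -/

lemma Ev.mono {p : ℝ} {P Q : Model d → Prop} (h : Ev d p P) (hPQ : ∀ 𝓜, P 𝓜 → Q 𝓜) :
    Ev d p Q := by
  obtain ⟨I, n₀, a₀, ha, h1⟩ := h
  exact ⟨I, n₀, a₀, ha, fun 𝓜 h𝓜 => hPQ 𝓜 (h1 𝓜 h𝓜)⟩

lemma Good.mono {p : ℝ} {I n₀ I' n₀' : ℕ} {a₀ a₀' : ℝ} {𝓜 : Model d} (h : Good p I n₀ a₀ 𝓜)
    (hI : I' ≤ I) (hn : n₀' ≤ n₀) (ha : a₀ ≤ a₀') : Good p I' n₀' a₀' 𝓜 where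
  n_le := hn.trans h.n_le
  a_pos := h.a_pos
  a_le := h.a_le.trans ha
  a_half := h.a_half
  box := h.box
  dens_lo := h.dens_lo
  dens_hi := h.dens_hi
  shift i hi j j' hj hj' := h.shift i (hi.trans hI) j j'
    (fun k => (hj k).trans (by exact_mod_cast hn)) (fun k => (hj' k).trans (by exact_mod_cast hn))
  blue i hi j hj := h.blue i (hi.trans hI) j (fun k => (hj k).trans (by exact_mod_cast hn))

lemma Ev.and {p : ℝ} {P Q : Model d → Prop} (h : Ev d p P) (h' : Ev d p Q) :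
    Ev d p (fun 𝓜 => P 𝓜 ∧ Q 𝓜) := by
  obtain ⟨I, n₀, a₀, ha, h1⟩ := h
  obtain ⟨I', n₀', a₀', ha', h1'⟩ := h'
  refine ⟨max I I', max n₀ n₀', min a₀ a₀', lt_min ha ha', fun 𝓜 h𝓜 => ⟨h1 𝓜 ?_, h1' 𝓜 ?_⟩⟩
  · exact h𝓜.mono (le_max_left _ _) (le_max_left _ _) (min_le_left _ _)
  · exact h𝓜.mono (le_max_right _ _) (le_max_right _ _) (min_le_right _ _)

/-- the goodness hypotheses themselves, as large as we want -/
lemma Ev.good (p : ℝ) (I n₀ : ℕ) {a₀ : ℝ} (ha : 0 < a₀) : Ev d p (fun 𝓜 => Good p I n₀ a₀ 𝓜) :=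
  ⟨I, n₀, a₀, ha, fun _ h => h⟩

lemma Good.par {p : ℝ} (hp0 : 0 < p) (hp1 : p < 1) {I n₀ : ℕ} {a₀ : ℝ} {𝓜 : Model d}
    (h : Good p I n₀ a₀ 𝓜) : Par 𝓜.a p := ⟨h.a_pos, h.a_half, hp0, hp1⟩

end Pool.Agent.Lib_helper33.ASM
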