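import Pool.Agent.Lib_helper33.ASM.Defs2
import Pool.Agent.Lib_helper52.ASM.K3pair

/-!
# Deterministic surgeries, part 2 (interface, proofs by the owner)
-/

set_option autoImplicit false
set_option linter.unusedSectionVars false
set_option linter.unusedVariables false

namespace Pool.Agent.Lib_helper33.ASM

section k3

variable {ι : Type*} [Finite ι] {E : Type*} [MetricSpace E] {x : ι → E} {ω ω' : Cfg ι}

/-! ### K3: insertion of a pair, parity, packing of red points -/

/-- insertion of a pair of points that will be matched to each other -/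
lemma mt_ins_pair (hx : Gen x) {z z' : ι} (hz : ω z = none) (hz' : ω z' = none) (hne : z ≠ z')
    {b b' : Bool} (hb : b = true ∨ b' = true)
    (h : ∀ y, ω y ≠ none → (b = true ∨ ω y = some true) → dist (x z) (x y) < dist (x z) (x z') →
      ∃ k, mt x ω y k ∧ dist (x y) (x k) ≤ dist (x z) (x y))
    (h' : ∀ y, ω y ≠ none → (b' = true ∨ ω y = some true) →
      dist (x z') (x y) < dist (x z) (x z') →
      ∃ k, mt x ω y k ∧ dist (x y) (x k) ≤ dist (x z') (x y)) (i j : ι) :
    mt x (ins (ins ω z b) z' b') i j ↔ mt x ω i j ∨ (i = z ∧ j = z') ∨ (i = z' ∧ j = z) :=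
  K3p.mt_ins_pair hx hz hz' hne hb h h' i j

/-- parity -/
lemma even_of_closed (hx : Gen x) (F : Finset ι) {r : ℝ}
    (hF : ∀ i ∈ F, ω i ≠ none → ∃ j ∈ F, mt x ω i j ∧ dist (x i) (x j) < r) [DecidablePred fun i => ω i ≠ none] :
    Even (F.filter fun i => ω i ≠ none).card := by
  classical
  have hex : ∀ i ∈ F.filter (fun i => ω i ≠ none), ∃ j, j ∈ F.filter (fun i => ω i ≠ none) ∧
      mt x ω i j := by
    intro i hi
    rw [Finset.mem_filter] at hi
    obtain ⟨j, hj, hm, -⟩ := hF i hi.1 hi.2
    exact ⟨j, Finset.mem_filter.2 ⟨hj, mt_occ (mt_symm hm)⟩, hm⟩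
  choose g hg hm using hex
  have hs : ∑ i ∈ F.filter (fun i => ω i ≠ none), (1 : ZMod 2) = 0 := by
    refine Finset.sum_involution g ?_ ?_ hg ?_
    · intro a ha
      decide
    · intro a ha _ h
      exact (mt_ok (hm a ha)).1 h.symm
    · intro a ha
      exact mt_unique hx (hm _ (hg a ha)) (mt_symm (hm a ha))
  rw [Finset.sum_const, nsmul_eq_mul, mul_one] at hs
  exact (ZMod.natCast_eq_zero_iff_even).1 hs

end k3

end Pool.Agent.Lib_helper33.ASM
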