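import Pool.Agent.Lib_helper33.ASM.Defs2

/-!
# Discrepancy chains (interface, proofs by the owners)
-/

set_option autoImplicit false
set_option linter.unusedSectionVars false
set_option linter.unusedVariables false

namespace Pool.Agent.Lib_helper33.ASM

section chains

variable {ι : Type*} {E : Type*} [MetricSpace E]

variable [Finite ι] {x : ι → E} {ω ω' : Cfg ι}

lemma Agree.symm {A : Set ι} {r : ℝ} (h : Agree x ω ω' A r) : Agree x ω' ω A r :=
  fun i hi j hij => (h i hi j hij).symm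

lemma Agree.trans {ω'' : Cfg ι} {A : Set ι} {r : ℝ} (h : Agree x ω ω' A r)
    (h' : Agree x ω' ω'' A r) : Agree x ω ω'' A r :=
  fun i hi j hij => (h i hi j hij).trans (h' i hi j hij)

lemma Agree.mono {A B : Set ι} {r s : ℝ} (h : Agree x ω ω' A r) (hB : B ⊆ A) (hs : s ≤ r) :
    Agree x ω ω' B s :=
  fun i hi j hij => h i (hB hi) j (hij.trans_le hs)

lemma pred_comm {i j : ι} : Pred x ω ω' i j ↔ Pred x ω' ω i j := Or.comm

/-! ### K4: basic facts on predecessors -/

lemma pred_unique (hx : Gen x) {i j k : ι} (h : Pred x ω ω' i j) (h' : Pred x ω ω' i k) :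
    j = k := by
  rcases h with h | h <;> rcases h' with h' | h'
  · exact mt_unique hx h.1 h'.1
  · exact absurd (h.2 k h'.1) (not_lt.2 (h'.2 j h.1).le)
  · exact absurd (h.2 k h'.1) (not_lt.2 (h'.2 j h.1).le)
  · exact mt_unique hx h.1 h'.1

lemma k4_earlier_step {i j : ι} (h : Earlier x (mt x ω) (mt x ω') i j) (hi : ω i = ω' i)
    (hj : ω j = ω' j) : ∃ k, mt x ω' j k ∧ dist (x j) (x k) < dist (x i) (x j) := by
  have hok : Ok ω' i j := by
    have h1 := mt_ok h.1
    refine ⟨h1.1, ?_, ?_, ?_⟩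
    · rw [← hi]; exact h1.2.1
    · rw [← hj]; exact h1.2.2.1
    · rw [← hi, ← hj]; exact h1.2.2.2
  have hn : ¬ mt x ω' i j := fun hm => lt_irrefl _ (h.2 j hm)
  obtain ⟨k, hk | hk⟩ := mt_stable hok hn
  · exact absurd (h.2 k hk.1) (not_lt.2 hk.2.le)
  · exact ⟨k, hk⟩

lemma k4_mt_dist_eq {i j k : ι} (h : mt x ω i j) (h' : mt x ω i k) :
    dist (x i) (x j) ≤ dist (x i) (x k) :=
  (((mt_isKer x ω i j).1 h).2 k).1 h'

lemma k4_earlier_pred {i j : ι} (h : Earlier x (mt x ω) (mt x ω') i j) (hi : ω i = ω' i)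
    (hj : ω j = ω' j) : ∃ k, Earlier x (mt x ω') (mt x ω) j k ∧
      dist (x j) (x k) < dist (x i) (x j) := by
  obtain ⟨k, h1, h2⟩ := k4_earlier_step h hi hj
  refine ⟨k, ⟨h1, fun l hl => ?_⟩, h2⟩
  have h3 := k4_mt_dist_eq (mt_symm h.1) hl
  rw [dist_comm (x j) (x i)] at h3
  exact h2.trans_le h3

/-- the predecessor has itself a predecessor, with a shorter step -/
lemma pred_step {i j : ι} (h : Pred x ω ω' i j) (hi : ω i = ω' i) (hj : ω j = ω' j) :
    ∃ k, Pred x ω ω' j k ∧ dist (x j) (x k) < dist (x i) (x j) := by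
  rcases h with h | h
  · obtain ⟨k, h1, h2⟩ := k4_earlier_pred h hi hj
    exact ⟨k, Or.inr h1, h2⟩
  · obtain ⟨k, h1, h2⟩ := k4_earlier_pred h hi.symm hj.symm
    exact ⟨k, Or.inl h1, h2⟩

lemma k4_earlier_inj_aux (hx : Gen x) {i j k : ι} (h : Earlier x (mt x ω) (mt x ω') i k)
    (h' : Earlier x (mt x ω') (mt x ω) j k) (hi : ω i = ω' i) (hj : ω j = ω' j)
    (hk : ω k = ω' k) : False := by
  obtain ⟨l, h1, h2⟩ := k4_earlier_step h hi hk
  obtain ⟨l', h1', h2'⟩ := k4_earlier_step h' hj.symm hk.symm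
  have e1 : l = j := mt_unique hx h1 (mt_symm h'.1)
  have e2 : l' = i := mt_unique hx h1' (mt_symm h.1)
  subst e1 e2
  rw [dist_comm (x l') (x k)] at h2
  rw [dist_comm (x l) (x k)] at h2'
  exact lt_asymm h2 h2'

lemma pred_inj (hx : Gen x) {i j k : ι} (h : Pred x ω ω' i k) (h' : Pred x ω ω' j k)
    (hi : ω i = ω' i) (hj : ω j = ω' j) (hk : ω k = ω' k) : i = j := by
  rcases h with h | h <;> rcases h' with h' | h'
  · exact mt_unique hx (mt_symm h.1) (mt_symm h'.1)
  · exact (k4_earlier_inj_aux hx h h' hi hj hk).elim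
  · exact (k4_earlier_inj_aux hx h' h hj hi hk).elim
  · exact mt_unique hx (mt_symm h.1) (mt_symm h'.1)

lemma k4_exists_pred_aux (hx : Gen x) {i j : ι} (h : mt x ω i j) (h' : ¬ mt x ω' i j) :
    ∃ k, Pred x ω ω' i k ∧ dist (x i) (x k) ≤ dist (x i) (x j) := by
  by_cases hl : ∃ l, mt x ω' i l ∧ dist (x i) (x l) ≤ dist (x i) (x j)
  · obtain ⟨l, h1, h2⟩ := hl
    have hne : dist (x i) (x l) ≠ dist (x i) (x j) := by
      intro he
      rcases hx i l i j (mt_ok h1).1 (mt_ok h).1 he with h3 | h3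
      · rw [h3.2] at h1
        exact h' h1
      · exact (mt_ok h).1 h3.1
    have hlt : dist (x i) (x l) < dist (x i) (x j) := lt_of_le_of_ne h2 hne
    refine ⟨l, Or.inr ⟨h1, fun m hm => ?_⟩, h2⟩
    rw [mt_unique hx hm h]
    exact hlt
  · push Not at hl
    exact ⟨j, Or.inl ⟨h, fun k hk => hl k hk⟩, le_rfl⟩

/-- a disagreement produces a predecessor -/
lemma exists_pred (hx : Gen x) {i j : ι} (h : ¬ (mt x ω i j ↔ mt x ω' i j)) :
    ∃ k, Pred x ω ω' i k ∧ dist (x i) (x k) ≤ dist (x i) (x j) := by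
  by_cases h1 : mt x ω i j
  · exact k4_exists_pred_aux hx h1 fun h2 => h (iff_of_true h1 h2)
  · have h2 : mt x ω' i j := by
      by_contra h2
      exact h (iff_of_false h1 h2)
    obtain ⟨k, h3, h4⟩ := k4_exists_pred_aux (ω := ω') (ω' := ω) hx h2 h1
    exact ⟨k, pred_comm.1 h3, h4⟩

/-- in the agreement set the steps are at least `r` -/
lemma pred_dist_ge {A : Set ι} {r : ℝ} (h : Agree x ω ω' A r) {i k : ι} (hi : i ∈ A)
    (hp : Pred x ω ω' i k) : r ≤ dist (x i) (x k) := by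
  by_contra hlt
  push Not at hlt
  have h1 := h i hi k hlt
  rcases hp with hp | hp
  · exact lt_irrefl _ (hp.2 k (h1.1 hp.1))
  · exact lt_irrefl _ (hp.2 k (h1.2 hp.1))

/-- every discrepancy in `G` has a chain which leaves `G` -/
lemma exists_dp (hx : Gen x) {G : Set ι} {r' : ℝ}
    (hG : ∀ i ∈ G, ∀ k, dist (x i) (x k) < r' → ω k = ω' k) (hr : 0 < r') {z k : ι} (hz : z ∈ G)
    (hk : Pred x ω ω' z k) (hd : dist (x z) (x k) < r') :
    ∃ n, DP x ω ω' G r' (n + 1) z := by
  have key : ∀ z k : ι, z ∈ G → Pred x ω ω' z k → dist (x z) (x k) < r' →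
      ∃ n, DP x ω ω' G r' (n + 1) z := by
    refine dist_induction (x := x) (P := fun z k => z ∈ G → Pred x ω ω' z k →
      dist (x z) (x k) < r' → ∃ n, DP x ω ω' G r' (n + 1) z) ?_
    intro z k ih hz hk hd
    by_cases hkG : k ∈ G
    · have hzz : ω z = ω' z := hG z hz z (by rw [dist_self]; exact hr)
      have hkk : ω k = ω' k := hG z hz k hd
      obtain ⟨l, h1, h2⟩ := pred_step hk hzz hkk
      obtain ⟨n, hn⟩ := ih k l h2 hkG h1 (h2.trans hd)
      exact ⟨n + 1, hz, k, hk, hd, hn⟩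
    · exact ⟨0, hz, k, hk, hd, hkG⟩
  exact key z k hz hk hd

/-- the depth is large far away from the complement of `G` -/
lemma dp_depth {G : Set ι} {r' ρ : ℝ} (hr : 0 ≤ r') {n : ℕ} {z : ι} (h : DP x ω ω' G r' n z)
    (hρ : ∀ s, dist (x z) (x s) < ρ → s ∈ G) : ρ ≤ n * r' := by
  induction n generalizing z ρ with
  | zero =>
    by_contra hlt
    push Not at hlt
    rw [Nat.cast_zero, zero_mul] at hlt
    exact h (hρ z (by rw [dist_self]; exact hlt))
  | succ n ih =>
    obtain ⟨_, k, _, hd, hk⟩ := h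
    have h1 := ih (ρ := ρ - r') hk fun s hs => hρ s (by
      have := dist_triangle (x z) (x k) (x s)
      linarith)
    push_cast
    linarith

/-- the depth is unique -/
lemma dp_unique (hx : Gen x) {G : Set ι} {r' : ℝ} {n m : ℕ} {z : ι} (h : DP x ω ω' G r' n z)
    (h' : DP x ω ω' G r' m z) : n = m := by
  induction n generalizing m z with
  | zero =>
    cases m with
    | zero => rfl
    | succ m => exact absurd h'.1 h
  | succ n ih =>
    cases m with
    | zero => exact absurd h.1 h'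
    | succ m =>
      obtain ⟨_, k, hk, _, h1⟩ := h
      obtain ⟨_, k', hk', _, h1'⟩ := h'
      have e := pred_unique hx hk hk'
      subst e
      rw [ih h1 h1']

/-- no discrepancy on a barrier, hence none inside -/
lemma agree_inside (hx : Gen x) {A B : Set ι} {r : ℝ} (hr : 0 < r) (hA : Agree x ω ω' A r)
    (hcA : ∀ i ∈ A, ω i = ω' i) (hcB : ∀ i ∈ B, ω i = ω' i)
    (hB : ∀ i ∈ B, ∀ k, dist (x i) (x k) < r → k ∈ B ∨ k ∈ A) : Agree x ω ω' B r := by
  have key : ∀ i k, (i ∈ B ∨ i ∈ A) → Pred x ω ω' i k → dist (x i) (x k) < r → False := by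
    refine dist_induction (x := x) (P := fun i k => (i ∈ B ∨ i ∈ A) → Pred x ω ω' i k →
      dist (x i) (x k) < r → False) ?_
    intro i k ih hi hp hd
    rcases hi with hi | hi
    · have hk := hB i hi k hd
      have hkk : ω k = ω' k := by
        rcases hk with hk | hk
        · exact hcB k hk
        · exact hcA k hk
      obtain ⟨l, h1, h2⟩ := pred_step hp (hcB i hi) hkk
      exact ih k l h2 hk h1 (h2.trans hd)
    · exact absurd hd (not_lt.2 (pred_dist_ge hA hi hp))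
  intro i hi j hij
  by_contra hne
  obtain ⟨k, h1, h2⟩ := exists_pred hx hne
  exact key i k (Or.inl hi) h1 (h2.trans_lt hij)

lemma k4_bf_agree {A : Set ι} {r : ℝ} (hA : Agree x ω ω' A r) {z : ι} (hz : z ∈ A) :
    Bf x ω r z ↔ Bf x ω' r z := by
  constructor
  · rintro ⟨j, h1, h2⟩
    exact ⟨j, (hA z hz j h2).1 h1, h2⟩
  · rintro ⟨j, h1, h2⟩
    exact ⟨j, (hA z hz j h2).2 h1, h2⟩

lemma k4_fm_agree_aux {A : Set ι} {r : ℝ} (hA : Agree x ω ω' A r) {z : ι} (hr : 0 < r)
    (hz : ∀ k, dist (x z) (x k) < r → k ∈ A ∧ ω k = ω' k) (h : FM x ω r z) : FM x ω' r z := by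
  have hzA : z ∈ A := (hz z (by rw [dist_self]; exact hr)).1
  refine ⟨fun hb => h.1 ((k4_bf_agree hA hzA).2 hb), fun y k hy hm hd => ?_⟩
  rcases lt_or_ge (dist (x z) (x y)) r with h1 | h1
  · obtain ⟨h2, h3⟩ := hz y h1
    exact h.2 y k (by rw [h3]; exact hy) ((hA y h2 k hd).2 hm) hd
  · exact hd.le.trans h1

lemma k4_fmr_agree_aux {A : Set ι} {r : ℝ} (hA : Agree x ω ω' A r) {z : ι} (hr : 0 < r)
    (hz : ∀ k, dist (x z) (x k) < r → k ∈ A ∧ ω k = ω' k) (h : FMR x ω r z) : FMR x ω' r z := by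
  have hzA : z ∈ A := (hz z (by rw [dist_self]; exact hr)).1
  refine ⟨fun hb => h.1 ((k4_bf_agree hA hzA).2 hb), fun y k hm hd => ?_⟩
  rcases lt_or_ge (dist (x z) (x y)) r with h1 | h1
  · obtain ⟨h2, h3⟩ := hz y h1
    exact h.2 y k ((hA y h2 k hd).2 hm) hd
  · exact hd.le.trans h1

lemma fm_agree {A : Set ι} {r : ℝ} (hA : Agree x ω ω' A r) {z : ι} (hr : 0 < r)
    (hz : ∀ k, dist (x z) (x k) < r → k ∈ A ∧ ω k = ω' k) : FM x ω r z ↔ FM x ω' r z :=
  ⟨k4_fm_agree_aux hA hr hz,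
    k4_fm_agree_aux hA.symm hr fun k hk => ⟨(hz k hk).1, (hz k hk).2.symm⟩⟩

lemma fmr_agree {A : Set ι} {r : ℝ} (hA : Agree x ω ω' A r) {z : ι} (hr : 0 < r)
    (hz : ∀ k, dist (x z) (x k) < r → k ∈ A ∧ ω k = ω' k) : FMR x ω r z ↔ FMR x ω' r z :=
  ⟨k4_fmr_agree_aux hA hr hz,
    k4_fmr_agree_aux hA.symm hr fun k hk => ⟨(hz k hk).1, (hz k hk).2.symm⟩⟩

end chains

section counting

variable {ι : Type*} [Fintype ι] {E : Type*} [MetricSpace E] {x : ι → E} {ω ω' : Cfg ι}

lemma k4_pred_occ {i k : ι} (h : Pred x ω ω' i k) (hi : ω i = ω' i) (hk : ω k = ω' k) :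
    ω i ≠ none ∧ ω k ≠ none := by
  rcases h with h | h
  · exact ⟨(mt_ok h.1).2.1, (mt_ok h.1).2.2.1⟩
  · rw [hi, hk]
    exact ⟨(mt_ok h.1).2.1, (mt_ok h.1).2.2.1⟩

lemma k4_cnt_eq_card (A : ι → Prop) [DecidablePred A] :
    cnt A = ((Finset.univ.filter A).card : ℝ) := by
  unfold cnt
  congr

/-- the chains which go on -/
lemma cnt_term (hx : Gen x) {G : Set ι} {r' : ℝ} (hr : 0 < r')
    (hG : ∀ i ∈ G, ∀ k, dist (x i) (x k) < r' → ω k = ω' k) (n : ℕ) :
    (cnt fun z => DP x ω ω' G r' (n + 1) z ∧ Term x ω ω' G r' z) =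
      (cnt fun z => DP x ω ω' G r' (n + 1) z) - cnt fun z => DP x ω ω' G r' (n + 2) z := by
  classical
  have hgz : ∀ i ∈ G, ω i = ω' i := fun i hi => hG i hi i (by rw [dist_self]; exact hr)
  have h1 : (Finset.univ.filter fun z => DP x ω ω' G r' (n + 2) z).card =
      (Finset.univ.filter fun z => DP x ω ω' G r' (n + 1) z ∧ ¬ Term x ω ω' G r' z).card := by
    refine Finset.card_bij (fun z hz => (Finset.mem_filter.1 hz).2.2.choose) ?_ ?_ ?_
    · intro z hz
      have hd := (Finset.mem_filter.1 hz).2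
      obtain ⟨h2, h3, h4⟩ := hd.2.choose_spec
      rw [Finset.mem_filter]
      refine ⟨Finset.mem_univ _, h4, fun ht => ht ⟨z, hd.1, h2, h3⟩⟩
    · intro z hz z' hz' he
      have hd := (Finset.mem_filter.1 hz).2
      have hd' := (Finset.mem_filter.1 hz').2
      obtain ⟨h2, h3, _⟩ := hd.2.choose_spec
      obtain ⟨h2', h3', _⟩ := hd'.2.choose_spec
      have hkk := hG z hd.1 _ h3
      rw [← he] at h2'
      exact pred_inj hx h2 h2' (hgz z hd.1) (hgz z' hd'.1) hkk
    · intro k hk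
      obtain ⟨-, hk1, hk2⟩ := Finset.mem_filter.1 hk
      unfold Term at hk2
      rw [not_not] at hk2
      obtain ⟨z, hz, hp, hd⟩ := hk2
      have hmem : z ∈ Finset.univ.filter fun z => DP x ω ω' G r' (n + 2) z := by
        rw [Finset.mem_filter]
        exact ⟨Finset.mem_univ _, hz, k, hp, hd, hk1⟩
      refine ⟨z, hmem, ?_⟩
      have hd' := (Finset.mem_filter.1 hmem).2
      exact pred_unique hx hd'.2.choose_spec.1 hp
  have h2 : (Finset.univ.filter fun z => DP x ω ω' G r' (n + 1) z).card =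
      (Finset.univ.filter fun z => DP x ω ω' G r' (n + 1) z ∧ Term x ω ω' G r' z).card +
      (Finset.univ.filter fun z => DP x ω ω' G r' (n + 1) z ∧ ¬ Term x ω ω' G r' z).card := by
    rw [← Finset.filter_filter, ← Finset.filter_filter]
    exact (Finset.card_filter_add_card_filter_not _).symm
  rw [← h1] at h2
  rw [k4_cnt_eq_card, k4_cnt_eq_card, k4_cnt_eq_card]
  have h4 : ((Finset.univ.filter fun z => DP x ω ω' G r' (n + 1) z).card : ℝ) =
      (Finset.univ.filter fun z => DP x ω ω' G r' (n + 1) z ∧ Term x ω ω' G r' z).card +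
      (Finset.univ.filter fun z => DP x ω ω' G r' (n + 2) z).card := by
    exact_mod_cast h2
  linarith

/-- a vertex which is not stoppable has a stoppable (blue) predecessor -/
lemma cnt_not_stop (hx : Gen x) {G : Set ι} {r' : ℝ} (hr : 0 < r')
    (hG : ∀ i ∈ G, ∀ k, dist (x i) (x k) < r' → ω k = ω' k) (n : ℕ) :
    (cnt fun z => DP x ω ω' G r' (n + 2) z) ≤
      (cnt fun z => DP x ω ω' G r' (n + 2) z ∧ Stop x ω ω' z) +
        cnt fun z => DP x ω ω' G r' (n + 1) z ∧ Stop x ω ω' z := by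
  classical
  have hgz : ∀ i ∈ G, ω i = ω' i := fun i hi => hG i hi i (by rw [dist_self]; exact hr)
  have h1 : (Finset.univ.filter fun z => DP x ω ω' G r' (n + 2) z ∧ ¬ Stop x ω ω' z).card ≤
      (Finset.univ.filter fun z => DP x ω ω' G r' (n + 1) z ∧ Stop x ω ω' z).card := by
    refine Finset.card_le_card_of_injOn
      (fun z => if h : ∃ k, Pred x ω ω' z k ∧ dist (x z) (x k) < r' ∧
        DP x ω ω' G r' (n + 1) k then h.choose else z) ?_ ?_
    · intro z hz
      rw [Finset.mem_coe, Finset.mem_filter] at hz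
      obtain ⟨-, hd, hs⟩ := hz
      have hex : ∃ k, Pred x ω ω' z k ∧ dist (x z) (x k) < r' ∧ DP x ω ω' G r' (n + 1) k := hd.2
      rw [Finset.mem_coe]
      simp only [dif_pos hex]
      obtain ⟨h2, h3, h4⟩ := hex.choose_spec
      rw [Finset.mem_filter]
      refine ⟨Finset.mem_univ _, h4, ?_⟩
      have hkk := hG z hd.1 _ h3
      obtain ⟨o1, o2⟩ := k4_pred_occ h2 (hgz z hd.1) hkk
      left
      have hzr : ω z = some true := by
        rcases hωz : ω z with _ | b
        · exact absurd hωz o1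
        · cases b
          · exact absurd (Or.inl hωz) hs
          · rfl
      rcases hωk : ω hex.choose with _ | b
      · exact absurd hωk o2
      · cases b
        · rfl
        · exact absurd (Or.inr ⟨hzr, _, h2, hωk⟩) hs
    · intro z hz z' hz' he
      rw [Finset.mem_coe, Finset.mem_filter] at hz hz'
      have hex : ∃ k, Pred x ω ω' z k ∧ dist (x z) (x k) < r' ∧
        DP x ω ω' G r' (n + 1) k := hz.2.1.2
      have hex' : ∃ k, Pred x ω ω' z' k ∧ dist (x z') (x k) < r' ∧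
        DP x ω ω' G r' (n + 1) k := hz'.2.1.2
      simp only [dif_pos hex, dif_pos hex'] at he
      obtain ⟨h2, h3, _⟩ := hex.choose_spec
      obtain ⟨h2', h3', _⟩ := hex'.choose_spec
      have hkk := hG z hz.2.1.1 _ h3
      rw [← he] at h2'
      exact pred_inj hx h2 h2' (hgz z hz.2.1.1) (hgz z' hz'.2.1.1) hkk
  have h2 : (Finset.univ.filter fun z => DP x ω ω' G r' (n + 2) z).card =
      (Finset.univ.filter fun z => DP x ω ω' G r' (n + 2) z ∧ Stop x ω ω' z).card +
      (Finset.univ.filter fun z => DP x ω ω' G r' (n + 2) z ∧ ¬ Stop x ω ω' z).card := by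
    rw [← Finset.filter_filter, ← Finset.filter_filter]
    exact (Finset.card_filter_add_card_filter_not _).symm
  have h5 : (Finset.univ.filter fun z => DP x ω ω' G r' (n + 2) z).card ≤
      (Finset.univ.filter fun z => DP x ω ω' G r' (n + 2) z ∧ Stop x ω ω' z).card +
      (Finset.univ.filter fun z => DP x ω ω' G r' (n + 1) z ∧ Stop x ω ω' z).card := by
    omega
  rw [k4_cnt_eq_card, k4_cnt_eq_card, k4_cnt_eq_card]
  exact_mod_cast h5

end counting

end Pool.Agent.Lib_helper33.ASM
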