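import Pool.Agent.Lib_helper33.ASM.Defs

/-!
# Deterministic theory of the matching
-/

set_option autoImplicit false
set_option linter.unusedSectionVars false

namespace Pool.Agent.Lib_helper33.ASM

section ker

variable {ι : Type*} {E : Type*} [MetricSpace E] {x : ι → E} {ω ω' : Cfg ι}
  {M M' : ι → ι → Prop}

lemma Ok.symm {i j : ι} (h : Ok ω i j) : Ok ω j i :=
  ⟨h.1.symm, h.2.2.1, h.2.1, h.2.2.2.symm⟩

lemma ok_comm {i j : ι} : Ok ω i j ↔ Ok ω j i := ⟨Ok.symm, Ok.symm⟩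

lemma IsKer.ok (h : IsKer x ω M) {i j : ι} (hij : M i j) : Ok ω i j := ((h i j).1 hij).1

lemma IsKer.symm (h : IsKer x ω M) {i j : ι} (hij : M i j) : M j i := by
  have h1 := (h i j).1 hij
  refine (h j i).2 ⟨h1.1.symm, fun k => ⟨fun hk => ?_, fun hk => ?_⟩⟩
  · rw [dist_comm (x j) (x i)]; exact (h1.2 k).2 hk
  · rw [dist_comm (x j) (x i)]; exact (h1.2 k).1 hk

lemma IsKer.unique_partner (hx : Gen x) (h : IsKer x ω M) {i j k : ι} (hij : M i j)
    (hik : M i k) : j = k := by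
  have h1 := (((h i j).1 hij).2 k).1 hik
  have h2 := (((h i k).1 hik).2 j).1 hij
  rcases hx i j i k (h.ok hij).1 (h.ok hik).1 (le_antisymm h1 h2) with h3 | h3
  · exact h3.2
  · exact absurd h3.1 (h.ok hik).1

/-- stability -/
lemma IsKer.stable (h : IsKer x ω M) {i j : ι} (hok : Ok ω i j) (hn : ¬ M i j) :
    ∃ k, (M i k ∧ dist (x i) (x k) < dist (x i) (x j)) ∨
      (M j k ∧ dist (x j) (x k) < dist (x i) (x j)) := by
  by_contra hcon
  push Not at hcon
  exact hn ((h i j).2 ⟨hok, fun k => ⟨(hcon k).1, (hcon k).2⟩⟩)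

section finite

variable [Finite ι]

lemma wf_dist (x : ι → E) :
    WellFounded (fun e e' : ι × ι => dist (x e.1) (x e.2) < dist (x e'.1) (x e'.2)) := by
  have : IsStrictOrder (ι × ι)
      (fun e e' : ι × ι => dist (x e.1) (x e.2) < dist (x e'.1) (x e'.2)) :=
    { irrefl := fun a => lt_irrefl _
      trans := fun a b c h1 h2 => lt_trans h1 h2 }
  exact Finite.wellFounded_of_trans_of_irrefl _

/-- induction on the length of a pair -/
lemma dist_induction {P : ι → ι → Prop}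
    (h : ∀ i j, (∀ k l, dist (x k) (x l) < dist (x i) (x j) → P k l) → P i j) (i j : ι) :
    P i j := by
  have := (wf_dist x).induction (C := fun e => P e.1 e.2) (i, j)
    (fun e ih => h e.1 e.2 (fun k l hkl => ih (k, l) hkl))
  exact this

lemma exists_ker (x : ι → E) (ω : Cfg ι) : ∃ M, IsKer x ω M := by
  let F : (e : ι × ι) → ((e' : ι × ι) → dist (x e'.1) (x e'.2) < dist (x e.1) (x e.2) → Prop) →
      Prop := fun e R => Ok ω e.1 e.2 ∧ ∀ k,
        (∀ h : dist (x e.1) (x k) < dist (x e.1) (x e.2), ¬ R (e.1, k) h) ∧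
        (∀ h : dist (x e.2) (x k) < dist (x e.1) (x e.2), ¬ R (e.2, k) h)
  refine ⟨fun i j => (wf_dist x).fix F (i, j), fun i j => ?_⟩
  have hfix : (wf_dist x).fix F (i, j) = _ := (wf_dist x).fix_eq F (i, j)
  change (wf_dist x).fix F (i, j) ↔ Ok ω i j ∧
      ∀ k, ((wf_dist x).fix F (i, k) → dist (x i) (x j) ≤ dist (x i) (x k)) ∧
          ((wf_dist x).fix F (j, k) → dist (x i) (x j) ≤ dist (x j) (x k))
  rw [hfix]
  constructor
  · rintro ⟨h1, h2⟩
    refine ⟨h1, fun k => ⟨fun hk => ?_, fun hk => ?_⟩⟩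
    · by_contra hlt
      push Not at hlt
      exact (h2 k).1 hlt hk
    · by_contra hlt
      push Not at hlt
      exact (h2 k).2 hlt hk
  · rintro ⟨h1, h2⟩
    refine ⟨h1, fun k => ⟨fun hlt hk => ?_, fun hlt hk => ?_⟩⟩
    · exact absurd ((h2 k).1 hk) (not_le.2 hlt)
    · exact absurd ((h2 k).2 hk) (not_le.2 hlt)

/-- Comparison of two kernels below a lower set `T` of lengths: if below `T` the allowed pairs of
`ω'` are allowed in `ω`, and the removed ones are not matched in `ω`, then the matchings agree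
below `T`. -/
lemma IsKer.agree_of_removed (T : Set ℝ) (hT : IsLowerSet T) (h : IsKer x ω M)
    (h' : IsKer x ω' M')
    (h1 : ∀ i j, dist (x i) (x j) ∈ T → Ok ω' i j → Ok ω i j)
    (h2 : ∀ i j, dist (x i) (x j) ∈ T → M i j → Ok ω' i j) (i j : ι) :
    dist (x i) (x j) ∈ T → (M' i j ↔ M i j) := by
  revert i j
  refine dist_induction (x := x) (P := fun i j => dist (x i) (x j) ∈ T → (M' i j ↔ M i j)) ?_
  intro i j ih hij
  have key : ∀ k, ((M' i k → dist (x i) (x j) ≤ dist (x i) (x k)) ↔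
      (M i k → dist (x i) (x j) ≤ dist (x i) (x k))) := by
    intro k
    rcases lt_or_ge (dist (x i) (x k)) (dist (x i) (x j)) with hlt | hge
    · rw [ih i k hlt (hT hlt.le hij)]
    · exact ⟨fun _ _ => hge, fun _ _ => hge⟩
  have key2 : ∀ k, ((M' j k → dist (x i) (x j) ≤ dist (x j) (x k)) ↔
      (M j k → dist (x i) (x j) ≤ dist (x j) (x k))) := by
    intro k
    rcases lt_or_ge (dist (x j) (x k)) (dist (x i) (x j)) with hlt | hge
    · rw [ih j k hlt (hT hlt.le hij)]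
    · exact ⟨fun _ _ => hge, fun _ _ => hge⟩
  constructor
  · intro hM'
    have := (h' i j).1 hM'
    exact (h i j).2 ⟨h1 i j hij this.1, fun k => ⟨(key k).1 (this.2 k).1, (key2 k).1 (this.2 k).2⟩⟩
  · intro hM
    have := (h i j).1 hM
    exact (h' i j).2 ⟨h2 i j hij hM, fun k => ⟨(key k).2 (this.2 k).1, (key2 k).2 (this.2 k).2⟩⟩

/-- Dual form: if below `T` the allowed pairs of `ω` are allowed in `ω'`, and each new allowed pair
is blocked by a shorter adjacent pair matched in `ω`, then the matchings agree below `T`. -/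
lemma IsKer.agree_of_added (T : Set ℝ) (hT : IsLowerSet T) (h : IsKer x ω M)
    (h' : IsKer x ω' M')
    (h1 : ∀ i j, dist (x i) (x j) ∈ T → Ok ω i j → Ok ω' i j)
    (h2 : ∀ i j, dist (x i) (x j) ∈ T → Ok ω' i j → ¬ Ok ω i j →
      ∃ k, (M i k ∧ dist (x i) (x k) < dist (x i) (x j)) ∨
        (M j k ∧ dist (x j) (x k) < dist (x i) (x j))) (i j : ι) :
    dist (x i) (x j) ∈ T → (M' i j ↔ M i j) := by
  revert i j
  refine dist_induction (x := x) (P := fun i j => dist (x i) (x j) ∈ T → (M' i j ↔ M i j)) ?_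
  intro i j ih hij
  have key : ∀ k, ((M' i k → dist (x i) (x j) ≤ dist (x i) (x k)) ↔
      (M i k → dist (x i) (x j) ≤ dist (x i) (x k))) := by
    intro k
    rcases lt_or_ge (dist (x i) (x k)) (dist (x i) (x j)) with hlt | hge
    · rw [ih i k hlt (hT hlt.le hij)]
    · exact ⟨fun _ _ => hge, fun _ _ => hge⟩
  have key2 : ∀ k, ((M' j k → dist (x i) (x j) ≤ dist (x j) (x k)) ↔
      (M j k → dist (x i) (x j) ≤ dist (x j) (x k))) := by
    intro k
    rcases lt_or_ge (dist (x j) (x k)) (dist (x i) (x j)) with hlt | hge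
    · rw [ih j k hlt (hT hlt.le hij)]
    · exact ⟨fun _ _ => hge, fun _ _ => hge⟩
  constructor
  · intro hM'
    have h3 := (h' i j).1 hM'
    have h4 : ∀ k, (M i k → dist (x i) (x j) ≤ dist (x i) (x k)) ∧
        (M j k → dist (x i) (x j) ≤ dist (x j) (x k)) :=
      fun k => ⟨(key k).1 (h3.2 k).1, (key2 k).1 (h3.2 k).2⟩
    by_cases hok : Ok ω i j
    · exact (h i j).2 ⟨hok, h4⟩
    · obtain ⟨k, hk | hk⟩ := h2 i j hij h3.1 hok
      · exact absurd ((h4 k).1 hk.1) (not_le.2 hk.2)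
      · exact absurd ((h4 k).2 hk.1) (not_le.2 hk.2)
  · intro hM
    have := (h i j).1 hM
    exact (h' i j).2 ⟨h1 i j hij this.1, fun k => ⟨(key k).2 (this.2 k).1, (key2 k).2 (this.2 k).2⟩⟩

lemma IsKer.unique (h : IsKer x ω M) (h' : IsKer x ω M') : M' = M := by
  funext i j
  exact propext (IsKer.agree_of_removed Set.univ (fun _ _ _ _ => trivial) h h'
    (fun _ _ _ h => h) (fun _ _ _ h1 => h.ok h1) i j trivial)

lemma mt_isKer (x : ι → E) (ω : Cfg ι) : IsKer x ω (mt x ω) := by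
  obtain ⟨M, hM⟩ := exists_ker x ω
  have : mt x ω = M := by
    funext i j
    apply propext
    constructor
    · rintro ⟨M', h1, h2⟩
      rwa [IsKer.unique hM h1] at h2
    · intro h
      exact ⟨M, hM, h⟩
  rwa [this]

/-! ### Basic facts for `mt` -/

lemma mt_ok {i j : ι} (h : mt x ω i j) : Ok ω i j := (mt_isKer x ω).ok h

lemma mt_symm {i j : ι} (h : mt x ω i j) : mt x ω j i := (mt_isKer x ω).symm h

lemma mt_comm {i j : ι} : mt x ω i j ↔ mt x ω j i := ⟨mt_symm, mt_symm⟩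

lemma mt_unique (hx : Gen x) {i j k : ι} (h : mt x ω i j) (h' : mt x ω i k) : j = k :=
  (mt_isKer x ω).unique_partner hx h h'

lemma mt_stable {i j : ι} (hok : Ok ω i j) (hn : ¬ mt x ω i j) :
    ∃ k, (mt x ω i k ∧ dist (x i) (x k) < dist (x i) (x j)) ∨
      (mt x ω j k ∧ dist (x j) (x k) < dist (x i) (x j)) :=
  (mt_isKer x ω).stable hok hn

lemma mt_occ {i j : ι} (h : mt x ω i j) : ω i ≠ none := (mt_ok h).2.1

/-- two compatible points unmatched at time `r` are at distance `≥ r` -/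
lemma Un.dist_le {r : ℝ} {i j : ι} (hi : Un x ω r i) (hj : Un x ω r j) (hok : Ok ω i j) :
    r ≤ dist (x i) (x j) := by
  by_contra hlt
  push Not at hlt
  by_cases hm : mt x ω i j
  · exact hi.2 ⟨j, hm, hlt⟩
  · obtain ⟨k, hk | hk⟩ := mt_stable hok hm
    · exact hi.2 ⟨k, hk.1, hk.2.trans hlt⟩
    · exact hj.2 ⟨k, hk.1, hk.2.trans hlt⟩

lemma Bf.mono {r s : ℝ} (hrs : r ≤ s) {i : ι} (h : Bf x ω r i) : Bf x ω s i := by
  obtain ⟨j, h1, h2⟩ := h
  exact ⟨j, h1, h2.trans_le hrs⟩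

lemma Un.anti {r s : ℝ} (hrs : r ≤ s) {i : ι} (h : Un x ω s i) : Un x ω r i :=
  ⟨h.1, fun hb => h.2 (hb.mono hrs)⟩

lemma FR.anti {r s : ℝ} (hrs : r ≤ s) {z : ι} (h : FR x ω s z) : FR x ω r z :=
  ⟨h.1, fun y hy hd => h.2 y hy (hd.trans_le hrs)⟩

lemma FB.anti {r s : ℝ} (hrs : r ≤ s) {z : ι} (h : FB x ω s z) : FB x ω r z :=
  ⟨h.1, fun y hy hd => h.2 y hy (hd.trans_le hrs)⟩

lemma FR.fb {r : ℝ} {z : ι} (h : FR x ω r z) : FB x ω r z :=
  ⟨h.1, fun y hy hd => h.2 y (by rw [hy]; simp) hd⟩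

lemma bf_of_none {r : ℝ} {z : ι} (h : ω z = none) : ¬ Bf x ω r z := by
  rintro ⟨j, hj, -⟩
  exact mt_occ hj h

lemma FB.fm {r : ℝ} {z : ι} (hx : Gen x) (h : FB x ω r z) : FM x ω r z := by
  refine ⟨bf_of_none h.1, fun y k hy hm hk => ?_⟩
  rcases lt_or_ge (dist (x z) (x y)) r with h1 | h1
  · obtain ⟨l, hl, hl2⟩ := h.2 y hy h1
    rwa [← mt_unique hx hl hm]
  · exact hk.le.trans h1

lemma FR.fmr {r : ℝ} {z : ι} (hx : Gen x) (h : FR x ω r z) : FMR x ω r z := by
  refine ⟨bf_of_none h.1, fun y k hm hk => ?_⟩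
  rcases lt_or_ge (dist (x z) (x y)) r with h1 | h1
  · obtain ⟨l, hl, hl2⟩ := h.2 y (mt_occ hm) h1
    rwa [← mt_unique hx hl hm]
  · exact hk.le.trans h1

lemma FMR.fm {r : ℝ} {z : ι} (h : FMR x ω r z) : FM x ω r z :=
  ⟨h.1, fun y k _ hm hk => h.2 y k hm hk⟩

/-! ### Erasing points -/

lemma er_apply_mem {S : Set ι} {i : ι} (h : i ∈ S) : er ω S i = none := by simp [er, h]

lemma er_apply_not_mem {S : Set ι} {i : ι} (h : i ∉ S) : er ω S i = ω i := by simp [er, h]

lemma ok_er {S : Set ι} {i j : ι} : Ok (er ω S) i j ↔ Ok ω i j ∧ i ∉ S ∧ j ∉ S := by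
  by_cases hi : i ∈ S <;> by_cases hj : j ∈ S <;> simp [Ok, er, hi, hj]

/-- erasing points which have no partner below `T` does not change the matching below `T` -/
lemma mt_er (T : Set ℝ) (hT : IsLowerSet T) (S : Set ι)
    (hS : ∀ s ∈ S, ∀ k, mt x ω s k → dist (x s) (x k) ∉ T) (i j : ι)
    (hij : dist (x i) (x j) ∈ T) : mt x (er ω S) i j ↔ mt x ω i j := by
  refine IsKer.agree_of_removed T hT (mt_isKer x ω) (mt_isKer x _) ?_ ?_ i j hij
  · intro i j _ h
    exact (ok_er.1 h).1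
  · intro i j hij hm
    refine ok_er.2 ⟨mt_ok hm, fun h => hS i h j hm hij, fun h => hS j h i (mt_symm hm) ?_⟩
    rwa [dist_comm]

/-- erasing a set which is closed under taking partners does not change the rest -/
lemma mt_er_closed (S : Set ι) (hS : ∀ s ∈ S, ∀ k, mt x ω s k → k ∈ S) (i j : ι) (hi : i ∉ S)
    (hj : j ∉ S) : mt x (er ω S) i j ↔ mt x ω i j := by
  revert hi hj
  revert i j
  refine dist_induction (x := x)
    (P := fun i j => i ∉ S → j ∉ S → (mt x (er ω S) i j ↔ mt x ω i j)) ?_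
  intro i j ih hi hj
  have h := mt_isKer x ω
  have h' := mt_isKer x (er ω S)
  have key : ∀ i' ∉ S, ∀ k, ((mt x (er ω S) i' k → dist (x i) (x j) ≤ dist (x i') (x k)) ↔
      (mt x ω i' k → dist (x i) (x j) ≤ dist (x i') (x k))) := by
    intro i' hi' k
    rcases lt_or_ge (dist (x i') (x k)) (dist (x i) (x j)) with hlt | hge
    · by_cases hk : k ∈ S
      · have a1 : ¬ mt x (er ω S) i' k := fun hm => (ok_er.1 (mt_ok hm)).2.2 hk
        have a2 : ¬ mt x ω i' k := fun hm => hi' (hS k hk i' (mt_symm hm))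
        simp [a1, a2]
      · rw [ih i' k hlt hi' hk]
    · exact ⟨fun _ _ => hge, fun _ _ => hge⟩
  rw [h i j, h' i j, ok_er]
  constructor
  · rintro ⟨h1, h2⟩
    exact ⟨h1.1, fun k => ⟨(key i hi k).1 (h2 k).1, (key j hj k).1 (h2 k).2⟩⟩
  · rintro ⟨h1, h2⟩
    exact ⟨⟨h1, hi, hj⟩, fun k => ⟨(key i hi k).2 (h2 k).1, (key j hj k).2 (h2 k).2⟩⟩

end finite

end ker

end Pool.Agent.Lib_helper33.ASM
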