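import Mathlib

/-!
# Calculus lemma of module LOC
-/

set_option autoImplicit false

open Filter Topology

namespace Pool.Agent.Lib_helper33.ASM

lemma tend_aux (K : ℝ) (hK : 0 < K) (e : ℕ) (κ : ℝ) :
    Tendsto (fun L : ℕ => ((3 / 2 : ℝ) ^ L / 16 - 2) / (K * (L : ℝ) ^ e) - κ * L) atTop atTop := by
  have h1 : Tendsto (fun L : ℕ => (L : ℝ) ^ (e + 1) / (3 / 2 : ℝ) ^ L) atTop (𝓝 0) :=
    tendsto_pow_const_div_const_pow_of_one_lt (e + 1) (by norm_num)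
  set δ : ℝ := 1 / (32 * K * (|κ| + 1)) with hδ
  have hδ0 : 0 < δ := by positivity
  have h2 : ∀ᶠ L : ℕ in atTop, (L : ℝ) ^ (e + 1) / (3 / 2 : ℝ) ^ L < δ :=
    h1.eventually (gt_mem_nhds hδ0)
  have h3 : ∀ᶠ L : ℕ in atTop, (64 : ℝ) ≤ (3 / 2 : ℝ) ^ L :=
    (tendsto_pow_atTop_atTop_of_one_lt (by norm_num)).eventually_ge_atTop 64
  have h4 : ∀ᶠ L : ℕ in atTop, (L : ℝ) ≤
      ((3 / 2 : ℝ) ^ L / 16 - 2) / (K * (L : ℝ) ^ e) - κ * L := by
    filter_upwards [h2, h3, eventually_gt_atTop 0] with L hL hL2 hL0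
    have hLpos : (0 : ℝ) < L := by exact_mod_cast hL0
    have hpow : (0 : ℝ) < (3 / 2 : ℝ) ^ L := by positivity
    rw [div_lt_iff₀ hpow] at hL
    have h5 : (3 / 2 : ℝ) ^ L / 32 ≤ (3 / 2 : ℝ) ^ L / 16 - 2 := by linarith
    have h6 : (|κ| + 1) * L ≤ ((3 / 2 : ℝ) ^ L / 32) / (K * (L : ℝ) ^ e) := by
      rw [le_div_iff₀ (by positivity)]
      have h7 : (L : ℝ) ^ (e + 1) * (32 * K * (|κ| + 1)) ≤ (3 / 2 : ℝ) ^ L := by
        have : δ * (32 * K * (|κ| + 1)) = 1 := by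
          rw [hδ]; field_simp
        have h8 := mul_le_mul_of_nonneg_right hL.le
          (show (0 : ℝ) ≤ 32 * K * (|κ| + 1) by positivity)
        calc (L : ℝ) ^ (e + 1) * (32 * K * (|κ| + 1)) ≤
            δ * (3 / 2 : ℝ) ^ L * (32 * K * (|κ| + 1)) := h8
          _ = (δ * (32 * K * (|κ| + 1))) * (3 / 2 : ℝ) ^ L := by ring
          _ = (3 / 2 : ℝ) ^ L := by rw [this, one_mul]
      have h9 : (|κ| + 1) * L * (K * (L : ℝ) ^ e) = (L : ℝ) ^ (e + 1) * (32 * K * (|κ| + 1)) / 32 := by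
        rw [pow_succ]; ring
      rw [h9]
      linarith
    have h10 : ((3 / 2 : ℝ) ^ L / 32) / (K * (L : ℝ) ^ e) ≤
        ((3 / 2 : ℝ) ^ L / 16 - 2) / (K * (L : ℝ) ^ e) :=
      div_le_div_of_nonneg_right h5 (by positivity)
    have h11 : κ * L ≤ |κ| * L := mul_le_mul_of_nonneg_right (le_abs_self κ) hLpos.le
    nlinarith
  exact tendsto_atTop_mono' atTop h4 tendsto_natCast_atTop_atTop

/-- exponential decay beats everything -/
lemma loc_calc (K : ℝ) (hK : 0 < K) (e κ : ℕ) :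
    ∃ C : ℝ, 0 < C ∧ ∀ (L N : ℕ) (Cs : ℝ), 1 ≤ L → 0 ≤ Cs → 1 + Cs ≤ K * (L : ℝ) ^ e →
      (3 / 2 : ℝ) ^ L / 16 - 2 ≤ N → (Cs / (1 + Cs)) ^ N * 2 ^ (κ * L) ≤ C := by
  have h1 := tend_aux K hK e (κ * Real.log 2)
  have h2 : Tendsto (fun L : ℕ => Real.exp (-(((3 / 2 : ℝ) ^ L / 16 - 2) / (K * (L : ℝ) ^ e) -
      κ * Real.log 2 * L))) atTop (𝓝 0) :=
    Real.tendsto_exp_neg_atTop_nhds_zero.comp h1
  obtain ⟨C, hC⟩ := h2.bddAbove_range
  refine ⟨max C 1, by positivity, fun L N Cs hL hCs hCK hN => ?_⟩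
  refine le_trans ?_ (le_max_left _ _)
  refine le_trans ?_ (hC ⟨L, rfl⟩)
  have hLpos : (0 : ℝ) < L := by exact_mod_cast hL
  have h3 : Cs / (1 + Cs) ≤ Real.exp (-(1 / (1 + Cs))) := by
    have := Real.add_one_le_exp (-(1 / (1 + Cs)))
    have h4 : Cs / (1 + Cs) = -(1 / (1 + Cs)) + 1 := by field_simp; ring
    rw [h4]; exact this
  have h5 : (Cs / (1 + Cs)) ^ N ≤ Real.exp (-(N / (1 + Cs))) := by
    calc (Cs / (1 + Cs)) ^ N ≤ (Real.exp (-(1 / (1 + Cs)))) ^ N :=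
          pow_le_pow_left₀ (by positivity) h3 N
      _ = Real.exp (-(N / (1 + Cs))) := by
          rw [← Real.exp_nat_mul]; congr 1; ring
  have h6 : ((3 / 2 : ℝ) ^ L / 16 - 2) / (K * (L : ℝ) ^ e) ≤ N / (1 + Cs) := by
    rcases le_or_gt ((3 / 2 : ℝ) ^ L / 16 - 2) 0 with h | h
    · exact (div_nonpos_of_nonpos_of_nonneg h (by positivity)).trans (by positivity)
    · exact div_le_div₀ (by positivity) hN (by positivity) hCK
  have h7 : (2 : ℝ) ^ (κ * L) = Real.exp (κ * Real.log 2 * L) := by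
    rw [← Real.rpow_natCast, Real.rpow_def_of_pos (by norm_num)]
    congr 1; push_cast; ring
  calc (Cs / (1 + Cs)) ^ N * 2 ^ (κ * L) ≤
      Real.exp (-(N / (1 + Cs))) * Real.exp (κ * Real.log 2 * L) := by
        rw [h7]; exact mul_le_mul_of_nonneg_right h5 (Real.exp_nonneg _)
    _ = Real.exp (-(N / (1 + Cs)) + κ * Real.log 2 * L) := (Real.exp_add _ _).symm
    _ ≤ _ := by
        apply Real.exp_le_exp.2
        linarith

end Pool.Agent.Lib_helper33.ASM
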