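import Pool.Agent.Lib_helper33.ASM.LOC2
import Pool.Agent.Lib_helper33.ASM.LocCalc

/-!
# Module LOC, part 3: all windows
-/

set_option autoImplicit false

open scoped BigOperators

namespace Pool.Agent.Lib_helper33.ASM

/-- the radii -/
noncomputable def sg (l i j : ℕ) : ℝ := 2 ^ (l + i) * (1 - (3 / 4) ^ j)

lemma sg_nonneg (l i j : ℕ) : 0 ≤ sg l i j := by
  unfold sg
  have : ((3 : ℝ) / 4) ^ j ≤ 1 := pow_le_one₀ (by norm_num) (by norm_num)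
  have h2 : (0 : ℝ) ≤ 2 ^ (l + i) := by positivity
  exact mul_nonneg h2 (by linarith)

lemma sg_le (l i j : ℕ) : sg l i j ≤ 2 ^ (l + i) := by
  unfold sg
  have : (0 : ℝ) ≤ ((3 : ℝ) / 4) ^ j := by positivity
  have h2 : (0 : ℝ) ≤ 2 ^ (l + i) := by positivity
  nlinarith

lemma sg_diff (l i j k : ℕ) (hk : i + 1 = j + k) :
    (3 / 2 : ℝ) ^ (l + j) / 8 * 2 ^ k ≤ sg l i (j + 1) - sg l i j := by
  have h1 : sg l i (j + 1) - sg l i j = 2 ^ (l + i) * (3 / 4) ^ j / 4 := by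
    unfold sg; rw [pow_succ]; ring
  rw [h1]
  have h2 : (2 : ℝ) ^ (l + i) = 2 ^ l * 2 ^ i := pow_add _ _ _
  have h3 : (2 : ℝ) ^ i * 2 = 2 ^ j * 2 ^ k := by
    rw [← pow_succ, ← pow_add, hk]
  have h4 : (2 : ℝ) ^ (l + i) * (3 / 4) ^ j / 4 = 2 ^ l * (3 / 2) ^ j / 8 * 2 ^ k := by
    have h5 : (2 : ℝ) ^ i = 2 ^ j * 2 ^ k / 2 := by linarith
    rw [h2, h5]
    have h6 : (2 : ℝ) ^ j * (3 / 4) ^ j = (3 / 2) ^ j := by
      rw [← mul_pow]; norm_num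
    rw [← h6]; ring
  rw [h4, pow_add]
  have h7 : ((3 : ℝ) / 2) ^ l ≤ 2 ^ l := pow_le_pow_left₀ (by norm_num) (by norm_num) l
  have h8 : (0 : ℝ) ≤ (3 / 2 : ℝ) ^ j / 8 * 2 ^ k := by positivity
  nlinarith [mul_le_mul_of_nonneg_right h7 h8]

lemma sg_diff2 (l i j k : ℕ) (hk : i + 1 = j + k) (hl : 3 ≤ l) :
    (2 : ℝ) ^ k ≤ sg l i (j + 1) - sg l i j := by
  have h1 : sg l i (j + 1) - sg l i j = 2 ^ (l + i) * (3 / 4) ^ j / 4 := by
    unfold sg; rw [pow_succ]; ring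
  rw [h1]
  have h2 : (2 : ℝ) ^ (l + i) = 2 ^ l * 2 ^ i := pow_add _ _ _
  have h3 : (2 : ℝ) ^ i * 2 = 2 ^ j * 2 ^ k := by
    rw [← pow_succ, ← pow_add, hk]
  have h4 : (2 : ℝ) ^ (l + i) * (3 / 4) ^ j / 4 = 2 ^ l * (3 / 2) ^ j / 8 * 2 ^ k := by
    have h5 : (2 : ℝ) ^ i = 2 ^ j * 2 ^ k / 2 := by linarith
    rw [h2, h5]
    have h6 : (2 : ℝ) ^ j * (3 / 4) ^ j = (3 / 2) ^ j := by
      rw [← mul_pow]; norm_num
    rw [← h6]; ring
  rw [h4]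
  have h7 : (8 : ℝ) ≤ 2 ^ l := by
    calc (8 : ℝ) = 2 ^ 3 := by norm_num
      _ ≤ 2 ^ l := pow_le_pow_right₀ (by norm_num) hl
  have h8 : (1 : ℝ) ≤ (3 / 2 : ℝ) ^ j := one_le_pow₀ (by norm_num)
  have h9 : (0 : ℝ) < 2 ^ k := by positivity
  have h10 : (1 : ℝ) ≤ 2 ^ l * (3 / 2) ^ j / 8 := by
    rw [le_div_iff₀ (by norm_num)]; nlinarith
  nlinarith

/-- the number of steps -/
noncomputable def NL (L : ℕ) : ℕ := ⌈(3 / 2 : ℝ) ^ L / 16 - 2⌉₊

lemma NL_ge (L : ℕ) : (3 / 2 : ℝ) ^ L / 16 - 2 ≤ NL L := Nat.le_ceil _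

lemma NL_le (L : ℕ) {y : ℝ} (hy : (3 / 2 : ℝ) ^ L / 8 ≤ y) :
    (2 * (NL L : ℝ) + 1 : ℝ) ≤ 1 ∨ (2 * (NL L : ℝ) + 1 : ℝ) ≤ y - 1 := by
  rcases le_or_gt ((3 / 2 : ℝ) ^ L / 16 - 2) 0 with h | h
  · left
    have : NL L = 0 := by unfold NL; exact Nat.ceil_eq_zero.2 h
    rw [this]; simp
  · right
    have := Nat.ceil_lt_add_one h.le
    unfold NL
    linarith

section main

variable {d : ℕ} {p : ℝ}

/-- the cost bound used in window `L` -/
noncomputable def lamL (d : ℕ) (CW : ℝ) (L : ℕ) : ℝ := 4 ^ d + CW * (10 * L)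

noncomputable def CsL (d : ℕ) (p CW : ℝ) (L : ℕ) : ℝ :=
  (1 + p / (1 - p)) * (Real.exp (2 * 4 ^ d) + (1 + 2 * lamL d CW L) ^ (5 ^ d))

lemma CsL_bound (hp0 : 0 < p) (hp1 : p < 1) {CW : ℝ} (hCW : 0 < CW) :
    ∃ K : ℝ, 0 < K ∧ ∀ L : ℕ, 1 ≤ L → 1 + CsL d p CW L ≤ K * (L : ℝ) ^ (5 ^ d) := by
  have hq : 0 ≤ p / (1 - p) := div_nonneg hp0.le (by linarith)
  set c := 1 + p / (1 - p) with hc
  have hc0 : 0 < c := by linarith
  refine ⟨1 + c * (Real.exp (2 * 4 ^ d) + (1 + 2 * (4 ^ d + CW * 10)) ^ (5 ^ d)), by positivity,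
    fun L hL => ?_⟩
  have hL1 : (1 : ℝ) ≤ L := by exact_mod_cast hL
  have hLe : (1 : ℝ) ≤ (L : ℝ) ^ (5 ^ d) := one_le_pow₀ hL1
  unfold CsL
  have h1 : 1 + 2 * lamL d CW L ≤ (1 + 2 * (4 ^ d + CW * 10)) * L := by
    unfold lamL
    have h4 : (0 : ℝ) ≤ 4 ^ d := by positivity
    nlinarith
  have h0 : 0 ≤ 1 + 2 * lamL d CW L := by
    unfold lamL; positivity
  have h2 : (1 + 2 * lamL d CW L) ^ (5 ^ d) ≤
      (1 + 2 * (4 ^ d + CW * 10)) ^ (5 ^ d) * (L : ℝ) ^ (5 ^ d) := by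
    rw [← mul_pow]; exact pow_le_pow_left₀ h0 h1 _
  have h3 : Real.exp (2 * 4 ^ d) ≤ Real.exp (2 * 4 ^ d) * (L : ℝ) ^ (5 ^ d) :=
    le_mul_of_one_le_right (Real.exp_nonneg _) hLe
  calc 1 + c * (Real.exp (2 * 4 ^ d) + (1 + 2 * lamL d CW L) ^ (5 ^ d))
      ≤ (L : ℝ) ^ (5 ^ d) + c * (Real.exp (2 * 4 ^ d) * (L : ℝ) ^ (5 ^ d) +
        (1 + 2 * (4 ^ d + CW * 10)) ^ (5 ^ d) * (L : ℝ) ^ (5 ^ d)) := by
        have := mul_le_mul_of_nonneg_left (add_le_add h3 h2) hc0.le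
        linarith
    _ = _ := by ring

/-- the error of the window `j` -/
lemma window_bound (hd : 0 < d) (hp0 : 0 < p) (hp1 : p < 1) (hDEC : StmtDEC) {CW : ℝ}
    (hCW : 0 < CW) :
    ∃ C : ℝ, 0 < C ∧ ∀ (I n₀ : ℕ) (a₀ : ℝ) (𝓜 : Model d), Good p I n₀ a₀ 𝓜 →
    ∀ (l i j k : ℕ) (c : Sp d) (D A : Set 𝓜.ι) (β : Cfg 𝓜.ι), 3 ≤ l → i + 1 = j + k → 1 ≤ j →
    (∀ s ∈ A, dist (𝓜.x s) c ≤ 2 ^ (10 + l + i)) →
    (∀ s ∈ A, ∀ s', dist (𝓜.x s) (𝓜.x s') ≤ 2 ^ (l + i) → s' ∈ D) →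
    (1 ≤ k → ∀ u : Sp d, dist u c ≤ 2 ^ (11 + l + i) → pr 𝓜.a p (fun ω =>
      CW * ((10 * (l + j) : ℕ) : ℝ) < 𝓜.a * cnt fun s => dist (𝓜.x s) u ≤ 3 * 2 ^ (k - 1) ∧
        FM 𝓜.x ω (2 ^ (k - 1)) s) ≤ CW * (1 / 2) ^ (d * (10 * (l + j)))) →
    pr 𝓜.a p (fun ω =>
      Agree 𝓜.x (mix D ω β) ω (Nb 𝓜.x A (sg l i (j + 1))) (if 1 ≤ k then 2 ^ (k - 1) else 0) ∧
      ¬ Agree 𝓜.x (mix D ω β) ω (Nb 𝓜.x A (sg l i j)) (2 ^ k)) ≤
      C * ((1 / 2) ^ ((d + 2) * l) * (1 / 2) ^ j) := by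
  obtain ⟨K, hK, hCK⟩ := CsL_bound (d := d) hp0 hp1 hCW
  obtain ⟨C₀, hC₀, hcalc⟩ := loc_calc K hK (5 ^ d) (2 * d + 3)
  refine ⟨CW * 2 ^ (14 * d) + C₀ * (2 * 2 ^ (14 * d) * (4 ^ d + CW * 10)), by positivity, ?_⟩
  intro I n₀ a₀ 𝓜 hG l i j k c D A β hl hjk hj hA hAD hWT
  have hpar : Par 𝓜.a p := hG.par hp0 hp1
  set L := l + j with hL
  have hL1 : 1 ≤ L := by omega
  have hLr : (1 : ℝ) ≤ L := by exact_mod_cast hL1
  -- the net
  obtain ⟨Nn, hN1, hN2, hN3⟩ := exists_net (d := d) c (R := 2 ^ (11 + l + i))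
    (ρ := 2 ^ k / 4) (by positivity) (by positivity)
  have hcard : (Nn.card : ℝ) ≤ 2 ^ (14 * d) * 2 ^ (d * L) := by
    refine hN3.trans ?_
    have h1 : (2 * 2 ^ (11 + l + i) / (2 ^ k / 4) + 1 : ℝ) ≤ 2 ^ (14 + L) := by
      have h2 : (2 : ℝ) ^ (11 + l + i) = 2 ^ (10 + L) * 2 ^ k := by
        rw [← pow_add]; congr 1; omega
      rw [h2]
      have h3 : (2 * (2 ^ (10 + L) * 2 ^ k) / (2 ^ k / 4) : ℝ) = 2 ^ (13 + L) := by
        rw [show 13 + L = 10 + L + 3 by ring, pow_add _ (10 + L) 3]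
        field_simp; norm_num
      rw [h3, show 14 + L = 13 + L + 1 by ring, pow_succ]
      have : (1 : ℝ) ≤ 2 ^ (13 + L) := one_le_pow₀ (by norm_num)
      linarith
    calc ((2 * 2 ^ (11 + l + i) / (2 ^ k / 4) + 1 : ℝ)) ^ d ≤ ((2 : ℝ) ^ (14 + L)) ^ d :=
          pow_le_pow_left₀ (by positivity) h1 d
      _ = 2 ^ (14 * d) * 2 ^ (d * L) := by
          rw [← pow_mul, ← pow_add]; congr 1; ring
  have hNb : ∀ z ∈ Nb 𝓜.x A (sg l i (j + 1)), dist (𝓜.x z) c ≤ 2 ^ (11 + l + i) := by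
    rintro z ⟨s₀, hs₀, hd₀⟩
    have h1 := dist_triangle (𝓜.x z) (𝓜.x s₀) c
    have h2 := hA s₀ hs₀
    have h3 := sg_le l i (j + 1)
    have h4 : (2 : ℝ) ^ (11 + l + i) = 2 ^ (10 + l + i) + 2 ^ (10 + l + i) := by
      rw [show 11 + l + i = 10 + l + i + 1 by ring, pow_succ]; ring
    have h5 : (2 : ℝ) ^ (l + i) ≤ 2 ^ (10 + l + i) :=
      pow_le_pow_right₀ (by norm_num) (by omega)
    linarith
  have hNb2 : ∀ z ∈ Nb 𝓜.x A (sg l i (j + 1)), ∃ u ∈ Nn, dist (𝓜.x z) u ≤ 2 ^ k / 4 :=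
    fun z hz => hN2 _ (hNb z hz)
  have hD : Nb 𝓜.x A (sg l i (j + 1)) ⊆ D := by
    rintro z ⟨s₀, hs₀, hd₀⟩
    refine hAD s₀ hs₀ z ?_
    rw [dist_comm]
    exact hd₀.trans (sg_le l i (j + 1))
  have hdiff := sg_diff l i j k hjk
  have hdiff2 := sg_diff2 l i j k hjk hl
  have hNLc := NL_le L (y := (sg l i (j + 1) - sg l i j) / 2 ^ k) (by
    rw [le_div_iff₀ (by positivity)]; exact hdiff)
  set Cst := CsL d p CW L with hCst
  have hq : 0 ≤ p / (1 - p) := div_nonneg hp0.le (by linarith)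
  have hlamL : 0 ≤ lamL d CW L := by unfold lamL; positivity
  have hCst0 : 0 ≤ Cst := by
    rw [hCst]; unfold CsL
    positivity
  have hlamle : lamL d CW L ≤ (4 ^ d + CW * 10) * 2 ^ L := by
    unfold lamL
    have h1 : (L : ℝ) ≤ 2 ^ L := by exact_mod_cast (Nat.lt_two_pow_self).le
    have h2 : (1 : ℝ) ≤ 2 ^ L := one_le_pow₀ (by norm_num)
    have h3 : (0 : ℝ) ≤ 4 ^ d := by positivity
    nlinarith
  -- the decay term
  have hdecay : ∀ lam : ℝ, 0 ≤ lam → lam ≤ lamL d CW L →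
      (Cst / (1 + Cst)) ^ (NL L) * (2 * Nn.card * lam) ≤
      C₀ * (2 * 2 ^ (14 * d) * (4 ^ d + CW * 10)) * (1 / 2) ^ ((d + 2) * L) := by
    intro lam hlam0 hlam1
    have h1 := hcalc L (NL L) Cst hL1 hCst0 (hCK L hL1) (NL_ge L)
    have h2 : (2 * Nn.card * lam : ℝ) ≤
        2 * (2 ^ (14 * d) * 2 ^ (d * L)) * ((4 ^ d + CW * 10) * 2 ^ L) := by
      have : lam ≤ (4 ^ d + CW * 10) * 2 ^ L := hlam1.trans hlamle
      gcongr
    have h3 : (1 / 2 : ℝ) ^ ((d + 2) * L) * 2 ^ ((d + 2) * L) = 1 := by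
      rw [← mul_pow]; norm_num
    have h4 : (2 : ℝ) ^ ((2 * d + 3) * L) = 2 ^ ((d + 2) * L) * (2 ^ (d * L) * 2 ^ L) := by
      rw [← pow_add, ← pow_add]; congr 1; ring
    have h5 : 0 ≤ (Cst / (1 + Cst)) ^ (NL L) := by positivity
    calc (Cst / (1 + Cst)) ^ (NL L) * (2 * Nn.card * lam)
        ≤ (Cst / (1 + Cst)) ^ (NL L) *
          (2 * (2 ^ (14 * d) * 2 ^ (d * L)) * ((4 ^ d + CW * 10) * 2 ^ L)) :=
          mul_le_mul_of_nonneg_left h2 h5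
      _ = ((Cst / (1 + Cst)) ^ (NL L) * 2 ^ ((2 * d + 3) * L)) *
          (2 * 2 ^ (14 * d) * (4 ^ d + CW * 10)) * (1 / 2) ^ ((d + 2) * L) := by
          rw [h4]
          calc _ = ((Cst / (1 + Cst)) ^ (NL L) * (2 ^ (d * L) * 2 ^ L) *
              (2 * 2 ^ (14 * d) * (4 ^ d + CW * 10))) * 1 := by ring
            _ = ((Cst / (1 + Cst)) ^ (NL L) * (2 ^ (d * L) * 2 ^ L) *
              (2 * 2 ^ (14 * d) * (4 ^ d + CW * 10))) *
              ((1 / 2 : ℝ) ^ ((d + 2) * L) * 2 ^ ((d + 2) * L)) := by rw [h3]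
            _ = _ := by ring
      _ ≤ _ := by gcongr
  have hsplit : (1 / 2 : ℝ) ^ ((d + 2) * L) ≤ (1 / 2) ^ ((d + 2) * l) * (1 / 2) ^ j := by
    rw [← pow_add]
    apply pow_le_pow_of_le_one (by norm_num) (by norm_num)
    rw [hL]; nlinarith
  rcases Nat.eq_zero_or_pos k with hk | hk
  · -- the first window `[0, 1)`
    subst hk
    have hif : (if 1 ≤ 0 then (2 : ℝ) ^ (0 - 1) else 0) = 0 := by simp
    rw [hif]
    have hw := window_prob hDEC hpar 𝓜.gen (D := D) (A := A) (β := β) (σ := sg l i j)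
      (σ' := sg l i (j + 1)) (r := 0) (r' := 2 ^ 0) (lam := 4 ^ d) (Cst := Cst) hD le_rfl
      (by norm_num) hdiff2 (by positivity) (Or.inr (by
        rw [hCst]; unfold CsL
        refine mul_le_mul_of_nonneg_left ?_ (by positivity)
        have : 0 ≤ (1 + 2 * lamL d CW L) ^ (5 ^ d) := by positivity
        linarith)) (NL L) hNLc Nn hNb2
    refine hw.trans ?_
    have h1 : pr 𝓜.a p (fun ω => ¬ Wc 𝓜.x 𝓜.a ω (Gi 𝓜.x (Nb 𝓜.x A (sg l i (j + 1))) (2 ^ 0)) 0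
        (2 ^ 0) (4 ^ d)) = 0 := by
      have h2 : ∀ ω : Cfg 𝓜.ι, Wc 𝓜.x 𝓜.a ω (Gi 𝓜.x (Nb 𝓜.x A (sg l i (j + 1))) (2 ^ 0)) 0
          (2 ^ 0) (4 ^ d) := by
        intro ω z _
        have h3 := vol_le hG (𝓜.x z) (R := 1) (by norm_num)
        have h4 : 𝓜.a * (cnt fun s => dist (𝓜.x z) (𝓜.x s) < 2 ^ 0 ∧ FM 𝓜.x ω 0 s) ≤
            𝓜.a * (cnt fun s => dist (𝓜.x s) (𝓜.x z) ≤ 1) := by
          refine mul_le_mul_of_nonneg_left (cnt_mono ?_) hG.a_pos.le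
          rintro s ⟨hs, _⟩
          rw [dist_comm]
          simpa using hs.le
        refine h4.trans (h3.trans ?_)
        norm_num
      unfold pr
      simp only [h2, not_true]
      rw [ind_false (A := False) (fun h => h)]
      exact ex_const _ _ _
    rw [h1, zero_add]
    refine (hdecay (4 ^ d) (by positivity) ?_).trans ?_
    · unfold lamL
      have : 0 ≤ CW * (10 * (L : ℝ)) := by positivity
      linarith
    · have h2 : 0 ≤ CW * 2 ^ (14 * d) * ((1 / 2) ^ ((d + 2) * l) * (1 / 2) ^ j) := by positivity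
      have h3 : 0 ≤ C₀ * (2 * 2 ^ (14 * d) * (4 ^ d + CW * 10)) := by positivity
      have := mul_le_mul_of_nonneg_left hsplit h3
      linarith
  · -- the window `[2 ^ (k - 1), 2 ^ k)`
    have hk1 : 1 ≤ k := hk
    have hif : (if 1 ≤ k then (2 : ℝ) ^ (k - 1) else 0) = 2 ^ (k - 1) := if_pos hk1
    rw [hif]
    have h2k : (2 : ℝ) ^ k = 2 * 2 ^ (k - 1) := by
      rw [← pow_succ']; congr 1; omega
    have hw := window_prob hDEC hpar 𝓜.gen (D := D) (A := A) (β := β) (σ := sg l i j)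
      (σ' := sg l i (j + 1)) (r := 2 ^ (k - 1)) (r' := 2 ^ k) (lam := lamL d CW L) (Cst := Cst) hD
      (by positivity) (by rw [h2k]; linarith [show (0 : ℝ) < 2 ^ (k - 1) by positivity]) hdiff2
      hlamL (Or.inl ⟨by positivity, h2k, by
        rw [hCst]; unfold CsL
        refine mul_le_mul_of_nonneg_left ?_ (by positivity)
        linarith [Real.exp_nonneg (2 * 4 ^ d)]⟩) (NL L) hNLc Nn hNb2
    refine hw.trans ?_
    have hWc : pr 𝓜.a p (fun ω => ¬ Wc 𝓜.x 𝓜.a ω (Gi 𝓜.x (Nb 𝓜.x A (sg l i (j + 1))) (2 ^ k))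
        (2 ^ (k - 1)) (2 ^ k) (lamL d CW L)) ≤
        CW * 2 ^ (14 * d) * (1 / 2) ^ ((d + 2) * L) := by
      have h1 : pr 𝓜.a p (fun ω => ¬ Wc 𝓜.x 𝓜.a ω (Gi 𝓜.x (Nb 𝓜.x A (sg l i (j + 1))) (2 ^ k))
          (2 ^ (k - 1)) (2 ^ k) (lamL d CW L)) ≤
          pr 𝓜.a p (fun ω => ∃ u ∈ Nn, CW * ((10 * (l + j) : ℕ) : ℝ) <
            𝓜.a * cnt fun s => dist (𝓜.x s) u ≤ 3 * 2 ^ (k - 1) ∧
              FM 𝓜.x ω (2 ^ (k - 1)) s) := by
        refine pr_mono hpar fun ω hω => ?_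
        unfold Wc at hω
        push Not at hω
        obtain ⟨z, hz, hlt⟩ := hω
        obtain ⟨u, hu, hdu⟩ := hNb2 z (Gi_subset (by positivity) hz)
        refine ⟨u, hu, ?_⟩
        have h3 : CW * ((10 * (l + j) : ℕ) : ℝ) ≤ lamL d CW L := by
          unfold lamL
          rw [hL]; push_cast
          have : (0 : ℝ) ≤ 4 ^ d := by positivity
          linarith
        refine lt_of_le_of_lt h3 (lt_of_lt_of_le hlt ?_)
        refine mul_le_mul_of_nonneg_left (cnt_mono ?_) hG.a_pos.le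
        rintro s ⟨hs, hf⟩
        refine ⟨?_, hf⟩
        have h4 := dist_triangle (𝓜.x s) (𝓜.x z) u
        rw [dist_comm (𝓜.x s) (𝓜.x z)] at h4
        have h5 : (0 : ℝ) < 2 ^ (k - 1) := by positivity
        rw [h2k] at hs hdu
        linarith
      refine h1.trans ((pr_exists_le hpar Nn _).trans ?_)
      have h2 : ∀ u ∈ Nn, pr 𝓜.a p (fun ω => CW * ((10 * (l + j) : ℕ) : ℝ) <
            𝓜.a * cnt fun s => dist (𝓜.x s) u ≤ 3 * 2 ^ (k - 1) ∧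
              FM 𝓜.x ω (2 ^ (k - 1)) s) ≤ CW * (1 / 2) ^ (d * (10 * (l + j))) :=
        fun u hu => hWT hk u (hN1 u hu)
      refine (Finset.sum_le_sum h2).trans ?_
      rw [Finset.sum_const, nsmul_eq_mul]
      calc (Nn.card : ℝ) * (CW * (1 / 2) ^ (d * (10 * (l + j))))
          ≤ (2 ^ (14 * d) * 2 ^ (d * L)) * (CW * (1 / 2) ^ (d * (10 * (l + j)))) := by gcongr
        _ = CW * 2 ^ (14 * d) * (2 ^ (d * L) * (1 / 2) ^ (d * (10 * L))) := by rw [hL]; ring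
        _ ≤ CW * 2 ^ (14 * d) * (1 / 2) ^ ((d + 2) * L) := by
          refine mul_le_mul_of_nonneg_left ?_ (by positivity)
          have h3 : (2 : ℝ) ^ (d * L) * (1 / 2) ^ (d * (10 * L)) = (1 / 2) ^ (9 * (d * L)) := by
            have h4 : d * (10 * L) = 9 * (d * L) + d * L := by ring
            rw [h4, pow_add]
            have h5 : (2 : ℝ) ^ (d * L) * (1 / 2) ^ (d * L) = 1 := by
              rw [← mul_pow]; norm_num
            calc (2 : ℝ) ^ (d * L) * ((1 / 2) ^ (9 * (d * L)) * (1 / 2) ^ (d * L))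
                = (1 / 2) ^ (9 * (d * L)) * (2 ^ (d * L) * (1 / 2) ^ (d * L)) := by ring
              _ = _ := by rw [h5, mul_one]
          rw [h3]
          apply pow_le_pow_of_le_one (by norm_num) (by norm_num)
          nlinarith
    have h6 := hdecay (lamL d CW L) hlamL le_rfl
    have h7 : 0 ≤ CW * 2 ^ (14 * d) + C₀ * (2 * 2 ^ (14 * d) * (4 ^ d + CW * 10)) := by
      positivity
    have h8 := mul_le_mul_of_nonneg_left hsplit h7
    linarith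

/-- Module LOC -/
theorem stmtLOC (hd : 0 < d) (hp0 : 0 < p) (hp1 : p < 1) (hDEC : StmtDEC) (hWT : StmtWT d p) :
    StmtLOC d p := by
  obtain ⟨CW, hCW, hWT⟩ := hWT
  obtain ⟨C₁, hC₁, hwin⟩ := window_bound hd hp0 hp1 hDEC hCW
  refine ⟨max C₁ (2 ^ ((d + 2) * 3)), by positivity, fun I => ?_⟩
  have hev := (hWT (I + 2 ^ (11 + 2 * I) + 10 * (2 * I + 1))).and (Ev.good (d := d) p 0 0 one_pos)
  refine hev.mono ?_
  rintro 𝓜 ⟨hW, hG⟩ i hi l hl c hc D A β hA hAD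
  have hpar : Par 𝓜.a p := hG.par hp0 hp1
  rcases lt_or_ge l 3 with hl3 | hl3
  · -- trivial bound
    refine (pr_le_one hpar _).trans ?_
    have h1 : (1 : ℝ) ≤ 2 ^ ((d + 2) * 3) * (1 / 2) ^ ((d + 2) * l) := by
      have h2 : (1 / 2 : ℝ) ^ ((d + 2) * 3) ≤ (1 / 2) ^ ((d + 2) * l) := by
        apply pow_le_pow_of_le_one (by norm_num) (by norm_num)
        exact Nat.mul_le_mul_left _ hl3.le
      have h3 : (2 : ℝ) ^ ((d + 2) * 3) * (1 / 2) ^ ((d + 2) * 3) = 1 := by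
        rw [← mul_pow]; norm_num
      calc (1 : ℝ) = 2 ^ ((d + 2) * 3) * (1 / 2) ^ ((d + 2) * 3) := h3.symm
        _ ≤ _ := mul_le_mul_of_nonneg_left h2 (by positivity)
    refine h1.trans (mul_le_mul_of_nonneg_right (le_max_right _ _) (by positivity))
  · -- sum over the windows
    set F : ℕ → Cfg 𝓜.ι → Prop := fun j ω =>
      Agree 𝓜.x (mix D ω β) ω (Nb 𝓜.x A (sg l i j)) (if j ≤ i + 1 then 2 ^ (i + 1 - j) else 0)
      with hF
    have hstep : ∀ j, 1 ≤ j → j ≤ i + 1 → pr 𝓜.a p (fun ω => F (j + 1) ω ∧ ¬ F j ω) ≤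
        C₁ * ((1 / 2) ^ ((d + 2) * l) * (1 / 2) ^ j) := by
      intro j hj1 hj2
      have hpw : 1 ≤ 2 ^ (11 + 2 * I) := Nat.one_le_two_pow
      have h1 := hwin 0 0 1 𝓜 hG l i j (i + 1 - j) c D A β hl3 (by omega) hj1 hA hAD (by
        intro hk u hu
        have h2 := hW (i + 1 - j - 1) (by omega) (10 * (l + j)) (by omega) (by omega) u (by
          have h3 := norm_le_norm_add_norm_sub' u c
          rw [← dist_eq_norm] at h3
          push_cast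
          have h4 : (2 : ℝ) ^ (11 + l + i) ≤ 2 ^ (11 + 2 * I) :=
            pow_le_pow_right₀ (by norm_num) (by omega)
          have h5 : (0 : ℝ) ≤ I := Nat.cast_nonneg I
          linarith)
        exact h2)
      have e1 : (if j ≤ i + 1 then (2 : ℝ) ^ (i + 1 - j) else 0) = 2 ^ (i + 1 - j) := if_pos hj2
      have e2 : (if j + 1 ≤ i + 1 then (2 : ℝ) ^ (i + 1 - (j + 1)) else 0) =
          if 1 ≤ i + 1 - j then 2 ^ (i + 1 - j - 1) else 0 := by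
        by_cases h : j + 1 ≤ i + 1
        · rw [if_pos h, if_pos (by omega)]; congr 1
        · rw [if_neg h, if_neg (by omega)]
      rw [hF]
      simp only
      rw [e1, e2]
      exact h1
    have hsum : ∀ m, m ≤ i + 1 → pr 𝓜.a p (fun ω => ¬ F 1 ω) ≤ pr 𝓜.a p (fun ω => ¬ F (m + 1) ω) +
        ∑ j ∈ Finset.range m, C₁ * ((1 / 2) ^ ((d + 2) * l) * (1 / 2) ^ (j + 1)) := by
      intro m
      induction m with
      | zero => intro _; simp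
      | succ m ih =>
        intro hm
        refine (ih (by omega)).trans ?_
        have h1 : pr 𝓜.a p (fun ω => ¬ F (m + 1) ω) ≤ pr 𝓜.a p (fun ω => ¬ F (m + 1 + 1) ω) +
            pr 𝓜.a p (fun ω => F (m + 1 + 1) ω ∧ ¬ F (m + 1) ω) := by
          refine le_trans (pr_mono hpar ?_) (pr_or_le hpar _ _)
          intro ω hω
          by_cases h : F (m + 1 + 1) ω
          · exact Or.inr ⟨h, hω⟩
          · exact Or.inl h
        have h2 := hstep (m + 1) (by omega) hm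
        rw [Finset.sum_range_succ]
        linarith
    have h1 := hsum (i + 1) le_rfl
    have h2 : pr 𝓜.a p (fun ω => ¬ F (i + 1 + 1) ω) = 0 := by
      have h3 : ∀ ω, F (i + 1 + 1) ω := by
        intro ω
        rw [hF]
        simp only
        rw [if_neg (by omega)]
        intro s _ j hj
        exact absurd hj (not_lt.2 dist_nonneg)
      unfold pr
      simp only [h3, not_true]
      rw [ind_false (A := False) (fun h => h)]
      exact ex_const _ _ _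
    have h3 : ∑ j ∈ Finset.range (i + 1), C₁ * ((1 / 2 : ℝ) ^ ((d + 2) * l) * (1 / 2) ^ (j + 1)) ≤
        C₁ * (1 / 2) ^ ((d + 2) * l) := by
      rw [← Finset.mul_sum, ← Finset.mul_sum]
      refine mul_le_mul_of_nonneg_left ?_ hC₁.le
      have h4 : ∀ m : ℕ, ∑ j ∈ Finset.range m, (1 / 2 : ℝ) ^ (j + 1) = 1 - (1 / 2) ^ m := by
        intro m
        induction m with
        | zero => simp
        | succ m ih => rw [Finset.sum_range_succ, ih, pow_succ]; ring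
      rw [h4]
      have h5 : (0 : ℝ) ≤ (1 / 2) ^ (i + 1) := by positivity
      have h6 : (0 : ℝ) ≤ (1 / 2) ^ ((d + 2) * l) := by positivity
      nlinarith
    have h4 : pr 𝓜.a p (fun ω => ¬ Agree 𝓜.x (mix D ω β) ω A (2 ^ i)) ≤
        pr 𝓜.a p (fun ω => ¬ F 1 ω) := by
      refine pr_mono hpar fun ω hω hF1 => hω ?_
      rw [hF] at hF1
      have hF1 : Agree 𝓜.x (mix D ω β) ω (Nb 𝓜.x A (sg l i 1))
        (if 1 ≤ i + 1 then 2 ^ (i + 1 - 1) else 0) := hF1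
      rw [if_pos (by omega)] at hF1
      exact hF1.mono (subset_Nb (sg_nonneg l i 1)) (by simp)
    calc pr 𝓜.a p (fun ω => ¬ Agree 𝓜.x (mix D ω β) ω A (2 ^ i)) ≤ C₁ * (1 / 2) ^ ((d + 2) * l) := by
          linarith
      _ ≤ _ := mul_le_mul_of_nonneg_right (le_max_left _ _) (by positivity)

end main

end Pool.Agent.Lib_helper33.ASM
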