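import Pool.Agent.Lib_helper33.ASM.Stmts

/-!
# Module LOC, part 1: one window, deterministic part
-/

set_option autoImplicit false

open scoped BigOperators

namespace Pool.Agent.Lib_helper33.ASM

section window

variable {ι : Type*} {E : Type*} [MetricSpace E] {x : ι → E}

/-- the sites within distance `σ` of `A` -/
def Nb (x : ι → E) (A : Set ι) (σ : ℝ) : Set ι := {s | ∃ s₀ ∈ A, dist (x s) (x s₀) ≤ σ}

/-- the sites all of whose `r'`-neighbours are in `B` -/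
def Gi (x : ι → E) (B : Set ι) (r' : ℝ) : Set ι := {s | ∀ k, dist (x s) (x k) < r' → k ∈ B}

lemma Nb.mono {A : Set ι} {σ σ' : ℝ} (h : σ ≤ σ') : Nb x A σ ⊆ Nb x A σ' :=
  fun _ ⟨s₀, h1, h2⟩ => ⟨s₀, h1, h2.trans h⟩

lemma subset_Nb {A : Set ι} {σ : ℝ} (h : 0 ≤ σ) : A ⊆ Nb x A σ :=
  fun s hs => ⟨s, hs, by simpa using h⟩

lemma Nb_step {A : Set ι} {σ σ' : ℝ} {s k : ι} (hs : s ∈ Nb x A σ)
    (h : dist (x s) (x k) ≤ σ' - σ) : k ∈ Nb x A σ' := by
  obtain ⟨s₀, h1, h2⟩ := hs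
  refine ⟨s₀, h1, ?_⟩
  have := dist_triangle (x k) (x s) (x s₀)
  rw [dist_comm (x k) (x s)] at this
  linarith

lemma Gi_subset {B : Set ι} {r' : ℝ} (hr' : 0 < r') : Gi x B r' ⊆ B :=
  fun s hs => hs s (by simpa using hr')

lemma mix_apply_mem {D : Set ι} {ω β : Cfg ι} {i : ι} (h : i ∈ D) : mix D ω β i = ω i := by
  simp [mix, h]

lemma mix_apply_not_mem {D : Set ι} {ω β : Cfg ι} {i : ι} (h : i ∉ D) : mix D ω β i = β i := by
  simp [mix, h]

lemma dp_ancestor {ω ω' : Cfg ι} {G : Set ι} {r' : ℝ} {m n : ℕ} {z : ι}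
    (h : DP x ω ω' G r' (n + m) z) : ∃ z', DP x ω ω' G r' n z' := by
  induction m generalizing z with
  | zero => exact ⟨z, h⟩
  | succ m ih =>
    obtain ⟨_, k, _, _, hk⟩ := h
    exact ih hk

variable [Finite ι]

lemma window (hx : Gen x) {D A : Set ι} {σ σ' r' : ℝ} {ω β : Cfg ι} (hD : Nb x A σ' ⊆ D)
    (hr' : 0 < r') (hσ : r' ≤ σ' - σ)
    (hn : ¬ Agree x (mix D ω β) ω (Nb x A σ) r') (N : ℕ)
    (hN : (2 * N + 1 : ℝ) ≤ 1 ∨ (2 * N + 1 : ℝ) ≤ (σ' - σ) / r' - 1) :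
    ∃ z, DP x (mix D ω β) ω (Gi x (Nb x A σ') r') r' (2 * N + 1) z := by
  unfold Agree at hn
  push Not at hn
  obtain ⟨z, hz, j, hj, hne⟩ := hn
  have hne' : ¬ (mt x (mix D ω β) z j ↔ mt x ω z j) := by
    intro h
    rcases hne with h1 | h1
    · exact h1.2 (h.1 h1.1)
    · exact h1.1 (h.2 h1.2)
  obtain ⟨k, hk, hkd⟩ := exists_pred hx hne'
  have hkr : dist (x z) (x k) < r' := hkd.trans_lt hj
  have hG : ∀ i ∈ Gi x (Nb x A σ') r', ∀ k, dist (x i) (x k) < r' → mix D ω β k = ω k :=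
    fun i hi k hk => mix_apply_mem (hD (hi k hk))
  have hzG : z ∈ Gi x (Nb x A σ') r' := fun s hs => Nb_step hz (hs.le.trans hσ)
  obtain ⟨n, hn⟩ := exists_dp hx hG hr' hzG hk hkr
  have hdepth : σ' - σ - r' ≤ ((n + 1 : ℕ) : ℝ) * r' := by
    refine dp_depth hr'.le hn ?_
    intro s hs l hl
    refine Nb_step hz ?_
    have := dist_triangle (x z) (x s) (x l)
    linarith
  have hn1 : 2 * N + 1 ≤ n + 1 := by
    rcases hN with hN | hN
    · have : (N : ℝ) ≤ 0 := by linarith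
      have : N = 0 := by
        have h0 : (0 : ℝ) ≤ N := Nat.cast_nonneg N
        exact_mod_cast le_antisymm this h0
      omega
    · have h1 : (σ' - σ) / r' - 1 ≤ ((n + 1 : ℕ) : ℝ) := by
        rw [sub_le_iff_le_add, div_le_iff₀ hr']
        linarith
      have h2 := hN.trans h1
      exact_mod_cast h2
  obtain ⟨m, hm⟩ := Nat.exists_eq_add_of_le hn1
  rw [hm] at hn
  exact dp_ancestor hn

/-- discrepancies in `G` are unmatched before `r` in `ω` -/
lemma un_of_dp {D B : Set ι} {r r' : ℝ} {ω β : Cfg ι} (hD : B ⊆ D) (hr' : 0 < r')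
    (hag : Agree x (mix D ω β) ω B r) {n : ℕ} {z : ι}
    (h : DP x (mix D ω β) ω (Gi x B r') r' (n + 1) z) :
    z ∈ Gi x B r' ∧ Un x ω r z := by
  obtain ⟨hz, k, hk, hkr, -⟩ := h
  refine ⟨hz, ?_⟩
  have hzB : z ∈ B := Gi_subset hr' hz
  have hge : r ≤ dist (x z) (x k) := pred_dist_ge hag hzB hk
  have hzD : mix D ω β z = ω z := mix_apply_mem (hD hzB)
  constructor
  · rcases hk with hk | hk
    · have := (mt_ok hk.1).2.1
      rwa [hzD] at this
    · exact (mt_ok hk.1).2.1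
  · rintro ⟨l, hl, hlr⟩
    rcases hk with hk | hk
    · have := hk.2 l hl
      linarith
    · -- `ω` matches `z` to `k` and to `l`
      have h1 := (mt_isKer x ω z l).1 hl
      have h2 := (mt_isKer x ω z k).1 hk.1
      have h3 := (h1.2 k).1 hk.1
      have h4 := (h2.2 l).1 hl
      linarith

end window

end Pool.Agent.Lib_helper33.ASM
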