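import Pool.Agent.Lib_helper33.ASM.LOC1

/-!
# Module LOC, part 2: one window, probabilistic part
-/

set_option autoImplicit false

open scoped BigOperators

namespace Pool.Agent.Lib_helper33.ASM

section window

variable {d : ℕ} {ι : Type} [Fintype ι] [DecidableEq ι] {x : ι → Sp d} {a p : ℝ}

lemma same_ins {ω : Cfg ι} {z : ι} {b : Bool} {r : ℝ} (hz : ω z = none)
    (h : Un x (ins ω z b) r z) : Same x ω (ins ω z b) r := by
  have h1 : er (ins ω z b) {z} = ω := by
    funext i
    by_cases hi : i = z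
    · subst hi; simp [er, hz]
    · simp [er, ins, hi]
  have h2 : Same x (er (ins ω z b) {z}) (ins ω z b) r := same_er (by
    intro s hs
    rw [Set.mem_singleton_iff] at hs
    subst hs; exact h)
  rwa [h1] at h2

lemma fm_ins {ω : Cfg ι} {z : ι} {b : Bool} {r : ℝ} (hz : ω z = none)
    (h : Un x (ins ω z b) r z) (s : ι) : FM x ω r s ↔ FM x (ins ω z b) r s := by
  refine fm_congr (same_ins hz h) (fun y hy => ?_) s
  have : y ≠ z := by
    rintro rfl
    exact bf_of_none hz hy
  simp [ins, this]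

lemma ex_un_le (h : Par a p) (hx : Gen x) {G : Set ι} {r r' lam : ℝ} :
    ex a p (fun ω => ind (Wc x a ω G r r' lam) * cnt fun z => z ∈ G ∧ Un x ω r z) ≤
      2 * a * ex a p (fun ω => ind (Wc x a ω G r r' lam) * cnt fun z => z ∈ G ∧ FM x ω r z) := by
  have key : ∀ z, ex a p (fun ω => ind (Wc x a ω G r r' lam) * ind (z ∈ G ∧ Un x ω r z)) ≤
      2 * a * ex a p (fun ω => ind (Wc x a ω G r r' lam) * ind (z ∈ G ∧ FM x ω r z)) := by
    intro z
    have h1 : ∀ ω : Cfg ι, ind (Wc x a ω G r r' lam) * ind (z ∈ G ∧ Un x ω r z) =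
        ind (ω z = some true) * (ind (Wc x a ω G r r' lam) * ind (z ∈ G ∧ Un x ω r z)) +
        ind (ω z = some false) * (ind (Wc x a ω G r r' lam) * ind (z ∈ G ∧ Un x ω r z)) := by
      intro ω
      rcases ho : ω z with _ | b
      · have : ¬ (z ∈ G ∧ Un x ω r z) := fun h => h.2.1 ho
        rw [ind_false this]; simp
      · cases b
        · rw [ind_true (A := (some false = some false)) rfl,
            ind_false (A := (some false = some true)) (by simp)]; ring
        · rw [ind_true (A := (some true = some true)) rfl,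
            ind_false (A := (some true = some false)) (by simp)]; ring
    have h2 : ∀ b : Bool, ex a p (fun ω => ind (ω z = some b) *
        (ind (Wc x a ω G r r' lam) * ind (z ∈ G ∧ Un x ω r z))) ≤
        a * (if b then p else 1 - p) / (1 - a) *
          ex a p (fun ω => ind (Wc x a ω G r r' lam) * ind (z ∈ G ∧ FM x ω r z)) := by
      intro b
      rw [mecke h z b]
      have hc : 0 ≤ a * (if b then p else 1 - p) / (1 - a) := by
        have h3 := h.a_pos; have h4 := h.a_half; have h5 := h.p_pos; have h6 := h.p_lt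
        apply div_nonneg
        · apply mul_nonneg h3.le
          split_ifs <;> linarith
        · linarith
      refine mul_le_mul_of_nonneg_left (ex_mono h fun ω => ?_) hc
      by_cases hz : ω z = none
      · rw [ind_true hz, one_mul]
        by_cases hu : z ∈ G ∧ Un x (ins ω z b) r z
        · have hfm : ∀ s, FM x ω r s ↔ FM x (ins ω z b) r s := fm_ins hz hu.2
          have e1 : Wc x a (ins ω z b) G r r' lam ↔ Wc x a ω G r r' lam := by
            unfold Wc
            simp only [hfm]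
          have e2 : z ∈ G ∧ FM x ω r z := ⟨hu.1, (hfm z).2 (Un.fm hx hu.2)⟩
          rw [ind_true hu, ind_true e2, mul_one, mul_one]
          exact ind_mono e1.1
        · rw [ind_false hu, mul_zero]
          exact mul_nonneg (ind_nonneg _) (ind_nonneg _)
      · rw [ind_false hz, zero_mul]
        exact mul_nonneg (ind_nonneg _) (ind_nonneg _)
    calc ex a p (fun ω => ind (Wc x a ω G r r' lam) * ind (z ∈ G ∧ Un x ω r z))
        = ex a p (fun ω => ind (ω z = some true) * (ind (Wc x a ω G r r' lam) *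
            ind (z ∈ G ∧ Un x ω r z)) + ind (ω z = some false) *
            (ind (Wc x a ω G r r' lam) * ind (z ∈ G ∧ Un x ω r z))) := by
          congr 1; funext ω; exact h1 ω
      _ = _ := ex_add _ _
      _ ≤ a * (if (true : Bool) then p else 1 - p) / (1 - a) *
          ex a p (fun ω => ind (Wc x a ω G r r' lam) * ind (z ∈ G ∧ FM x ω r z)) +
          a * (if (false : Bool) then p else 1 - p) / (1 - a) *
          ex a p (fun ω => ind (Wc x a ω G r r' lam) * ind (z ∈ G ∧ FM x ω r z)) :=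
          add_le_add (h2 true) (h2 false)
      _ = a / (1 - a) *
          ex a p (fun ω => ind (Wc x a ω G r r' lam) * ind (z ∈ G ∧ FM x ω r z)) := by
          simp only [if_true]
          simp
          ring
      _ ≤ _ := by
          refine mul_le_mul_of_nonneg_right ?_ (ex_nonneg h fun ω =>
            mul_nonneg (ind_nonneg _) (ind_nonneg _))
          have h3 := h.a_pos; have h4 := h.a_half
          rw [div_le_iff₀ (by linarith)]
          nlinarith
  calc ex a p (fun ω => ind (Wc x a ω G r r' lam) * cnt fun z => z ∈ G ∧ Un x ω r z)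
      = ex a p (fun ω => ∑ z, ind (Wc x a ω G r r' lam) * ind (z ∈ G ∧ Un x ω r z)) := by
        congr 1; funext ω; rw [cnt_eq_sum, Finset.mul_sum]
    _ = ∑ z, ex a p (fun ω => ind (Wc x a ω G r r' lam) * ind (z ∈ G ∧ Un x ω r z)) :=
        ex_sum _ _
    _ ≤ ∑ z, 2 * a * ex a p (fun ω => ind (Wc x a ω G r r' lam) * ind (z ∈ G ∧ FM x ω r z)) :=
        Finset.sum_le_sum fun z _ => key z
    _ = 2 * a * ex a p (fun ω => ∑ z, ind (Wc x a ω G r r' lam) * ind (z ∈ G ∧ FM x ω r z)) := by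
        rw [← Finset.mul_sum, ex_sum]
    _ = _ := by
        congr 2; funext ω; rw [cnt_eq_sum, Finset.mul_sum]

lemma cnt_fm_le (ha : 0 < a) {ω : Cfg ι} {G : Set ι} {r r' lam : ℝ} (hlam : 0 ≤ lam)
    (hr' : 0 < r') (hW : Wc x a ω G r r' lam) (Nn : Finset (Sp d))
    (hN : ∀ z ∈ G, ∃ u ∈ Nn, dist (x z) u ≤ r' / 4) :
    a * (cnt fun z => z ∈ G ∧ FM x ω r z) ≤ Nn.card * lam := by
  have h1 : (cnt fun z => z ∈ G ∧ FM x ω r z) ≤
      ∑ u ∈ Nn, cnt (fun z => z ∈ G ∧ FM x ω r z ∧ dist (x z) u ≤ r' / 4) := by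
    refine le_trans (cnt_mono ?_) (cnt_exists_le Nn
      (fun u z => z ∈ G ∧ FM x ω r z ∧ dist (x z) u ≤ r' / 4))
    rintro z ⟨hz, hf⟩
    obtain ⟨u, hu, hd⟩ := hN z hz
    exact ⟨u, hu, hz, hf, hd⟩
  have h2 : ∀ u ∈ Nn, a * cnt (fun z => z ∈ G ∧ FM x ω r z ∧ dist (x z) u ≤ r' / 4) ≤ lam := by
    intro u _
    by_cases hex : ∃ z₀ ∈ G, dist (x z₀) u ≤ r' / 4
    · obtain ⟨z₀, hz₀, hd₀⟩ := hex
      refine le_trans (mul_le_mul_of_nonneg_left (cnt_mono ?_) ha.le) (hW z₀ hz₀)
      rintro z ⟨_, hf, hd⟩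
      refine ⟨?_, hf⟩
      have := dist_triangle_right (x z₀) (x z) u
      linarith
    · have : cnt (fun z => z ∈ G ∧ FM x ω r z ∧ dist (x z) u ≤ r' / 4) = 0 := by
        refine le_antisymm ?_ (cnt_nonneg _)
        have h3 : cnt (fun z => z ∈ G ∧ FM x ω r z ∧ dist (x z) u ≤ r' / 4) ≤
            cnt (fun _ : ι => False) := by
          refine cnt_mono ?_
          rintro z ⟨hz, _, hd⟩
          exact hex ⟨z, hz, hd⟩
        refine h3.trans ?_
        simp [cnt]
      rw [this, mul_zero]; exact hlam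
  calc a * (cnt fun z => z ∈ G ∧ FM x ω r z)
      ≤ a * ∑ u ∈ Nn, cnt (fun z => z ∈ G ∧ FM x ω r z ∧ dist (x z) u ≤ r' / 4) :=
        mul_le_mul_of_nonneg_left h1 ha.le
    _ = ∑ u ∈ Nn, a * cnt (fun z => z ∈ G ∧ FM x ω r z ∧ dist (x z) u ≤ r' / 4) :=
        Finset.mul_sum _ _ _
    _ ≤ ∑ _u ∈ Nn, lam := Finset.sum_le_sum h2
    _ = Nn.card * lam := by rw [Finset.sum_const, nsmul_eq_mul]

/-- one window -/
lemma window_prob (hDEC : StmtDEC) (h : Par a p) (hx : Gen x) {D A : Set ι} {β : Cfg ι}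
    {σ σ' r r' lam Cst : ℝ} (hD : Nb x A σ' ⊆ D) (hr : 0 ≤ r) (hrr : r < r')
    (hσ : r' ≤ σ' - σ) (hlam : 0 ≤ lam)
    (hC : (0 < r ∧ r' = 2 * r ∧ (1 + p / (1 - p)) * (1 + 2 * lam) ^ (5 ^ d) ≤ Cst) ∨
      (1 + p / (1 - p)) * Real.exp (2 * lam) ≤ Cst) (N : ℕ)
    (hN : (2 * N + 1 : ℝ) ≤ 1 ∨ (2 * N + 1 : ℝ) ≤ (σ' - σ) / r' - 1)
    (Nn : Finset (Sp d)) (hNn : ∀ z ∈ Nb x A σ', ∃ u ∈ Nn, dist (x z) u ≤ r' / 4) :
    pr a p (fun ω => Agree x (mix D ω β) ω (Nb x A σ') r ∧
      ¬ Agree x (mix D ω β) ω (Nb x A σ) r') ≤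
      pr a p (fun ω => ¬ Wc x a ω (Gi x (Nb x A σ') r') r r' lam) +
        (Cst / (1 + Cst)) ^ N * (2 * Nn.card * lam) := by
  set B := Nb x A σ' with hB
  set G := Gi x B r' with hG
  have hr' : 0 < r' := hr.trans_lt hrr
  have hq : 0 ≤ p / (1 - p) := div_nonneg h.p_pos.le (by linarith [h.p_lt])
  have hCst : 0 ≤ Cst := by
    rcases hC with hC | hC
    · exact le_trans (by positivity) hC.2.2
    · exact le_trans (by positivity) hC
  -- pointwise
  have h1 : ∀ ω : Cfg ι, ind (Agree x (mix D ω β) ω B r ∧ ¬ Agree x (mix D ω β) ω (Nb x A σ) r') ≤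
      ind (¬ Wc x a ω G r r' lam) + ind (Agree x (mix D ω β) ω B r ∧ Wc x a ω G r r' lam) *
        cnt fun z => DP x (mix D ω β) ω G r' (2 * N + 1) z := by
    intro ω
    by_cases hA : Agree x (mix D ω β) ω B r ∧ ¬ Agree x (mix D ω β) ω (Nb x A σ) r'
    · by_cases hW : Wc x a ω G r r' lam
      · obtain ⟨z, hz⟩ := window hx hD hr' hσ hA.2 N hN
        rw [ind_true hA, ind_false (not_not.2 hW), ind_true ⟨hA.1, hW⟩, zero_add, one_mul]
        have := ind_exists_le_cnt (fun z => DP x (mix D ω β) ω G r' (2 * N + 1) z)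
        rw [ind_true ⟨z, hz⟩] at this
        exact this
      · rw [ind_true hA, ind_true hW]
        have : 0 ≤ ind (Agree x (mix D ω β) ω B r ∧ Wc x a ω G r r' lam) *
          cnt fun z => DP x (mix D ω β) ω G r' (2 * N + 1) z :=
          mul_nonneg (ind_nonneg _) (cnt_nonneg _)
        linarith
    · rw [ind_false hA]
      exact add_nonneg (ind_nonneg _) (mul_nonneg (ind_nonneg _) (cnt_nonneg _))
  have h2 := hDEC d ι x hx a p h.a_pos h.a_half h.p_pos h.p_lt D B G β r r' lam Cst hD hr hrr hlam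
    (fun i hi k hk => hi k hk) hC N
  have h3 : ex a p (fun ω => ind (Agree x (mix D ω β) ω B r ∧ Wc x a ω G r r' lam) *
      cnt fun z => DP x (mix D ω β) ω G r' 1 z) ≤ 2 * Nn.card * lam := by
    calc ex a p (fun ω => ind (Agree x (mix D ω β) ω B r ∧ Wc x a ω G r r' lam) *
          cnt fun z => DP x (mix D ω β) ω G r' 1 z)
        ≤ ex a p (fun ω => ind (Wc x a ω G r r' lam) * cnt fun z => z ∈ G ∧ Un x ω r z) := by
          refine ex_mono h fun ω => ?_
          by_cases hA : Agree x (mix D ω β) ω B r ∧ Wc x a ω G r r' lam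
          · rw [ind_true hA, ind_true hA.2, one_mul, one_mul]
            exact cnt_mono fun z hz => un_of_dp hD hr' hA.1 (n := 0) hz
          · rw [ind_false hA, zero_mul]
            exact mul_nonneg (ind_nonneg _) (cnt_nonneg _)
      _ ≤ 2 * a * ex a p (fun ω => ind (Wc x a ω G r r' lam) *
            cnt fun z => z ∈ G ∧ FM x ω r z) := ex_un_le h hx
      _ = 2 * ex a p (fun ω => a * (ind (Wc x a ω G r r' lam) *
            cnt fun z => z ∈ G ∧ FM x ω r z)) := by
          rw [ex_mul_left]; ring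
      _ ≤ 2 * ex a p (fun _ : Cfg ι => (Nn.card * lam : ℝ)) := by
          refine mul_le_mul_of_nonneg_left (ex_mono h fun ω => ?_) (by norm_num)
          by_cases hW : Wc x a ω G r r' lam
          · rw [ind_true hW, one_mul]
            exact cnt_fm_le h.a_pos hlam hr' hW Nn (fun z hz => hNn z (Gi_subset hr' hz))
          · rw [ind_false hW, zero_mul, mul_zero]
            positivity
      _ = 2 * Nn.card * lam := by rw [ex_const]; ring
  calc pr a p (fun ω => Agree x (mix D ω β) ω B r ∧ ¬ Agree x (mix D ω β) ω (Nb x A σ) r')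
      ≤ ex a p (fun ω => ind (¬ Wc x a ω G r r' lam) +
        ind (Agree x (mix D ω β) ω B r ∧ Wc x a ω G r r' lam) *
        cnt fun z => DP x (mix D ω β) ω G r' (2 * N + 1) z) := ex_mono h h1
    _ = pr a p (fun ω => ¬ Wc x a ω G r r' lam) +
        ex a p (fun ω => ind (Agree x (mix D ω β) ω B r ∧ Wc x a ω G r r' lam) *
        cnt fun z => DP x (mix D ω β) ω G r' (2 * N + 1) z) := ex_add _ _
    _ ≤ _ := by
        refine add_le_add le_rfl (h2.trans ?_)
        exact mul_le_mul_of_nonneg_left h3 (by positivity)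

end window

end Pool.Agent.Lib_helper33.ASM
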