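import Pool.Agent.Lib_helper33.ASM.X2

/-!
# Finite expectation calculus, part 3: the cost of surgeries
-/

set_option autoImplicit false
set_option linter.unusedSectionVars false
set_option linter.unusedVariables false

open scoped BigOperators

namespace Pool.Agent.Lib_helper33.ASM

section x

variable {ι : Type*} [Fintype ι] [DecidableEq ι] {a p : ℝ}

/-! ### auxiliary facts -/

lemma X3.wt_nonneg' (h : Par a p) (o : Option Bool) : 0 ≤ wt a p o := by
  have h1 := h.a_pos
  have h2 := h.a_half
  have h3 := h.p_pos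
  have h4 := h.p_lt
  match o with
  | none => simp only [wt]; linarith
  | some true => simp only [wt]; positivity
  | some false => simp only [wt]; exact mul_nonneg h1.le (by linarith)

lemma X3.pw_nonneg' (h : Par a p) (ω : Cfg ι) : 0 ≤ pw a p ω :=
  Finset.prod_nonneg fun i _ => X3.wt_nonneg' h (ω i)

/-- sum of the weights over a box -/
lemma X3.sum_box (a p : ℝ) (t : ι → Finset (Option Bool)) :
    ∑ ω ∈ Fintype.piFinset t, pw a p ω = ∏ i, ∑ o ∈ t i, wt a p o := by
  rw [Finset.prod_univ_sum]
  rfl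

open Classical in
/-- abstract cost inequality -/
lemma X3.cost_abs (h : Par a p) (supp : Finset (Cfg ι)) (Φ : Cfg ι → Cfg ι) (g K : Cfg ι → ℝ)
    (hg : ∀ ω, 0 ≤ g ω)
    (hK : ∀ ω', 0 < g ω' → ∑ ω ∈ supp.filter (fun ω => Φ ω = ω'), pw a p ω ≤ K ω' * pw a p ω') :
    ∑ ω ∈ supp, pw a p ω * g (Φ ω) ≤ ex a p (fun ω => g ω * K ω) := by
  calc ∑ ω ∈ supp, pw a p ω * g (Φ ω)
      = ∑ ω' : Cfg ι, ∑ ω ∈ supp.filter (fun ω => Φ ω = ω'), pw a p ω * g (Φ ω) :=
        (Finset.sum_fiberwise supp Φ _).symm
    _ ≤ ∑ ω' : Cfg ι, pw a p ω' * (g ω' * K ω') := by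
        refine Finset.sum_le_sum fun ω' _ => ?_
        have e1 : ∑ ω ∈ supp.filter (fun ω => Φ ω = ω'), pw a p ω * g (Φ ω) =
            (∑ ω ∈ supp.filter (fun ω => Φ ω = ω'), pw a p ω) * g ω' := by
          rw [Finset.sum_mul]
          refine Finset.sum_congr rfl fun ω hω => ?_
          rw [(Finset.mem_filter.1 hω).2]
        rw [e1]
        rcases (hg ω').eq_or_lt with h0 | h0
        · rw [← h0]; simp
        · calc (∑ ω ∈ supp.filter (fun ω => Φ ω = ω'), pw a p ω) * g ω'
              ≤ (K ω' * pw a p ω') * g ω' := mul_le_mul_of_nonneg_right (hK ω' h0) h0.le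
            _ = pw a p ω' * (g ω' * K ω') := by ring
    _ = ex a p (fun ω => g ω * K ω) := rfl

lemma X3.one_le_exp_mul (h : Par a p) : 1 ≤ (1 - a) * Real.exp (2 * a) := by
  have h1 := h.a_pos
  have h2 := h.a_half
  have h3 := Real.add_one_le_exp (2 * a)
  have h4 : (1 - a) * (2 * a + 1) ≤ (1 - a) * Real.exp (2 * a) :=
    mul_le_mul_of_nonneg_left h3 (by linarith)
  nlinarith

/-- cost of erasing: if every `ω` of `P` becomes, after erasing the points of `S ω`, an element of
`P'` and `S ω` lies in the set `F` of the new configuration -/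
lemma erase_cost (h : Par a p) (f g : Cfg ι → ℝ) (hg : ∀ ω, 0 ≤ g ω) (S F : Cfg ι → Finset ι)
    (hS : ∀ ω, 0 < f ω → f ω ≤ g (er ω (S ω)) ∧ S ω ⊆ F (er ω (S ω)) ∧ ∀ s ∈ S ω, ω s ≠ none) :
    ex a p f ≤ ex a p (fun ω => g ω * Real.exp (2 * a * (F ω).card)) := by
  classical
  have h1 := h.a_pos
  have h2 := h.a_half
  set supp : Finset (Cfg ι) := Finset.univ.filter fun ω => 0 < f ω with hsupp
  have hle : ex a p f ≤ ∑ ω ∈ supp, pw a p ω * g (er ω (S ω)) := by
    have e1 : ex a p f = ∑ ω ∈ supp, pw a p ω * f ω +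
        ∑ ω ∈ Finset.univ.filter (fun ω => ¬ 0 < f ω), pw a p ω * f ω := by
      rw [hsupp, Finset.sum_filter_add_sum_filter_not]
      rfl
    have e2 : ∑ ω ∈ Finset.univ.filter (fun ω => ¬ 0 < f ω), pw a p ω * f ω ≤ 0 := by
      refine Finset.sum_nonpos fun ω hω => ?_
      have := (Finset.mem_filter.1 hω).2
      exact mul_nonpos_of_nonneg_of_nonpos (X3.pw_nonneg' h ω) (not_lt.1 this)
    have e3 : ∑ ω ∈ supp, pw a p ω * f ω ≤ ∑ ω ∈ supp, pw a p ω * g (er ω (S ω)) := by
      refine Finset.sum_le_sum fun ω hω => ?_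
      exact mul_le_mul_of_nonneg_left (hS ω (Finset.mem_filter.1 hω).2).1 (X3.pw_nonneg' h ω)
    linarith
  refine hle.trans (X3.cost_abs h supp (fun ω => er ω (S ω)) g _ hg fun ω' _ => ?_)
  -- the box
  set t : ι → Finset (Option Bool) := fun i =>
    if i ∈ F ω' ∧ ω' i = none then Finset.univ else {ω' i} with ht
  have hsub : supp.filter (fun ω => er ω (S ω) = ω') ⊆ Fintype.piFinset t := by
    intro ω hω
    obtain ⟨hω1, hω2⟩ := Finset.mem_filter.1 hω
    have hω3 := hS ω (Finset.mem_filter.1 hω1).2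
    rw [hω2] at hω3
    refine Fintype.mem_piFinset.2 fun i => ?_
    by_cases hi : i ∈ S ω
    · have : ω' i = none := by rw [← hω2]; simp [er, hi]
      simp [ht, this, hω3.2.1 hi]
    · have : ω' i = ω i := by rw [← hω2]; simp [er, hi]
      by_cases hF : i ∈ F ω' ∧ ω' i = none
      · simp [ht, hF]
      · simp only [ht, if_neg hF, Finset.mem_singleton]
        exact this.symm
  calc ∑ ω ∈ supp.filter (fun ω => er ω (S ω) = ω'), pw a p ω
      ≤ ∑ ω ∈ Fintype.piFinset t, pw a p ω :=
        Finset.sum_le_sum_of_subset_of_nonneg hsub fun ω _ _ => X3.pw_nonneg' h ω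
    _ = ∏ i, ∑ o ∈ t i, wt a p o := X3.sum_box a p t
    _ ≤ ∏ i, ((if i ∈ F ω' then Real.exp (2 * a) else 1) * wt a p (ω' i)) := by
        refine Finset.prod_le_prod (fun i _ => Finset.sum_nonneg fun o _ => X3.wt_nonneg' h o)
          fun i _ => ?_
        by_cases hF : i ∈ F ω' ∧ ω' i = none
        · have hs : ∑ o ∈ t i, wt a p o = 1 := by
            simp only [ht, if_pos hF]
            rw [Fintype.sum_option]
            simp [wt]
            ring
          rw [hs, if_pos hF.1, hF.2]
          have := X3.one_le_exp_mul h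
          simp only [wt]
          linarith
        · have hs : ∑ o ∈ t i, wt a p o = wt a p (ω' i) := by
            simp [ht, if_neg hF]
          rw [hs]
          have h0 := X3.wt_nonneg' h (ω' i)
          split_ifs
          · exact le_mul_of_one_le_left h0 (Real.one_le_exp (by linarith))
          · simp
    _ = Real.exp (2 * a * (F ω').card) * pw a p ω' := by
        rw [Finset.prod_mul_distrib]
        congr 1
        rw [Finset.prod_ite_mem, Finset.univ_inter, Finset.prod_const, ← Real.exp_nat_mul]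
        congr 1
        ring

/-- sum over the small subsets -/
lemma X3.sum_small (F : Finset ι) (ρ : ℝ) (hρ : 0 ≤ ρ) (N : ℕ) :
    ∑ T ∈ F.powerset.filter (fun T => T.card ≤ N), ρ ^ T.card ≤ (1 + F.card * ρ) ^ N := by
  rw [Finset.sum_filter]
  rw [Finset.sum_powerset_apply_card (fun m => if m ≤ N then ρ ^ m else 0)]
  calc ∑ m ∈ Finset.range (F.card + 1), (F.card.choose m) • (if m ≤ N then ρ ^ m else 0)
      ≤ ∑ m ∈ Finset.range (N + 1), ((F.card : ℝ) * ρ) ^ m * 1 ^ (N - m) * (N.choose m : ℝ) := by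
        have e1 : ∑ m ∈ Finset.range (F.card + 1),
            (F.card.choose m) • (if m ≤ N then ρ ^ m else 0) =
            ∑ m ∈ (Finset.range (F.card + 1)).filter (fun m => m ≤ N),
              (F.card.choose m : ℝ) * ρ ^ m := by
          rw [Finset.sum_filter]
          refine Finset.sum_congr rfl fun m _ => ?_
          split_ifs <;> simp
        rw [e1]
        calc ∑ m ∈ (Finset.range (F.card + 1)).filter (fun m => m ≤ N),
              (F.card.choose m : ℝ) * ρ ^ m
            ≤ ∑ m ∈ Finset.range (N + 1), (F.card.choose m : ℝ) * ρ ^ m := by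
              refine Finset.sum_le_sum_of_subset_of_nonneg ?_ fun m _ _ => by positivity
              intro m hm
              have := (Finset.mem_filter.1 hm).2
              exact Finset.mem_range.2 (by omega)
          _ ≤ _ := by
              refine Finset.sum_le_sum fun m hm => ?_
              have hm' : m ≤ N := Nat.lt_succ_iff.1 (Finset.mem_range.1 hm)
              have h1 : (F.card.choose m : ℝ) ≤ (F.card : ℝ) ^ m := by
                exact_mod_cast Nat.choose_le_pow F.card m
              have h2 : (1 : ℝ) ≤ (N.choose m : ℝ) := by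
                exact_mod_cast Nat.choose_pos hm'
              rw [one_pow, mul_one, mul_pow]
              calc (F.card.choose m : ℝ) * ρ ^ m ≤ (F.card : ℝ) ^ m * ρ ^ m :=
                    mul_le_mul_of_nonneg_right h1 (by positivity)
                _ ≤ (F.card : ℝ) ^ m * ρ ^ m * (N.choose m : ℝ) :=
                    le_mul_of_one_le_right (by positivity) h2
    _ = ((F.card : ℝ) * ρ + 1) ^ N := (add_pow _ _ _).symm
    _ = (1 + F.card * ρ) ^ N := by ring

/-- change the configuration: colour `c` at `z`, red at the sites of `T` -/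
def X3.upd (ω' : Cfg ι) (z : ι) (T : Finset ι) (c : Bool) : Cfg ι :=
  fun i => if i = z then some c else if i ∈ T then some true else ω' i

lemma X3.pw_upd (h : Par a p) {ω' : Cfg ι} {z : ι} {T : Finset ι} {c : Bool}
    (hz : ω' z = some false) (hT : ∀ i ∈ T, i ≠ z ∧ ω' i = none) :
    pw a p (X3.upd ω' z T c) =
      (wt a p (some c) / wt a p (some false)) * (a * p / (1 - a)) ^ T.card * pw a p ω' := by
  have h1 := h.a_pos
  have h2 := h.a_half
  have h3 := h.p_pos
  have h4 := h.p_lt
  have hf : wt a p (some false) ≠ 0 := by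
    simp only [wt]
    exact mul_ne_zero h1.ne' (by linarith)
  have hn : (1 - a) ≠ 0 := by linarith
  have e : ∀ i, wt a p (X3.upd ω' z T c i) =
      (if i ∈ ({z} : Finset ι) then wt a p (some c) / wt a p (some false) else 1) *
        (if i ∈ T then a * p / (1 - a) else 1) * wt a p (ω' i) := by
    intro i
    by_cases hi : i = z
    · subst hi
      have : i ∉ T := fun hi => (hT i hi).1 rfl
      simp only [X3.upd, if_true, Finset.mem_singleton, if_neg this, hz, mul_one]
      field_simp
    · by_cases hi2 : i ∈ T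
      · have h5 := (hT i hi2).2
        simp only [X3.upd, if_neg hi, if_pos hi2, Finset.mem_singleton, h5, wt]
        field_simp
      · simp [X3.upd, hi, hi2]
  unfold pw
  rw [Finset.prod_congr rfl fun i _ => e i, Finset.prod_mul_distrib, Finset.prod_mul_distrib,
    Finset.prod_ite_mem, Finset.univ_inter, Finset.prod_ite_mem, Finset.univ_inter,
    Finset.prod_singleton, Finset.prod_const]

lemma X3.pr_eq (P : Cfg ι → Prop) [DecidablePred P] :
    pr a p P = ∑ ω ∈ Finset.univ.filter P, pw a p ω := by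
  unfold pr ex ind
  rw [Finset.sum_filter]
  refine Finset.sum_congr rfl fun ω _ => ?_
  by_cases hP : P ω <;> simp [hP]

/-- cost of the surgery of module SURG: erase the red points of `S ω` and make `z` blue -/
lemma surg_cost (h : Par a p) (z : ι) (P P' : Cfg ι → Prop) (S F : Cfg ι → Finset ι) (lam C : ℝ)
    (hlam : 0 ≤ lam)
    (hF : ∀ ω, P' ω → a * (F ω).card ≤ lam)
    (hS : ∀ ω, P ω → P' (ins (er ω (S ω)) z false) ∧ S ω ⊆ F (ins (er ω (S ω)) z false) ∧
      (∀ s ∈ S ω, s ≠ z ∧ ω s = some true) ∧ ω z ≠ none)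
    (hC : (∃ N : ℕ, (∀ ω, P ω → (S ω).card ≤ N) ∧ (1 + p / (1 - p)) * (1 + 2 * lam) ^ N ≤ C) ∨
      (1 + p / (1 - p)) * Real.exp (2 * lam) ≤ C) :
    pr a p P ≤ C * pr a p P' := by
  classical
  have h1 := h.a_pos
  have h2 := h.a_half
  have h3 := h.p_pos
  have h4 := h.p_lt
  have hq : 0 < 1 - p := by linarith
  have hn : 0 < 1 - a := by linarith
  set ρ : ℝ := a * p / (1 - a) with hρ
  have hρ0 : 0 ≤ ρ := by positivity
  have hρ2 : ρ ≤ 2 * a := by
    rw [hρ, div_le_iff₀ hn]
    nlinarith
  have hcol : ∑ c : Bool, wt a p (some c) / wt a p (some false) = 1 + p / (1 - p) := by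
    simp only [Fintype.sum_bool, wt]
    field_simp
    ring
  have hp1 : 0 ≤ 1 + p / (1 - p) := by positivity
  set Φ : Cfg ι → Cfg ι := fun ω => ins (er ω (S ω)) z false with hΦ
  -- every preimage is an update
  have hrec : ∀ ω, P ω → ω ∈ (Finset.univ : Finset Bool).image fun c =>
      X3.upd (Φ ω) z (S ω) c := by
    intro ω hω
    obtain ⟨-, -, hS3, hS4⟩ := hS ω hω
    obtain ⟨c, hc⟩ := Option.ne_none_iff_exists'.1 hS4
    refine Finset.mem_image.2 ⟨c, Finset.mem_univ _, ?_⟩
    funext i
    by_cases hi : i = z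
    · subst hi
      simp [X3.upd, hc]
    · by_cases hi2 : i ∈ S ω
      · simp [X3.upd, hi, hi2, (hS3 i hi2).2]
      · simp [X3.upd, hi, hi2, hΦ, ins, er]
  -- the main bound, for a family of admissible sets
  have key : ∀ (𝒯 : Cfg ι → Finset (Finset ι)) (c0 : ℝ),
      (∀ ω, P ω → S ω ∈ 𝒯 (Φ ω)) →
      (∀ ω' , P' ω' → ∑ T ∈ (𝒯 ω').filter (fun T => ∀ i ∈ T, i ≠ z ∧ ω' i = none), ρ ^ T.card ≤ c0) →
      pr a p P ≤ (1 + p / (1 - p)) * c0 * pr a p P' := by
    intro 𝒯 c0 hT1 hT2
    have hstep : pr a p P = ∑ ω ∈ Finset.univ.filter P, pw a p ω * ind (P' (Φ ω)) := by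
      rw [X3.pr_eq]
      refine Finset.sum_congr rfl fun ω hω => ?_
      rw [ind_true (hS ω (Finset.mem_filter.1 hω).2).1, mul_one]
    rw [hstep]
    refine (X3.cost_abs h (Finset.univ.filter P) Φ (fun ω => ind (P' ω))
      (fun _ => (1 + p / (1 - p)) * c0) (fun ω => ind_nonneg _) fun ω' hω' => ?_).trans ?_
    · have hP' : P' ω' := by
        by_contra hcon
        rw [ind_false hcon] at hω'
        exact lt_irrefl _ hω'
      -- colour of `z`
      by_cases hz : ω' z = some false
      · have hsub : (Finset.univ.filter P).filter (fun ω => Φ ω = ω') ⊆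
            (((𝒯 ω').filter (fun T => ∀ i ∈ T, i ≠ z ∧ ω' i = none)) ×ˢ
              (Finset.univ : Finset Bool)).image fun e => X3.upd ω' z e.1 e.2 := by
          intro ω hω
          obtain ⟨hω1, hω2⟩ := Finset.mem_filter.1 hω
          have hPω := (Finset.mem_filter.1 hω1).2
          obtain ⟨c, -, hc⟩ := Finset.mem_image.1 (hrec ω hPω)
          refine Finset.mem_image.2 ⟨(S ω, c), ?_, ?_⟩
          · refine Finset.mem_product.2 ⟨Finset.mem_filter.2 ⟨?_, ?_⟩, Finset.mem_univ _⟩
            · rw [← hω2]; exact hT1 ω hPω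
            · intro i hi
              refine ⟨((hS ω hPω).2.2.1 i hi).1, ?_⟩
              rw [← hω2]
              simp [hΦ, ins, er, ((hS ω hPω).2.2.1 i hi).1, hi]
          · rw [← hω2]; exact hc
        calc ∑ ω ∈ (Finset.univ.filter P).filter (fun ω => Φ ω = ω'), pw a p ω
            ≤ ∑ ω ∈ (((𝒯 ω').filter (fun T => ∀ i ∈ T, i ≠ z ∧ ω' i = none)) ×ˢ
              (Finset.univ : Finset Bool)).image (fun e => X3.upd ω' z e.1 e.2), pw a p ω :=
              Finset.sum_le_sum_of_subset_of_nonneg hsub fun ω _ _ => X3.pw_nonneg' h ω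
          _ ≤ ∑ e ∈ ((𝒯 ω').filter (fun T => ∀ i ∈ T, i ≠ z ∧ ω' i = none)) ×ˢ
              (Finset.univ : Finset Bool), pw a p (X3.upd ω' z e.1 e.2) :=
              Finset.sum_image_le_of_nonneg fun ω _ => X3.pw_nonneg' h _
          _ = ∑ T ∈ (𝒯 ω').filter (fun T => ∀ i ∈ T, i ≠ z ∧ ω' i = none), ∑ c : Bool,
                (wt a p (some c) / wt a p (some false)) * ρ ^ T.card * pw a p ω' := by
              rw [Finset.sum_product]
              refine Finset.sum_congr rfl fun T hT => Finset.sum_congr rfl fun c _ => ?_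
              exact X3.pw_upd h hz (Finset.mem_filter.1 hT).2
          _ = (1 + p / (1 - p)) *
                (∑ T ∈ (𝒯 ω').filter (fun T => ∀ i ∈ T, i ≠ z ∧ ω' i = none), ρ ^ T.card) *
                  pw a p ω' := by
              rw [Finset.mul_sum, Finset.sum_mul]
              refine Finset.sum_congr rfl fun T _ => ?_
              rw [← hcol, Finset.sum_mul, Finset.sum_mul]
          _ ≤ (1 + p / (1 - p)) * c0 * pw a p ω' :=
              mul_le_mul_of_nonneg_right (mul_le_mul_of_nonneg_left (hT2 ω' hP') hp1)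
                (X3.pw_nonneg' h ω')
      · have hempty : (Finset.univ.filter P).filter (fun ω => Φ ω = ω') = ∅ := by
          refine Finset.filter_eq_empty_iff.2 fun ω _ hω => hz ?_
          rw [← hω]
          simp [hΦ, ins]
        rw [hempty, Finset.sum_empty]
        have h5 := hT2 ω' hP'
        have h6 : 0 ≤ c0 := le_trans (Finset.sum_nonneg fun T _ => by positivity) h5
        exact mul_nonneg (mul_nonneg hp1 h6) (X3.pw_nonneg' h ω')
    · unfold pr ex
      rw [Finset.mul_sum]
      exact Finset.sum_le_sum fun ω _ => le_of_eq (by ring)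
  have hpr : 0 ≤ pr a p P' :=
    Finset.sum_nonneg fun ω _ => mul_nonneg (X3.pw_nonneg' h ω) (ind_nonneg _)
  rcases hC with ⟨N, hN, hCN⟩ | hCe
  · refine (key (fun ω' => (F ω').powerset.filter fun T => T.card ≤ N) ((1 + 2 * lam) ^ N)
      (fun ω hω => ?_) (fun ω' hω' => ?_)).trans (mul_le_mul_of_nonneg_right hCN hpr)
    · exact Finset.mem_filter.2 ⟨Finset.mem_powerset.2 (hS ω hω).2.1, hN ω hω⟩
    · calc ∑ T ∈ ((F ω').powerset.filter fun T => T.card ≤ N).filter
            (fun T => ∀ i ∈ T, i ≠ z ∧ ω' i = none), ρ ^ T.card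
          ≤ ∑ T ∈ (F ω').powerset.filter (fun T => T.card ≤ N), ρ ^ T.card :=
            Finset.sum_le_sum_of_subset_of_nonneg (Finset.filter_subset _ _)
              fun T _ _ => by positivity
        _ ≤ (1 + (F ω').card * ρ) ^ N := X3.sum_small _ _ hρ0 N
        _ ≤ (1 + 2 * lam) ^ N := by
            refine pow_le_pow_left₀ (by positivity) ?_ N
            have h5 := hF ω' hω'
            have h6 : ((F ω').card : ℝ) * ρ ≤ (F ω').card * (2 * a) :=
              mul_le_mul_of_nonneg_left hρ2 (Nat.cast_nonneg _)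
            nlinarith
  · refine (key (fun ω' => (F ω').powerset) (Real.exp (2 * lam))
      (fun ω hω => Finset.mem_powerset.2 (hS ω hω).2.1) (fun ω' hω' => ?_)).trans
      (mul_le_mul_of_nonneg_right hCe hpr)
    calc ∑ T ∈ ((F ω').powerset).filter (fun T => ∀ i ∈ T, i ≠ z ∧ ω' i = none), ρ ^ T.card
        ≤ ∑ T ∈ (F ω').powerset, ρ ^ T.card :=
          Finset.sum_le_sum_of_subset_of_nonneg (Finset.filter_subset _ _)
            fun T _ _ => by positivity
      _ = (ρ + 1) ^ (F ω').card := by
          rw [← Finset.sum_pow_mul_eq_add_pow ρ 1 (F ω')]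
          refine Finset.sum_congr rfl fun T _ => ?_
          rw [one_pow, mul_one]
      _ ≤ (Real.exp ρ) ^ (F ω').card :=
          pow_le_pow_left₀ (by positivity) (Real.add_one_le_exp ρ) _
      _ = Real.exp ((F ω').card * ρ) := (Real.exp_nat_mul _ _).symm
      _ ≤ Real.exp (2 * lam) := by
          refine Real.exp_le_exp.2 ?_
          have h5 := hF ω' hω'
          have h6 : ((F ω').card : ℝ) * ρ ≤ (F ω').card * (2 * a) :=
            mul_le_mul_of_nonneg_left hρ2 (Nat.cast_nonneg _)
          nlinarith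

/-- recolouring: if every `ω` of `P` becomes, after recolouring the red points of `R ω` to blue, an
element of `P'`, and `R ω` lies in the set `F` of the new configuration, of size at most `N` -/
lemma recolour_cost (h : Par a p) (P P' : Cfg ι → Prop) (R F : Cfg ι → Finset ι) (N : ℕ)
    (hR : ∀ ω, P ω → P' (rcb ω (R ω)) ∧ R ω ⊆ F (rcb ω (R ω)) ∧ (F (rcb ω (R ω))).card ≤ N ∧
      ∀ s ∈ R ω, ω s = some true) :
    pr a p P ≤ (1 + p / (1 - p)) ^ N * pr a p P' := by
  classical
  have h1 := h.a_pos
  have h2 := h.a_half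
  have h3 := h.p_pos
  have h4 := h.p_lt
  have hq : 0 < 1 - p := by linarith
  have hp1 : 1 ≤ 1 + p / (1 - p) := by
    have : 0 ≤ p / (1 - p) := by positivity
    linarith
  have hstep : pr a p P = ∑ ω ∈ Finset.univ.filter P,
      pw a p ω * ind (P' (rcb ω (R ω)) ∧ (F (rcb ω (R ω))).card ≤ N) := by
    rw [X3.pr_eq]
    refine Finset.sum_congr rfl fun ω hω => ?_
    have h5 := hR ω (Finset.mem_filter.1 hω).2
    rw [ind_true ⟨h5.1, h5.2.2.1⟩, mul_one]
  rw [hstep]
  refine (X3.cost_abs h (Finset.univ.filter P) (fun ω => rcb ω (R ω))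
    (fun ω => ind (P' ω ∧ (F ω).card ≤ N)) (fun _ => (1 + p / (1 - p)) ^ N)
    (fun ω => ind_nonneg _) fun ω' hω' => ?_).trans ?_
  · have hP' : P' ω' ∧ (F ω').card ≤ N := by
      by_contra hcon
      rw [ind_false hcon] at hω'
      exact lt_irrefl _ hω'
    set t : ι → Finset (Option Bool) := fun i =>
      if i ∈ F ω' ∧ ω' i = some false then {some true, some false} else {ω' i} with ht
    have hsub : (Finset.univ.filter P).filter (fun ω => rcb ω (R ω) = ω') ⊆
        Fintype.piFinset t := by
      intro ω hω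
      obtain ⟨hω1, hω2⟩ := Finset.mem_filter.1 hω
      have hω3 := hR ω (Finset.mem_filter.1 hω1).2
      rw [hω2] at hω3
      refine Fintype.mem_piFinset.2 fun i => ?_
      by_cases hi : i ∈ R ω
      · have : ω' i = some false := by rw [← hω2]; simp [rcb, hi]
        simp [ht, this, hω3.2.1 hi, hω3.2.2.2 i hi]
      · have h5 : ω' i = ω i := by rw [← hω2]; simp [rcb, hi]
        by_cases hF : i ∈ F ω' ∧ ω' i = some false
        · simp only [ht, if_pos hF]
          rw [← h5, hF.2]
          simp
        · simp only [ht, if_neg hF, Finset.mem_singleton]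
          exact h5.symm
    calc ∑ ω ∈ (Finset.univ.filter P).filter (fun ω => rcb ω (R ω) = ω'), pw a p ω
        ≤ ∑ ω ∈ Fintype.piFinset t, pw a p ω :=
          Finset.sum_le_sum_of_subset_of_nonneg hsub fun ω _ _ => X3.pw_nonneg' h ω
      _ = ∏ i, ∑ o ∈ t i, wt a p o := X3.sum_box a p t
      _ ≤ ∏ i, ((if i ∈ F ω' then 1 + p / (1 - p) else 1) * wt a p (ω' i)) := by
          refine Finset.prod_le_prod (fun i _ => Finset.sum_nonneg fun o _ => X3.wt_nonneg' h o)
            fun i _ => ?_
          by_cases hF : i ∈ F ω' ∧ ω' i = some false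
          · have hs : ∑ o ∈ t i, wt a p o = (1 + p / (1 - p)) * wt a p (some false) := by
              simp only [ht, if_pos hF]
              rw [Finset.sum_pair (by simp)]
              simp only [wt]
              field_simp
              ring
            rw [hs, if_pos hF.1, hF.2]
          · have hs : ∑ o ∈ t i, wt a p o = wt a p (ω' i) := by
              simp [ht, if_neg hF]
            rw [hs]
            have h0 := X3.wt_nonneg' h (ω' i)
            split_ifs
            · exact le_mul_of_one_le_left h0 hp1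
            · simp
      _ = (1 + p / (1 - p)) ^ (F ω').card * pw a p ω' := by
          rw [Finset.prod_mul_distrib]
          congr 1
          rw [Finset.prod_ite_mem, Finset.univ_inter, Finset.prod_const]
      _ ≤ (1 + p / (1 - p)) ^ N * pw a p ω' :=
          mul_le_mul_of_nonneg_right (pow_le_pow_right₀ hp1 hP'.2) (X3.pw_nonneg' h ω')
  · unfold pr ex
    rw [Finset.mul_sum]
    refine Finset.sum_le_sum fun ω _ => ?_
    have h5 : ind (P' ω ∧ (F ω).card ≤ N) ≤ ind (P' ω) := by
      unfold ind
      split_ifs with h6 h7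
      · exact le_rfl
      · exact absurd h6.1 h7
      · norm_num
      · exact le_rfl
    have h6 := X3.pw_nonneg' h ω
    have h7 : 0 ≤ (1 + p / (1 - p)) ^ N := by positivity
    calc pw a p ω * (ind (P' ω ∧ (F ω).card ≤ N) * (1 + p / (1 - p)) ^ N)
        ≤ pw a p ω * (ind (P' ω) * (1 + p / (1 - p)) ^ N) :=
          mul_le_mul_of_nonneg_left (mul_le_mul_of_nonneg_right h5 h7) h6
      _ = (1 + p / (1 - p)) ^ N * (pw a p ω * ind (P' ω)) := by ring

end x

end Pool.Agent.Lib_helper33.ASM
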