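import Pool.Agent.Lib_helper33.ASM.X2

/-!
# Finite expectation calculus, part 4 (proofs: helper9)
-/

set_option autoImplicit false
set_option linter.unusedSectionVars false
set_option linter.unusedVariables false

open scoped BigOperators

namespace Pool.Agent.Lib_helper33.ASM

section x

variable {ι : Type*} [Fintype ι] [DecidableEq ι] {a p : ℝ}

/-- on an event which is invariant under switching `i` between empty and blue, and implies that
`i` is empty or blue, the site `i` is blue with the same probability -/
lemma blue_indep (h : Par a p) (i : ι) (E : Cfg ι → Prop) (g : Cfg ι → ℝ)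
    (h1 : ∀ ω, E ω → ω i = none ∨ ω i = some false)
    (h2 : ∀ ω, ω i = none → (E (ins ω i false) ↔ E ω))
    (h3 : ∀ ω, ω i = none → g (ins ω i false) = g ω) :
    ex a p (fun ω => ind (E ω) * (ind (ω i = some false) * g ω)) =
      a * (1 - p) / (1 - a * p) * ex a p (fun ω => ind (E ω) * g ω) := by
  have m := mecke h i false (fun ω => ind (E ω) * g ω)
  have e1 : (fun ω : Cfg ι => ind (ω i = some false) * (ind (E ω) * g ω)) =
      fun ω => ind (E ω) * (ind (ω i = some false) * g ω) := by
    funext ω
    ring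
  have e2 : (fun ω : Cfg ι => ind (ω i = none) *
      (ind (E (ins ω i false)) * g (ins ω i false))) =
      fun ω => ind (ω i = none) * (ind (E ω) * g ω) := by
    funext ω
    by_cases hω : ω i = none
    · rw [h3 ω hω]
      congr 2
      by_cases hE : E ω
      · rw [ind_true hE, ind_true ((h2 ω hω).2 hE)]
      · rw [ind_false hE, ind_false (fun hh => hE ((h2 ω hω).1 hh))]
    · rw [ind_false hω, zero_mul, zero_mul]
  have e3 : ex a p (fun ω => ind (E ω) * g ω) =
      ex a p (fun ω => ind (ω i = none) * (ind (E ω) * g ω)) +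
      ex a p (fun ω => ind (E ω) * (ind (ω i = some false) * g ω)) := by
    rw [← ex_add]
    congr 1
    funext ω
    by_cases hE : E ω
    · rcases h1 ω hE with h0 | h0
      · rw [ind_true h0, ind_false (show ¬ ω i = some false by rw [h0]; simp)]
        ring
      · rw [ind_true h0, ind_false (show ¬ ω i = none by rw [h0]; simp)]
        ring
    · rw [ind_false hE]
      ring
  rw [e1, e2] at m
  simp only [Bool.false_eq_true, if_false] at m
  have ha := h.a_pos
  have ha2 := h.a_half
  have hp := h.p_pos
  have hp1 := h.p_lt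
  have hap : 0 < 1 - a * p := by nlinarith
  have ha1 : 0 < 1 - a := by linarith
  set Z := ex a p (fun ω => ind (ω i = none) * (ind (E ω) * g ω)) with hZ
  set B := ex a p (fun ω => ind (E ω) * (ind (ω i = some false) * g ω)) with hB
  rw [e3]
  have m' : B * (1 - a) = a * (1 - p) * Z := by
    rw [m]
    field_simp
  rw [div_mul_eq_mul_div, eq_div_iff hap.ne']
  linear_combination m'

/-- many free sites produce many blue points: `E` says in particular that `F` is the set of free
sites; on `E` the sites of `F` are empty or blue, and `E` is invariant under changing them. -/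
lemma blue_cheb (h : Par a p) (F : Finset ι) (E : Cfg ι → Prop)
    (h1 : ∀ ω, E ω → ∀ i ∈ F, ω i = none ∨ ω i = some false)
    (h2 : ∀ ω ω', E ω → (∀ i, i ∉ F → ω i = ω' i) → (∀ i ∈ F, ω' i = none ∨ ω' i = some false) →
      E ω')
    (hm : 8 ≤ a * (1 - p) * F.card) :
    pr a p E ≤ 2 * pr a p (fun ω => E ω ∧
      a * (1 - p) * F.card / 2 ≤ cnt fun i => i ∈ F ∧ ω i = some false) := by
  classical
  have ha := h.a_pos
  have ha2 := h.a_half
  have hp := h.p_pos
  have hp1 := h.p_lt
  have hap : 0 < 1 - a * p := by nlinarith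
  have hap1 : 1 - a * p ≤ 1 := by nlinarith [mul_pos ha hp]
  have ha1 : 0 < 1 - a := by linarith
  have hq : 0 < a * (1 - p) := mul_pos ha (by linarith)
  set q := a * (1 - p) / (1 - a * p) with hqd
  have hq0 : 0 < q := div_pos hq hap
  have hqq : a * (1 - p) ≤ q := by
    rw [hqd, le_div_iff₀ hap]
    nlinarith
  -- invariance at one site
  have hins : ∀ i ∈ F, ∀ ω : Cfg ι, ω i = none → (E (ins ω i false) ↔ E ω) := by
    intro i hi ω hω
    constructor
    · intro hE
      refine h2 _ _ hE (fun j hj => ?_) fun j hj => ?_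
      · have : j ≠ i := fun hji => hj (hji ▸ hi)
        simp [ins, this]
      · by_cases hji : j = i
        · left
          rw [hji, hω]
        · have := h1 _ hE j hj
          simpa [ins, hji] using this
    · intro hE
      refine h2 _ _ hE (fun j hj => ?_) fun j hj => ?_
      · have : j ≠ i := fun hji => hj (hji ▸ hi)
        simp [ins, this]
      · by_cases hji : j = i
        · right
          simp [ins, hji]
        · have := h1 _ hE j hj
          simpa [ins, hji] using this
  set PE := pr a p E with hPE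
  have hPE0 : 0 ≤ PE := pr_nonneg h E
  have hX : ∀ i ∈ F, ∀ g : Cfg ι → ℝ, (∀ ω : Cfg ι, ω i = none → g (ins ω i false) = g ω) →
      ex a p (fun ω => ind (E ω) * (ind (ω i = some false) * g ω)) =
        q * ex a p (fun ω => ind (E ω) * g ω) := fun i hi g hg =>
    blue_indep h i E g (fun ω hE => h1 ω hE i hi) (hins i hi) hg
  -- covariances
  have hone : ∀ i ∈ F, ex a p (fun ω => ind (E ω) * ind (ω i = some false)) = q * PE := by
    intro i hi
    have := hX i hi (fun _ => 1) (fun _ _ => rfl)
    simpa [PE, pr] using this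
  have hdiag : ∀ i ∈ F, ex a p (fun ω => ind (E ω) *
      ((ind (ω i = some false) - q) * (ind (ω i = some false) - q))) ≤ q * PE := by
    intro i hi
    have e1 : (fun ω : Cfg ι => ind (E ω) *
        ((ind (ω i = some false) - q) * (ind (ω i = some false) - q))) =
        fun ω => (1 - 2 * q) * (ind (E ω) * ind (ω i = some false)) + q ^ 2 * ind (E ω) := by
      funext ω
      by_cases hω : ω i = some false
      · rw [ind_true hω]
        ring
      · rw [ind_false hω]
        ring
    rw [e1, ex_add (fun ω => (1 - 2 * q) * (ind (E ω) * ind (ω i = some false)))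
      (fun ω => q ^ 2 * ind (E ω)), ex_mul_left, ex_mul_left, hone i hi]
    have : ex a p (fun ω => ind (E ω)) = PE := rfl
    rw [this]
    nlinarith [mul_nonneg (sq_nonneg q) hPE0]
  have hoff : ∀ i ∈ F, ∀ j ∈ F, i ≠ j → ex a p (fun ω => ind (E ω) *
      ((ind (ω i = some false) - q) * (ind (ω j = some false) - q))) = 0 := by
    intro i hi j hj hij
    have e1 := hX i hi (fun ω => ind (ω j = some false) - q) (fun ω hω => by
      simp only [ins]
      rw [if_neg (fun hji : j = i => hij hji.symm)])
    have e2 : (fun ω : Cfg ι => ind (E ω) *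
        ((ind (ω i = some false) - q) * (ind (ω j = some false) - q))) =
        fun ω => ind (E ω) * (ind (ω i = some false) * (ind (ω j = some false) - q)) -
          q * (ind (E ω) * (ind (ω j = some false) - q)) := by
      funext ω
      ring
    rw [e2, ex_sub (fun ω => ind (E ω) * (ind (ω i = some false) * (ind (ω j = some false) - q)))
      (fun ω => q * (ind (E ω) * (ind (ω j = some false) - q))), e1, ex_mul_left, sub_self]
  set N : Cfg ι → ℝ := fun ω => cnt fun i => i ∈ F ∧ ω i = some false with hN
  have hNs : ∀ ω : Cfg ι, N ω - q * F.card = ∑ i ∈ F, (ind (ω i = some false) - q) := by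
    intro ω
    rw [Finset.sum_sub_distrib, Finset.sum_const, nsmul_eq_mul]
    have : N ω = ∑ i ∈ F, ind (ω i = some false) := by
      rw [hN]
      simp only [cnt_eq_sum, ind_and]
      rw [← Finset.sum_filter_add_sum_filter_not Finset.univ (fun i => i ∈ F)]
      have z : ∑ i ∈ Finset.univ.filter (fun i => ¬ i ∈ F), ind (i ∈ F) * ind (ω i = some false) =
          0 := Finset.sum_eq_zero fun i hi => by
        rw [ind_false (Finset.mem_filter.1 hi).2, zero_mul]
      rw [z, add_zero]
      have : Finset.univ.filter (fun i => i ∈ F) = F := by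
        ext i
        simp
      rw [this]
      refine Finset.sum_congr rfl fun i hi => ?_
      rw [ind_true hi, one_mul]
    rw [this]
    ring
  have hvar : ex a p (fun ω => ind (E ω) * (N ω - q * F.card) ^ 2) ≤ q * F.card * PE := by
    have e1 : (fun ω : Cfg ι => ind (E ω) * (N ω - q * F.card) ^ 2) =
        fun ω => ∑ i ∈ F, ∑ j ∈ F, ind (E ω) *
          ((ind (ω i = some false) - q) * (ind (ω j = some false) - q)) := by
      funext ω
      rw [hNs, sq, Finset.sum_mul_sum, Finset.mul_sum]
      refine Finset.sum_congr rfl fun i _ => ?_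
      rw [Finset.mul_sum]
    rw [e1, ex_sum]
    calc ∑ i ∈ F, ex a p (fun ω => ∑ j ∈ F, ind (E ω) *
          ((ind (ω i = some false) - q) * (ind (ω j = some false) - q)))
        ≤ ∑ i ∈ F, q * PE := by
          refine Finset.sum_le_sum fun i hi => ?_
          rw [ex_sum, Finset.sum_eq_single i]
          · exact hdiag i hi
          · intro j hj hji
            exact hoff i hi j hj (Ne.symm hji)
          · intro hni
            exact absurd hi hni
      _ = q * F.card * PE := by
          rw [Finset.sum_const, nsmul_eq_mul]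
          ring
  set μ := q * F.card with hμ
  have hμM : a * (1 - p) * F.card ≤ μ := mul_le_mul_of_nonneg_right hqq (Nat.cast_nonneg _)
  have hμ8 : 8 ≤ μ := hm.trans hμM
  set Pb := pr a p (fun ω => E ω ∧ ¬ (a * (1 - p) * F.card / 2 ≤ N ω)) with hPb
  have hPb0 : 0 ≤ Pb := pr_nonneg h _
  have hbad : μ ^ 2 / 4 * Pb ≤ ex a p (fun ω => ind (E ω) * (N ω - μ) ^ 2) := by
    rw [hPb]
    unfold pr
    rw [← ex_mul_left]
    refine ex_mono h fun ω => ?_
    by_cases hω : E ω ∧ ¬ (a * (1 - p) * F.card / 2 ≤ N ω)
    · rw [ind_true hω, ind_true hω.1]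
      have h5 := hω.2
      push Not at h5
      have h6 : N ω ≤ μ / 2 := by linarith
      nlinarith
    · rw [ind_false hω, mul_zero]
      exact mul_nonneg (ind_nonneg _) (sq_nonneg _)
  have hsplit : PE = pr a p (fun ω => E ω ∧ a * (1 - p) * F.card / 2 ≤ N ω) + Pb := by
    rw [hPE, hPb]
    unfold pr
    rw [← ex_add]
    congr 1
    funext ω
    rw [ind_and, ind_and, ind_not]
    ring
  have hfin : μ ^ 2 / 4 * Pb ≤ μ * PE := hbad.trans hvar
  have h7 : μ * Pb ≤ 4 * PE := by
    have : μ * (μ * Pb) ≤ μ * (4 * PE) := by nlinarith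
    exact le_of_mul_le_mul_left this (by linarith)
  have h8 : 8 * Pb ≤ μ * Pb := mul_le_mul_of_nonneg_right hμ8 hPb0
  linarith

/-- parity of the number of points of a set of sites changes with probability `≥ 2/5` when it is
resampled -/
lemma parity_resample (h : Par a p) (Q : Finset ι) (hQ : 1 / 2 ≤ a * Q.card)
    (N : Cfg ι → ℕ) (hN : ∀ ω : Cfg ι, (N ω : ℝ) = cnt fun i => i ∈ Q ∧ ω i ≠ none) :
    2 / 5 ≤ ex a p (fun ω' => pr a p (fun ω => ¬ (Even (N ω) ↔ Even (N ω')))) := by
  classical
  have ha := h.a_pos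
  have ha2 := h.a_half
  set s : Cfg ι → ℝ := fun ω => ∏ i, (if i ∈ Q ∧ ω i ≠ none then (-1 : ℝ) else 1) with hs
  have hsN : ∀ ω, s ω = (-1) ^ N ω := by
    intro ω
    have h1 : N ω = (Finset.univ.filter (fun i => i ∈ Q ∧ ω i ≠ none)).card := by
      have h0 : ((N ω : ℕ) : ℝ) =
          (((Finset.univ.filter (fun i => i ∈ Q ∧ ω i ≠ none)).card : ℕ) : ℝ) := by
        rw [hN ω]
        unfold cnt
        congr
      exact Nat.cast_injective h0
    rw [hs, h1]
    simp only
    rw [Finset.prod_ite, Finset.prod_const, Finset.prod_const_one, mul_one]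
  have hsE : ∀ ω ω', ind (¬ (Even (N ω) ↔ Even (N ω'))) = (1 - s ω * s ω') / 2 := by
    intro ω ω'
    rw [hsN, hsN]
    rcases Nat.even_or_odd (N ω) with h1 | h1 <;> rcases Nat.even_or_odd (N ω') with h2 | h2
    · rw [ind_false (fun hh => hh (by simp [h1, h2])), h1.neg_one_pow, h2.neg_one_pow]
      norm_num
    · rw [ind_true (fun hh => (Nat.not_even_iff_odd.2 h2) (hh.1 h1)), h1.neg_one_pow,
        h2.neg_one_pow]
      norm_num
    · rw [ind_true (fun hh => (Nat.not_even_iff_odd.2 h1) (hh.2 h2)), h1.neg_one_pow,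
        h2.neg_one_pow]
      norm_num
    · rw [ind_false (fun hh => hh (by simp [Nat.not_even_iff_odd.2 h1, Nat.not_even_iff_odd.2 h2])),
        h1.neg_one_pow, h2.neg_one_pow]
      norm_num
  have hes : ex a p s = (1 - 2 * a) ^ Q.card := by
    have h1 := Finset.prod_univ_sum (fun _ : ι => (Finset.univ : Finset (Option Bool)))
      (fun i o => wt a p o * (if i ∈ Q ∧ o ≠ none then (-1 : ℝ) else 1))
    rw [Fintype.piFinset_univ] at h1
    have h2 : ex a p s = ∑ ω : Cfg ι, ∏ i, (wt a p (ω i) *
        (if i ∈ Q ∧ ω i ≠ none then (-1 : ℝ) else 1)) := by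
      unfold ex pw
      refine Finset.sum_congr rfl fun ω _ => ?_
      rw [hs, ← Finset.prod_mul_distrib]
    rw [h2, ← h1]
    have h3 : ∀ i : ι, ∑ o, wt a p o * (if i ∈ Q ∧ o ≠ none then (-1 : ℝ) else 1) =
        if i ∈ Q then 1 - 2 * a else 1 := by
      intro i
      rw [Fintype.sum_option, Fintype.sum_bool]
      by_cases hi : i ∈ Q
      · simp [hi, wt]
        ring
      · simp [hi, wt]
        ring
    rw [Finset.prod_congr rfl (fun i _ => h3 i), Finset.prod_ite_mem, Finset.univ_inter,
      Finset.prod_const]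
  have hval : ex a p (fun ω' => pr a p (fun ω => ¬ (Even (N ω) ↔ Even (N ω')))) =
      (1 - ex a p s * ex a p s) / 2 := by
    have h1 : ∀ ω' : Cfg ι, pr a p (fun ω => ¬ (Even (N ω) ↔ Even (N ω'))) =
        1 / 2 - (s ω' / 2) * ex a p s := by
      intro ω'
      unfold pr
      have e1 : (fun ω : Cfg ι => ind (¬ (Even (N ω) ↔ Even (N ω')))) =
          fun ω => 1 / 2 - (s ω' / 2) * s ω := by
        funext ω
        rw [hsE]
        ring
      rw [e1, ex_sub (fun _ => 1 / 2) (fun ω => (s ω' / 2) * s ω), ex_const, ex_mul_left]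
    have e2 : (fun ω' : Cfg ι => pr a p (fun ω => ¬ (Even (N ω) ↔ Even (N ω')))) =
        fun ω' => 1 / 2 - (ex a p s / 2) * s ω' := by
      funext ω'
      rw [h1]
      ring
    rw [e2, ex_sub (fun _ => 1 / 2) (fun ω => (ex a p s / 2) * s ω), ex_const, ex_mul_left]
    ring
  rw [hval, hes, ← pow_add]
  have h1 : 0 ≤ 1 - 2 * a := by linarith
  have h2 : 1 - 2 * a ≤ Real.exp (-(2 * a)) := by
    have := Real.add_one_le_exp (-(2 * a))
    linarith
  have h3 : (1 - 2 * a) ^ (Q.card + Q.card) ≤ Real.exp (-2) := by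
    calc (1 - 2 * a) ^ (Q.card + Q.card) ≤ (Real.exp (-(2 * a))) ^ (Q.card + Q.card) :=
          pow_le_pow_left₀ h1 h2 _
      _ = Real.exp (-(4 * (a * Q.card))) := by
          rw [← Real.exp_nat_mul]
          congr 1
          push_cast
          ring
      _ ≤ Real.exp (-2) := Real.exp_le_exp.2 (by linarith)
  have h4 : Real.exp (-2) ≤ 1 / 5 := by
    have e1 : (2.7182818283 : ℝ) < Real.exp 1 := Real.exp_one_gt_d9
    have e2 : Real.exp (-2) = (Real.exp 1 * Real.exp 1)⁻¹ := by
      rw [← Real.exp_add, ← Real.exp_neg]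
      norm_num
    rw [e2, inv_le_comm₀ (by positivity) (by norm_num)]
    nlinarith
  linarith

end x

end Pool.Agent.Lib_helper33.ASM
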