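import Pool.Agent.Lib_helper33.ASM.K2
import Pool.Agent.Lib_helper33.ASM.K3
import Pool.Agent.Lib_helper33.ASM.K4
import Pool.Agent.Lib_helper33.ASM.X3
import Pool.Agent.Lib_helper33.ASM.X4
import Pool.Agent.Lib_helper33.ASM.Geo1
import Pool.Agent.Lib_helper33.ASM.Geo2

/-!
# Interface: the statements of the modules of the finite part

See `BLUEPRINT.md`.  Every module proves one (or several) of the propositions `Stmt...`.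
-/

set_option autoImplicit false

open scoped BigOperators

namespace Pool.Agent.Lib_helper33.ASM

/-! ## Module SURG: the surgery inequality (any finite site set, no hypothesis on densities) -/

section surg

variable {ι : Type} [Fintype ι] [DecidableEq ι]

/-- the cost condition: near every site of `G` the free volume is at most `lam` -/
def Wc {d : ℕ} (x : ι → Sp d) (a : ℝ) (ω : Cfg ι) (G : Set ι) (r r' lam : ℝ) : Prop :=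
  ∀ z ∈ G, a * (cnt fun s => dist (x z) (x s) < r' ∧ FM x ω r s) ≤ lam

end surg

/-- the surgery inequality with cost `Cst`.  `D` is the set where the content is common, `A ⊆ D` the
set where the two matchings agree up to time `r`, `G` the sites with all sites within `r'` in
`A`. -/
def StmtSURG : Prop :=
  ∀ (d : ℕ) (ι : Type) [Fintype ι] [DecidableEq ι] (x : ι → Sp d), Gen x →
  ∀ (a p : ℝ), 0 < a → a ≤ 1 / 2 → 0 < p → p < 1 →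
  ∀ (D A G : Set ι) (β : Cfg ι) (r r' lam Cst : ℝ), A ⊆ D → 0 ≤ r → r < r' → 0 ≤ lam →
  (∀ i ∈ G, ∀ k, dist (x i) (x k) < r' → k ∈ A) →
  ((0 < r ∧ r' = 2 * r ∧ (1 + p / (1 - p)) * (1 + 2 * lam) ^ (5 ^ d) ≤ Cst) ∨
    (1 + p / (1 - p)) * Real.exp (2 * lam) ≤ Cst) →
  ∀ n : ℕ,
    ex a p (fun ω => ind (Agree x (mix D ω β) ω A r ∧ Wc x a ω G r r' lam) *
      cnt fun z => DP x (mix D ω β) ω G r' (n + 1) z ∧ Stop x (mix D ω β) ω z) ≤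
    Cst * ex a p (fun ω => ind (Agree x (mix D ω β) ω A r ∧ Wc x a ω G r r' lam) *
      cnt fun z => DP x (mix D ω β) ω G r' (n + 1) z ∧ Term x (mix D ω β) ω G r' z)

/-- exponential decay of the number of deep discrepancies -/
def StmtDEC : Prop :=
  ∀ (d : ℕ) (ι : Type) [Fintype ι] [DecidableEq ι] (x : ι → Sp d), Gen x →
  ∀ (a p : ℝ), 0 < a → a ≤ 1 / 2 → 0 < p → p < 1 →
  ∀ (D A G : Set ι) (β : Cfg ι) (r r' lam Cst : ℝ), A ⊆ D → 0 ≤ r → r < r' → 0 ≤ lam →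
  (∀ i ∈ G, ∀ k, dist (x i) (x k) < r' → k ∈ A) →
  ((0 < r ∧ r' = 2 * r ∧ (1 + p / (1 - p)) * (1 + 2 * lam) ^ (5 ^ d) ≤ Cst) ∨
    (1 + p / (1 - p)) * Real.exp (2 * lam) ≤ Cst) →
  ∀ n : ℕ,
    ex a p (fun ω => ind (Agree x (mix D ω β) ω A r ∧ Wc x a ω G r r' lam) *
      cnt fun z => DP x (mix D ω β) ω G r' (2 * n + 1) z) ≤
    (Cst / (1 + Cst)) ^ n *
    ex a p (fun ω => ind (Agree x (mix D ω β) ω A r ∧ Wc x a ω G r r' lam) *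
      cnt fun z => DP x (mix D ω β) ω G r' 1 z)

/-! ## Densities -/

variable {d : ℕ}

/-- probability that the site `s` is free for red up to time `t` -/
noncomputable def vv (p : ℝ) (𝓜 : Model d) (t : ℝ) (s : 𝓜.ι) : ℝ :=
  pr 𝓜.a p (fun ω => FR 𝓜.x ω t s)

/-- probability that the site `s` is free for blue up to time `t` -/
noncomputable def uu (p : ℝ) (𝓜 : Model d) (t : ℝ) (s : 𝓜.ι) : ℝ :=
  pr 𝓜.a p (fun ω => FB 𝓜.x ω t s)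

/-- Module UB.  (1) `FB` is at most `K` times `FR` (cube sums); (2) upper bounds of order `t ^ (-d)`;
(3) second moments of the free volume. -/
def StmtUB (d : ℕ) (p : ℝ) : Prop :=
  ∃ C : ℝ, 0 < C ∧ ∀ I : ℕ, Ev d p (fun 𝓜 => ∀ i ≤ I,
    (∀ j : Fin d → ℤ, (∀ k, |j k| ≤ (I : ℤ)) →
      cs 𝓜 j (uu p 𝓜 (2 ^ i)) ≤ C * cs 𝓜 j (vv p 𝓜 (2 ^ i)) ∧
      cs 𝓜 j (uu p 𝓜 (2 ^ i)) ≤ C * (1 / 2) ^ (d * i) ∧
      (∀ j' : Fin d → ℤ, (∀ k, |j' k| ≤ (I : ℤ)) →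
        cs 𝓜 j (vv p 𝓜 (2 ^ i)) ≤ 2 * cs 𝓜 j' (vv p 𝓜 (2 ^ i)))) ∧
    (∀ c : Sp d, ‖c‖ ≤ I →
      ex 𝓜.a p (fun ω => (𝓜.a * cnt fun s => dist (𝓜.x s) c ≤ 2 ^ i ∧ FR 𝓜.x ω (2 ^ i) s) ^ 2)
        ≤ C))

/-- Module WT: exponential tail of the free volume. -/
def StmtWT (d : ℕ) (p : ℝ) : Prop :=
  ∃ C : ℝ, 0 < C ∧ ∀ I : ℕ, Ev d p (fun 𝓜 => ∀ i ≤ I, ∀ m ≤ I, 1 ≤ m → ∀ c : Sp d, ‖c‖ ≤ I →
    pr 𝓜.a p (fun ω =>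
      C * m < 𝓜.a * cnt fun s => dist (𝓜.x s) c ≤ 3 * 2 ^ i ∧ FM 𝓜.x ω (2 ^ i) s) ≤
      C * (1 / 2) ^ (d * m))

/-- Module LOC: locality.  Content outside `D` (here arbitrary: `β`) is felt on the bounded set `A` up
to time `2 ^ i` with probability at most `C * 2 ^ (-(d+2) l)` if the distance of `A` to the complement
of `D` is at least `2 ^ (l + i)`. -/
def StmtLOC (d : ℕ) (p : ℝ) : Prop :=
  ∃ C : ℝ, 0 < C ∧ ∀ I : ℕ, Ev d p (fun 𝓜 => ∀ i ≤ I, ∀ l ≤ I, ∀ c : Sp d, ‖c‖ ≤ I →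
    ∀ (D A : Set 𝓜.ι) (β : Cfg 𝓜.ι), (∀ s ∈ A, dist (𝓜.x s) c ≤ 2 ^ (10 + l + i)) →
    (∀ s ∈ A, ∀ s', dist (𝓜.x s) (𝓜.x s') ≤ 2 ^ (l + i) → s' ∈ D) →
    pr 𝓜.a p (fun ω => ¬ Agree 𝓜.x (mix D ω β) ω A (2 ^ i)) ≤ C * (1 / 2) ^ ((d + 2) * l))

/-- Module LB: lower bound of order `t ^ (-d)` for the density. -/
def StmtLB (d : ℕ) (p : ℝ) : Prop :=
  ∃ c : ℝ, 0 < c ∧ ∀ I : ℕ, Ev d p (fun 𝓜 => ∀ i ≤ I, ∀ j : Fin d → ℤ, (∀ k, |j k| ≤ (I : ℤ)) →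
      c * (1 / 2) ^ (d * i) ≤ cs 𝓜 j (vv p 𝓜 (2 ^ i)))

/-- The scale `s = 2 ^ (10 k)` is good at `o`, with `r = 2 ^ (10 k - l)`; `e` is a unit vector. -/
def Gd (𝓜 : Model d) (e : Sp d) (l : ℕ) (η lam : ℝ) (o : Sp d) (k : ℕ) (ω : Cfg 𝓜.ι) : Prop :=
  (η ≤ 𝓜.a * cnt fun z => dist (𝓜.x z) (o + (2 ^ (10 * k) / 5 : ℝ) • e) ≤ 2 ^ (10 * k) / 50 ∧
    FMR 𝓜.x ω (2 ^ (10 * k) / 2 ^ l) z) ∧
  (η ≤ 𝓜.a * cnt fun z => dist (𝓜.x z) (o + (2 ^ (10 * k) * 4 / 5 : ℝ) • e) ≤ 2 ^ (10 * k) / 50 ∧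
    FMR 𝓜.x ω (2 ^ (10 * k) / 2 ^ l) z) ∧
  (𝓜.a * cnt fun z => 2 ^ (10 * k) / 25 ≤ dist (𝓜.x z) o ∧
    dist (𝓜.x z) o ≤ 4 * 2 ^ (10 * k) ∧ FM 𝓜.x ω (2 ^ (10 * k) / 2 ^ l) z) ≤ lam

/-- the annulus around `o` at scale `k` -/
def Ann (𝓜 : Model d) (o : Sp d) (k : ℕ) : Set 𝓜.ι :=
  {z | (2 : ℝ) ^ (10 * k) / 100 < dist (𝓜.x z) o ∧ dist (𝓜.x z) o < 2 ^ (10 * (k + 1)) / 100}

/-- Module GOOD: a scale is good with high probability, whatever the content outside the annulus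
is. -/
def StmtGOOD (d : ℕ) (p : ℝ) : Prop :=
  ∀ e : Sp d, ‖e‖ = 1 → ∀ α : ℝ, 0 < α → ∀ l₀ : ℕ, ∃ l k₀ : ℕ, ∃ η lam : ℝ, l₀ ≤ l ∧ l ≤ 10 * k₀ ∧
    0 < η ∧ 0 < lam ∧ ∀ I : ℕ, Ev d p (fun 𝓜 => ∀ k, k₀ ≤ k → k ≤ I → ∀ o : Sp d, ‖o‖ ≤ I →
    ∀ β : Cfg 𝓜.ι, pr 𝓜.a p (fun ω => ¬ Gd 𝓜 e l η lam o k (mix (Ann 𝓜 o k) ω β)) ≤ α)

/-- Module LD: large deviations. -/
def StmtLD (d : ℕ) (p : ℝ) : Prop :=
  ∀ e : Sp d, ‖e‖ = 1 → ∃ l k₀ : ℕ, ∃ η lam : ℝ, l ≤ 10 * k₀ ∧ 5 ≤ l ∧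
    0 < η ∧ 0 < lam ∧ ∀ I : ℕ, Ev d p (fun 𝓜 => ∀ o : Sp d, ‖o‖ ≤ I → ∀ S : Finset ℕ,
    (∀ k ∈ S, k₀ ≤ k ∧ k ≤ I) →
    pr 𝓜.a p (fun ω => ∀ k ∈ S, ¬ Gd 𝓜 e l η lam o k ω) ≤ ((1 / 2 : ℝ) ^ (10 * d + 4)) ^ S.card)

/-- Module CLEAR: the final surgery.  Let the site `o` be free for red up to time `2 ^ (10 (n+1))`.
In every good scale there is an insertable blue-red pair whose blue end hits `o`. -/
def StmtCLEAR (d : ℕ) (p : ℝ) : Prop :=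
  ∀ e : Sp d, ‖e‖ = 1 → ∀ (l k₀ : ℕ) (η lam : ℝ), 0 < η → 0 < lam → 5 ≤ l → l ≤ 10 * k₀ →
    ∀ (𝓜 : Model d), 0 < 𝓜.a → 𝓜.a ≤ 1 / 2 → ∀ (o : 𝓜.ι) (n : ℕ),
    p * (1 - p) * η ^ 2 * Real.exp (-(2 * lam)) *
      ∑ k ∈ Finset.Icc k₀ n, pr 𝓜.a p (fun ω => FR 𝓜.x ω (2 ^ (10 * (n + 1))) o ∧
        Gd 𝓜 e l η lam (𝓜.x o) k ω) ≤
      uu p 𝓜 (2 ^ (10 * (n + 1))) o - vv p 𝓜 (2 ^ (10 * (n + 1))) o

/-- Module FIN: conclusion of the finite part. -/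
def StmtFIN (d : ℕ) (p : ℝ) : Prop := Ev d p (fun _ => False)

end Pool.Agent.Lib_helper33.ASM
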