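import Pool.Agent.Lib_helper33.ASM.Kernel

/-!
# The Poisson process and the stable matching (transfer part)
-/

set_option autoImplicit false

open scoped BigOperators ENNReal
open MeasureTheory

namespace Pool.Agent.Lib_helper33.ASM

variable {d : ℕ}

/-- Poisson weights with mean `v` -/
noncomputable def poi (v : ℝ) (k : ℕ) : ℝ := Real.exp (-v) * v ^ k / k.factorial

/-- the number of points in the set `A` -/
noncomputable def NN (X : ℕ → Sp d) (A : Set (Sp d)) : ℕ∞ := Set.encard {n | X n ∈ A}

/-- `X 0, X 1, ...` is an enumeration of the points of a homogeneous Poisson process of intensity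
`1` in `d`-dimensional space (the numbers of points in finitely many disjoint Borel sets of finite
volume are independent Poisson variables whose means are the volumes), and the colours `c n`
(`true` = red, `false` = blue) of the points are independent of the points and of each other, and red
with probability `p`. -/
structure IsColouredPoisson {Ω : Type*} [MeasurableSpace Ω] (P : Measure Ω) (p : ℝ)
    (X : ℕ → Ω → Sp d) (c : ℕ → Ω → Bool) : Prop where
  meas_X : ∀ n, Measurable (X n)
  meas_c : ∀ n, Measurable (c n)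
  counts : ∀ (m : ℕ) (A : Fin m → Set (Sp d)) (k : Fin m → ℕ), (∀ i, MeasurableSet (A i)) →
    (∀ i, volume (A i) ≠ ⊤) → (∀ i j, i ≠ j → Disjoint (A i) (A j)) →
    P {ω | ∀ i, NN (fun n => X n ω) (A i) = k i} =
      ENNReal.ofReal (∏ i, poi (volume (A i)).toReal (k i))
  colours : ∀ (s : Finset ℕ) (b : ℕ → Bool) (B : Set (ℕ → Sp d)), MeasurableSet B →
    P {ω | (fun n => X n ω) ∈ B ∧ ∀ n ∈ s, c n ω = b n} =
      P {ω | (fun n => X n ω) ∈ B} * ∏ n ∈ s, ENNReal.ofReal (if b n then p else 1 - p)

open Classical in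
/-- distance of the point `i` to its partner; `∞` if it is unmatched (`m i = i`) -/
noncomputable def mdist (x : ℕ → Sp d) (m : ℕ → ℕ) (i : ℕ) : ℝ≥0∞ :=
  if m i = i then ⊤ else edist (x i) (x (m i))

/-- `m` is a stable matching of the points `x i` with colours `c i` (`true` = red, `false` = blue) for
the asymmetric two-type rule: `m i` is the partner of `i`, and `m i = i` if `i` is unmatched; two blue
points are never partners. -/
structure IsStableMatching (x : ℕ → Sp d) (c : ℕ → Bool) (m : ℕ → ℕ) : Prop where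
  invol : ∀ i, m (m i) = i
  allowed : ∀ i, m i ≠ i → c i = true ∨ c (m i) = true
  stable : ∀ i j, i ≠ j → (c i = true ∨ c j = true) →
    ¬ (edist (x i) (x j) < mdist x m i ∧ edist (x i) (x j) < mdist x m j)

/-- the configuration with all points present -/
def full (c : ℕ → Bool) : Cfg ℕ := fun n => some (c n)

/-- the almost sure properties of the point configuration -/
structure Nice (x : ℕ → Sp d) : Prop where
  gen : Gen x
  lf : ∀ R : ℝ, {n | ‖x n‖ ≤ R}.Finite
  nochain : ¬ ∃ s : ℕ → ℕ, ∀ n, s n ≠ s (n + 1) ∧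
    dist (x (s (n + 1))) (x (s (n + 2))) < dist (x (s n)) (x (s (n + 1)))
  not_nat : ∀ i j, i ≠ j → ∀ k : ℕ, dist (x i) (x j) ≠ k

open Classical in
/-- the state of a cell `A`: the colour of the point if there is exactly one point in `A` -/
noncomputable def st (x : ℕ → Sp d) (c : ℕ → Bool) (A : Set (Sp d)) : Option Bool :=
  if h : ∃! n, x n ∈ A then some (c h.choose) else none

/-- the cell of side `1 / k` with number `s` of the box `[-n, n)^d` -/
def cell (n k : ℕ) (s : Fin d → Fin (2 * n * k)) : Set (Sp d) :=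
  {y | ∀ i, ⌊(k : ℝ) * y i⌋ = (s i : ℤ) - n * k}

/-- integer vectors as points -/
noncomputable def iv (v : Fin d → ℤ) : Sp d := WithLp.toLp 2 (fun i => (v i : ℝ))

/-- the box `[-n, n)^d` -/
def box (n : ℕ) : Set (Sp d) := {y | ∀ i, -(n : ℝ) ≤ y i ∧ y i < n}

/-- the discretised configuration in the box `v + [-n, n)^d` -/
noncomputable def dcf (x : ℕ → Sp d) (c : ℕ → Bool) (v : Fin d → ℤ) (n k : ℕ) :
    Cfg (Fin d → Fin (2 * n * k)) :=
  fun s => st x c {y | y - iv v ∈ cell n k s}

/-- the configuration of the points in the box `v + [-n, n)^d` -/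
noncomputable def bcf (x : ℕ → Sp d) (c : ℕ → Bool) (v : Fin d → ℤ) (n : ℕ) : Cfg ℕ :=
  er (full c) {i | x i - iv v ∉ box n}

/-- number of points of colour `b` in the unit cube `j` which are unmatched at time `t` -/
noncomputable def uc {ι : Type*} (x : ι → Sp d) (ω : Cfg ι) (b : Bool) (j : Fin d → ℤ) (t : ℝ) :
    ℝ :=
  (Set.ncard {s | cb (x s) = j ∧ ω s = some b ∧ Un x ω t s} : ℝ)

/-- number of pairs (point of colour `b` in the unit cube `j`, point of colour `b'` in the unit cube
`j'`) which are matched before time `t` -/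
noncomputable def pc {ι : Type*} (x : ι → Sp d) (ω : Cfg ι) (b b' : Bool) (j j' : Fin d → ℤ)
    (t : ℝ) : ℝ :=
  (Set.ncard {e : ι × ι | cb (x e.1) = j ∧ cb (x e.2) = j' ∧ ω e.1 = some b ∧ ω e.2 = some b' ∧
    mt x ω e.1 e.2 ∧ dist (x e.1) (x e.2) < t} : ℝ)

end Pool.Agent.Lib_helper33.ASM
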