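import Pool.Agent.Lib_helper33.ASM.TDefs

/-!
# Interface of the transfer part

See `BLUEPRINT.md`.  Every module proves one (or several) of the propositions `StmtT...`.
-/

set_option autoImplicit false

open scoped BigOperators ENNReal
open MeasureTheory Filter Topology

namespace Pool.Agent.Lib_helper33.ASM

/-- T1: law of the states of disjoint cells of the same volume `m`. -/
def StmtT1 : Prop :=
  ∀ (d : ℕ) (p : ℝ), 0 < p → p < 1 → ∀ (Ω : Type) [MeasurableSpace Ω] (P : Measure Ω)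
    [IsProbabilityMeasure P] (X : ℕ → Ω → Sp d) (c : ℕ → Ω → Bool), IsColouredPoisson P p X c →
  ∀ (ι : Type) [Fintype ι] [DecidableEq ι] (C : ι → Set (Sp d)) (m : ℝ), 0 < m →
    (∀ s, MeasurableSet (C s)) → (∀ s, volume (C s) = ENNReal.ofReal m) →
    (∀ s s', s ≠ s' → Disjoint (C s) (C s')) →
    (∀ s (o : Option Bool),
      MeasurableSet {ω | st (fun n => X n ω) (fun n => c n ω) (C s) = o}) ∧
    ∀ η : Cfg ι, P {ω | ∀ s, st (fun n => X n ω) (fun n => c n ω) (C s) = η s} =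
      ENNReal.ofReal (pw (m * Real.exp (-m)) p η)

/-- T2a: the factorial moment measures are at most Lebesgue measure. -/
def StmtT2a : Prop :=
  ∀ (d : ℕ) (p : ℝ), 0 < p → p < 1 → ∀ (Ω : Type) [MeasurableSpace Ω] (P : Measure Ω)
    [IsProbabilityMeasure P] (X : ℕ → Ω → Sp d) (c : ℕ → Ω → Bool), 0 < d →
    IsColouredPoisson P p X c →
  ∀ (m : ℕ) (B : Set (Fin m → Sp d)), MeasurableSet B →
    ∑' s : {s : Fin m → ℕ // Function.Injective s}, P {ω | (fun i => X (s.1 i) ω) ∈ B} ≤ volume B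

/-- T2b: all distances between different sites are different, for almost all positions. -/
def StmtT2b : Prop :=
  ∀ (d : ℕ), 0 < d → ∀ (ι : Type) [Fintype ι] [DecidableEq ι],
    (∀ᵐ y : ι → Sp d, Gen y) ∧
    (∀ᵐ y : ι → Sp d, ∀ i j, i ≠ j → ∀ k : ℕ, dist (y i) (y j) ≠ k)

/-- T2c: volume of the set of descending chains. -/
def StmtT2c : Prop :=
  ∀ (d : ℕ), 0 < d → ∀ (m : ℕ) (t : ℝ), 0 ≤ t → ∀ (Q : Set (Sp d)), MeasurableSet Q →
    volume {y : Fin (m + 1) → Sp d | y 0 ∈ Q ∧ (∀ i : Fin m, dist (y i.castSucc) (y i.succ) < t) ∧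
      ∀ i j : Fin m, i < j → dist (y j.castSucc) (y j.succ) < dist (y i.castSucc) (y i.succ)} ≤
      volume Q * (volume (Metric.ball (0 : Sp d) t)) ^ m / (m.factorial : ℝ≥0∞)

/-- T2: the almost sure properties (from T2a, T2b, T2c). -/
def StmtT2 : Prop :=
  ∀ (d : ℕ) (p : ℝ), 0 < p → p < 1 → ∀ (Ω : Type) [MeasurableSpace Ω] (P : Measure Ω)
    [IsProbabilityMeasure P] (X : ℕ → Ω → Sp d) (c : ℕ → Ω → Bool), 0 < d →
    IsColouredPoisson P p X c → ∀ᵐ ω ∂P, Nice (fun n => X n ω)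

/-- T3: kernels of infinite configurations. -/
def StmtT3 : Prop :=
  ∀ (d : ℕ) (x : ℕ → Sp d), Nice x →
    (∀ ω : Cfg ℕ, (∃! M, IsKer x ω M) ∧ IsKer x ω (mt x ω)) ∧
    (∀ ω : Cfg ℕ, ∀ i j, ∃ F : Finset ℕ, ∀ Λ : Set ℕ, (F : Set ℕ) ⊆ Λ →
      (mt x (er ω Λᶜ) i j ↔ mt x ω i j)) ∧
    (∀ c : ℕ → Bool, (∃! m, IsStableMatching x c m) ∧
      ∀ m, IsStableMatching x c m → ∀ i j, i ≠ j → (m i = j ↔ mt x (full c) i j))

/-- T4a: for fine discretisations the discretised configuration has the same matching as the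
configuration of the points of the box. -/
def StmtT4a : Prop :=
  ∀ (d : ℕ) (x : ℕ → Sp d) (c : ℕ → Bool), 0 < d → Nice x →
  ∀ (v : Fin d → ℤ) (n : ℕ), 0 < n → ∀ T : ℕ, ∃ K : ℕ, 0 < K ∧ ∀ k, K ≤ k →
  ∀ y : (Fin d → Fin (2 * n * k)) → Sp d, Gen y → (∀ s, y s ∈ cell n k s) →
    (∀ (b : Bool) (j : Fin d → ℤ) (t : ℕ), t ≤ T → (∀ i, -(n : ℤ) ≤ j i ∧ j i < n) →
      uc y (dcf x c v n k) b j t = uc x (bcf x c v n) b (v + j) t) ∧
    (∀ (b b' : Bool) (j j' : Fin d → ℤ) (t : ℕ), t ≤ T → (∀ i, -(n : ℤ) ≤ j i ∧ j i < n) →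
      (∀ i, -(n : ℤ) ≤ j' i ∧ j' i < n) →
      pc y (dcf x c v n k) b b' j j' t = pc x (bcf x c v n) b b' (v + j) (v + j') t)

/-- T4b: generic positions exist, and the volume of a cell. -/
def StmtT4b : Prop :=
  ∀ (d : ℕ), 0 < d → ∀ (n k : ℕ), 0 < n → 0 < k →
    (∃ y : (Fin d → Fin (2 * n * k)) → Sp d, Gen y ∧ ∀ s, y s ∈ cell n k s) ∧
    (∀ s : Fin d → Fin (2 * n * k), MeasurableSet (cell n k s) ∧
      volume (cell n k s) = ENNReal.ofReal ((1 / k : ℝ) ^ d)) ∧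
    (∀ s s' : Fin d → Fin (2 * n * k), s ≠ s' → Disjoint (cell n k s) (cell n k s')) ∧
    (∀ j : Fin d → ℤ, (∀ i, -(n : ℤ) ≤ j i ∧ j i < n) →
      Set.ncard {s : Fin d → Fin (2 * n * k) | ∃ y ∈ cell n k s, cb y = j} = k ^ d) ∧
    (∀ (s : Fin d → Fin (2 * n * k)), ∀ y ∈ cell n k s, ∀ y' ∈ cell n k s, cb y = cb y') ∧
    (∀ (s : Fin d → Fin (2 * n * k)), ∀ y ∈ cell n k s, y ∈ box n)

/-- T5: convergence of the expectations, translation invariance and mass transport, in the form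
needed: numbers `R t`, `B t` (densities of unmatched points in the infinite system) such that the
discrete models converge to them. -/
def StmtT5 : Prop :=
  ∀ (d : ℕ) (p : ℝ), 0 < d → 0 < p → p < 1 → ∀ (Ω : Type) [MeasurableSpace Ω] (P : Measure Ω)
    [IsProbabilityMeasure P] (X : ℕ → Ω → Sp d) (c : ℕ → Ω → Bool), IsColouredPoisson P p X c →
    (∀ᵐ ω ∂P, ∀ m, IsStableMatching (fun n => X n ω) (fun n => c n ω) m → ∀ i, m i ≠ i) →
    ∃ R B : ℕ → ℝ, (∀ t, 0 < R t) ∧ (∀ t, B t ≤ R t) ∧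
    ∀ (y : (n k : ℕ) → (Fin d → Fin (2 * n * k)) → Sp d),
      (∀ n k, 0 < n → 0 < k → Gen (y n k) ∧ ∀ s, y n k s ∈ cell n k s) →
    ∀ (j : Fin d → ℤ) (t : ℕ) (ε : ℝ), 0 < ε → ∃ N : ℕ, ∀ n, N ≤ n → ∃ K : ℕ, ∀ k, K ≤ k →
      |ex ((1 / k : ℝ) ^ d * Real.exp (-(1 / k : ℝ) ^ d)) p
        (fun ω => uc (y n k) ω true j t) - R t| < ε ∧
      |ex ((1 / k : ℝ) ^ d * Real.exp (-(1 / k : ℝ) ^ d)) p
        (fun ω => uc (y n k) ω false j t) - B t| < ε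

/-- T6: if all points are matched, there are good models. -/
def StmtT6 : Prop :=
  ∀ (d : ℕ) (p : ℝ), 0 < d → 0 < p → p < 1 → ∀ (Ω : Type) [MeasurableSpace Ω] (P : Measure Ω)
    [IsProbabilityMeasure P] (X : ℕ → Ω → Sp d) (c : ℕ → Ω → Bool), IsColouredPoisson P p X c →
    (∀ᵐ ω ∂P, ∀ m, IsStableMatching (fun n => X n ω) (fun n => c n ω) m → ∀ i, m i ≠ i) →
    ∀ (I n₀ : ℕ) (a₀ : ℝ), 0 < a₀ → ∃ 𝓜 : Model d, Good p I n₀ a₀ 𝓜

end Pool.Agent.Lib_helper33.ASM
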