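import Pool.Agent.Lib_helper33.ASM.Defs2

/-!
# Finite expectation calculus, part 1 (proofs: helper9)
-/

set_option autoImplicit false
set_option linter.unusedSectionVars false
set_option linter.unusedVariables false

open scoped BigOperators

namespace Pool.Agent.Lib_helper33.ASM

section x

variable {ι : Type*} [Fintype ι] [DecidableEq ι] {a p : ℝ}

/-! ### indicators and counting -/

lemma ind_true {A : Prop} (h : A) : ind A = 1 := by simp [ind, h]
lemma ind_false {A : Prop} (h : ¬ A) : ind A = 0 := by simp [ind, h]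
lemma ind_nonneg (A : Prop) : 0 ≤ ind A := by unfold ind; split_ifs <;> norm_num
lemma ind_le_one (A : Prop) : ind A ≤ 1 := by unfold ind; split_ifs <;> norm_num
lemma ind_mono {A B : Prop} (h : A → B) : ind A ≤ ind B := by
  by_cases hA : A
  · rw [ind_true hA, ind_true (h hA)]
  · rw [ind_false hA]
    exact ind_nonneg B
lemma ind_and (A B : Prop) : ind (A ∧ B) = ind A * ind B := by
  by_cases hA : A
  · by_cases hB : B
    · rw [ind_true ⟨hA, hB⟩, ind_true hA, ind_true hB, one_mul]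
    · rw [ind_false (fun h => hB h.2), ind_false hB, mul_zero]
  · rw [ind_false (fun h => hA h.1), ind_false hA, zero_mul]
lemma ind_or_le (A B : Prop) : ind (A ∨ B) ≤ ind A + ind B := by
  by_cases hA : A
  · rw [ind_true (Or.inl hA), ind_true hA]
    linarith [ind_nonneg B]
  · by_cases hB : B
    · rw [ind_true (Or.inr hB), ind_true hB]
      linarith [ind_nonneg A]
    · rw [ind_false (fun h => h.elim hA hB)]
      linarith [ind_nonneg A, ind_nonneg B]
lemma ind_not (A : Prop) : ind (¬ A) = 1 - ind A := by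
  by_cases hA : A
  · rw [ind_false (fun h => h hA), ind_true hA, sub_self]
  · rw [ind_true hA, ind_false hA, sub_zero]
lemma cnt_eq_sum (A : ι → Prop) : cnt A = ∑ s, ind (A s) := by
  classical
  unfold cnt ind
  rw [Finset.card_filter]
  push_cast
  refine Finset.sum_congr rfl fun s _ => ?_
  split_ifs <;> rfl
lemma cnt_nonneg (A : ι → Prop) : 0 ≤ cnt A := by unfold cnt; positivity
lemma cnt_mono {A B : ι → Prop} (h : ∀ s, A s → B s) : cnt A ≤ cnt B := by
  rw [cnt_eq_sum, cnt_eq_sum]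
  exact Finset.sum_le_sum fun s _ => ind_mono (h s)
lemma cnt_or_le (A B : ι → Prop) : cnt (fun s => A s ∨ B s) ≤ cnt A + cnt B := by
  rw [cnt_eq_sum, cnt_eq_sum, cnt_eq_sum, ← Finset.sum_add_distrib]
  exact Finset.sum_le_sum fun s _ => ind_or_le _ _
lemma cnt_exists_le {κ : Type*} (K : Finset κ) (A : κ → ι → Prop) :
    cnt (fun s => ∃ k ∈ K, A k s) ≤ ∑ k ∈ K, cnt (A k) := by
  classical
  have key : ∀ s : ι, ind (∃ k ∈ K, A k s) ≤ ∑ k ∈ K, ind (A k s) := by
    intro s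
    by_cases h : ∃ k ∈ K, A k s
    · obtain ⟨k, hk, hks⟩ := h
      rw [ind_true ⟨k, hk, hks⟩, ← ind_true hks]
      exact Finset.single_le_sum (f := fun k => ind (A k s)) (fun k _ => ind_nonneg _) hk
    · rw [ind_false h]
      exact Finset.sum_nonneg fun k _ => ind_nonneg _
  rw [cnt_eq_sum]
  calc ∑ s, ind (∃ k ∈ K, A k s) ≤ ∑ s, ∑ k ∈ K, ind (A k s) :=
        Finset.sum_le_sum fun s _ => key s
    _ = ∑ k ∈ K, ∑ s, ind (A k s) := Finset.sum_comm
    _ = ∑ k ∈ K, cnt (A k) := by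
        refine Finset.sum_congr rfl fun k _ => ?_
        rw [cnt_eq_sum]
lemma ind_exists_le_cnt (A : ι → Prop) : ind (∃ s, A s) ≤ cnt A := by
  rw [cnt_eq_sum]
  by_cases h : ∃ s, A s
  · obtain ⟨s, hs⟩ := h
    rw [ind_true ⟨s, hs⟩, ← ind_true hs]
    exact Finset.single_le_sum (f := fun s => ind (A s)) (fun s _ => ind_nonneg _)
      (Finset.mem_univ s)
  · rw [ind_false h]
    exact Finset.sum_nonneg fun s _ => ind_nonneg _

/-! ### X1: basic calculus -/

lemma wt_nonneg (h : Par a p) (o : Option Bool) : 0 ≤ wt a p o := by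
  have h1 := h.a_pos
  have h2 := h.a_half
  have h3 := h.p_pos
  have h4 := h.p_lt
  rcases o with _ | _ | _
  · simp only [wt]; linarith
  · simp only [wt]; exact mul_nonneg h1.le (by linarith)
  · simp only [wt]; exact mul_nonneg h1.le h3.le
lemma wt_pos (h : Par a p) (o : Option Bool) : 0 < wt a p o := by
  have h1 := h.a_pos
  have h2 := h.a_half
  have h3 := h.p_pos
  have h4 := h.p_lt
  rcases o with _ | _ | _
  · simp only [wt]; linarith
  · simp only [wt]; exact mul_pos h1 (by linarith)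
  · simp only [wt]; exact mul_pos h1 h3
lemma sum_wt (a p : ℝ) : ∑ o, wt a p o = 1 := by
  rw [Fintype.sum_option, Fintype.sum_bool]
  simp only [wt]
  ring
lemma pw_pos (h : Par a p) (ω : Cfg ι) : 0 < pw a p ω := by
  exact Finset.prod_pos fun i _ => wt_pos h _
lemma sum_pw (a p : ℝ) : ∑ ω : Cfg ι, pw a p ω = 1 := by
  have h1 := Finset.prod_univ_sum (fun _ : ι => (Finset.univ : Finset (Option Bool)))
    (fun _ o => wt a p o)
  rw [Fintype.piFinset_univ] at h1
  unfold pw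
  rw [← h1]
  exact Finset.prod_eq_one fun i _ => sum_wt a p
lemma ex_const (a p c : ℝ) : ex a p (fun _ : Cfg ι => c) = c := by
  unfold ex
  rw [← Finset.sum_mul, sum_pw, one_mul]
lemma ex_add (f g : Cfg ι → ℝ) : ex a p (fun ω => f ω + g ω) = ex a p f + ex a p g := by
  unfold ex
  rw [← Finset.sum_add_distrib]
  exact Finset.sum_congr rfl fun ω _ => by ring
lemma ex_sub (f g : Cfg ι → ℝ) : ex a p (fun ω => f ω - g ω) = ex a p f - ex a p g := by
  unfold ex
  rw [← Finset.sum_sub_distrib]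
  exact Finset.sum_congr rfl fun ω _ => by ring
lemma ex_mul_left (c : ℝ) (f : Cfg ι → ℝ) : ex a p (fun ω => c * f ω) = c * ex a p f := by
  unfold ex
  rw [Finset.mul_sum]
  exact Finset.sum_congr rfl fun ω _ => by ring
lemma ex_sum {κ : Type*} (K : Finset κ) (f : κ → Cfg ι → ℝ) :
    ex a p (fun ω => ∑ k ∈ K, f k ω) = ∑ k ∈ K, ex a p (f k) := by
  unfold ex
  rw [Finset.sum_comm]
  exact Finset.sum_congr rfl fun ω _ => by rw [Finset.mul_sum]
lemma ex_mono (h : Par a p) {f g : Cfg ι → ℝ} (hfg : ∀ ω, f ω ≤ g ω) : ex a p f ≤ ex a p g := by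
  exact Finset.sum_le_sum fun ω _ => mul_le_mul_of_nonneg_left (hfg ω) (pw_pos h ω).le
lemma ex_nonneg (h : Par a p) {f : Cfg ι → ℝ} (hf : ∀ ω, 0 ≤ f ω) : 0 ≤ ex a p f := by
  exact Finset.sum_nonneg fun ω _ => mul_nonneg (pw_pos h ω).le (hf ω)
lemma exists_le_ex (h : Par a p) (f : Cfg ι → ℝ) : ∃ ω, ex a p f ≤ f ω := by
  by_contra hcon
  push Not at hcon
  have h1 : ex a p f < ex a p (fun _ : Cfg ι => ex a p f) := by
    refine Finset.sum_lt_sum_of_nonempty ⟨fun _ => none, Finset.mem_univ _⟩ fun ω _ => ?_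
    exact mul_lt_mul_of_pos_left (hcon ω) (pw_pos h ω)
  rw [ex_const] at h1
  exact lt_irrefl _ h1
lemma ex_cnt (A : ι → Cfg ι → Prop) :
    ex a p (fun ω => cnt fun s => A s ω) = ∑ s, pr a p (A s) := by
  have h1 : (fun ω : Cfg ι => cnt fun s => A s ω) =
      fun ω => ∑ s ∈ (Finset.univ : Finset ι), ind (A s ω) := by
    funext ω
    rw [cnt_eq_sum]
  rw [h1, ex_sum]
  rfl
lemma pr_nonneg (h : Par a p) (A : Cfg ι → Prop) : 0 ≤ pr a p A := by
  exact ex_nonneg h fun ω => ind_nonneg _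
lemma pr_le_one (h : Par a p) (A : Cfg ι → Prop) : pr a p A ≤ 1 := by
  have h1 : pr a p A ≤ ex a p (fun _ : Cfg ι => (1 : ℝ)) := ex_mono h fun ω => ind_le_one _
  rwa [ex_const] at h1
lemma pr_mono (h : Par a p) {A B : Cfg ι → Prop} (hAB : ∀ ω, A ω → B ω) :
    pr a p A ≤ pr a p B := by
  exact ex_mono h fun ω => ind_mono (hAB ω)
lemma pr_or_le (h : Par a p) (A B : Cfg ι → Prop) :
    pr a p (fun ω => A ω ∨ B ω) ≤ pr a p A + pr a p B := by
  unfold pr
  rw [← ex_add]
  exact ex_mono h fun ω => ind_or_le _ _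
lemma pr_exists_le (h : Par a p) {κ : Type*} (K : Finset κ) (A : κ → Cfg ι → Prop) :
    pr a p (fun ω => ∃ k ∈ K, A k ω) ≤ ∑ k ∈ K, pr a p (A k) := by
  unfold pr
  rw [← ex_sum]
  refine ex_mono h fun ω => ?_
  by_cases hω : ∃ k ∈ K, A k ω
  · obtain ⟨k, hk, hks⟩ := hω
    rw [ind_true ⟨k, hk, hks⟩, ← ind_true hks]
    exact Finset.single_le_sum (f := fun k => ind (A k ω)) (fun k _ => ind_nonneg _) hk
  · rw [ind_false hω]
    exact Finset.sum_nonneg fun k _ => ind_nonneg _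
lemma pr_not (A : Cfg ι → Prop) : pr a p (fun ω => ¬ A ω) = 1 - pr a p A := by
  have h1 : (fun ω => ind (¬ A ω)) = fun ω => 1 - ind (A ω) := by
    funext ω
    rw [ind_not]
  unfold pr
  rw [h1, ex_sub, ex_const]
lemma pr_pos (h : Par a p) {A : Cfg ι → Prop} (hA : ∃ ω, A ω) : 0 < pr a p A := by
  obtain ⟨ω, hω⟩ := hA
  have h1 : pw a p ω * ind (A ω) ≤ pr a p A :=
    Finset.single_le_sum (f := fun ω => pw a p ω * ind (A ω))
      (fun ω _ => mul_nonneg (pw_pos h ω).le (ind_nonneg _)) (Finset.mem_univ ω)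
  rw [ind_true hω, mul_one] at h1
  exact lt_of_lt_of_le (pw_pos h ω) h1

/-- Markov's inequality -/
lemma markov (h : Par a p) {f : Cfg ι → ℝ} (hf : ∀ ω, 0 ≤ f ω) {t : ℝ} (ht : 0 < t) :
    pr a p (fun ω => t ≤ f ω) ≤ ex a p f / t := by
  rw [le_div_iff₀ ht, mul_comm]
  unfold pr
  rw [← ex_mul_left]
  refine ex_mono h fun ω => ?_
  by_cases hω : t ≤ f ω
  · rw [ind_true hω, mul_one]
    exact hω
  · rw [ind_false hω, mul_zero]
    exact hf ω

lemma cauchy_schwarz (h : Par a p) (f g : Cfg ι → ℝ) :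
    (ex a p (fun ω => f ω * g ω)) ^ 2 ≤ ex a p (fun ω => f ω ^ 2) * ex a p (fun ω => g ω ^ 2) := by
  unfold ex
  refine Finset.sum_sq_le_sum_mul_sum_of_sq_le_mul Finset.univ
    (fun ω _ => mul_nonneg (pw_pos h ω).le (sq_nonneg _))
    (fun ω _ => mul_nonneg (pw_pos h ω).le (sq_nonneg _)) fun ω _ => le_of_eq ?_
  ring

lemma paley_zygmund (h : Par a p) {f : Cfg ι → ℝ} (hf : ∀ ω, 0 ≤ f ω) {m C : ℝ} (hm : 0 < m)
    (h1 : m ≤ ex a p f) (h2 : ex a p (fun ω => f ω ^ 2) ≤ C) :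
    m ^ 2 / (4 * C) ≤ pr a p (fun ω => m / 2 ≤ f ω) := by
  set q := pr a p (fun ω => m / 2 ≤ f ω) with hq
  have hq0 : 0 ≤ q := pr_nonneg h _
  have h3 : ex a p f ≤ m / 2 + ex a p (fun ω => f ω * ind (m / 2 ≤ f ω)) := by
    have e1 : ex a p f ≤ ex a p (fun ω => m / 2 + f ω * ind (m / 2 ≤ f ω)) := by
      refine ex_mono h fun ω => ?_
      by_cases hω : m / 2 ≤ f ω
      · rw [ind_true hω, mul_one]
        linarith
      · rw [ind_false hω, mul_zero]
        push Not at hω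
        linarith
    rw [ex_add (fun _ => m / 2) (fun ω => f ω * ind (m / 2 ≤ f ω)), ex_const] at e1
    exact e1
  have h4 := cauchy_schwarz h f (fun ω => ind (m / 2 ≤ f ω))
  have h5 : ex a p (fun ω => ind (m / 2 ≤ f ω) ^ 2) = q := by
    have : (fun ω : Cfg ι => ind (m / 2 ≤ f ω) ^ 2) = fun ω => ind (m / 2 ≤ f ω) := by
      funext ω
      by_cases hω : m / 2 ≤ f ω
      · rw [ind_true hω, one_pow]
      · rw [ind_false hω]
        norm_num
    rw [this]
    rfl
  rw [h5] at h4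
  have h6 : m / 2 ≤ ex a p (fun ω => f ω * ind (m / 2 ≤ f ω)) := by linarith
  have h7 : (m / 2) ^ 2 ≤ C * q := by
    calc (m / 2) ^ 2 ≤ (ex a p (fun ω => f ω * ind (m / 2 ≤ f ω))) ^ 2 :=
          pow_le_pow_left₀ (by linarith) h6 2
      _ ≤ ex a p (fun ω => f ω ^ 2) * q := h4
      _ ≤ C * q := mul_le_mul_of_nonneg_right h2 hq0
  have h8 : 0 < C := by
    have : 0 < C * q := lt_of_lt_of_le (by positivity) h7
    exact pos_of_mul_pos_left this hq0
  rw [div_le_iff₀ (by positivity)]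
  nlinarith [h7]

end x

end Pool.Agent.Lib_helper33.ASM
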