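import Pool.Agent.Lib_helper33.ASM.X1

/-!
# Finite expectation calculus, part 2 (proofs: helper44)
-/

set_option autoImplicit false
set_option linter.unusedSectionVars false
set_option linter.unusedVariables false

open scoped BigOperators

namespace Pool.Agent.Lib_helper33.ASM

section x

variable {ι : Type*} [Fintype ι] [DecidableEq ι] {a p : ℝ}

/-! ### X2: product structure -/

lemma x2_mix_mem {D : Set ι} {ω β : Cfg ι} {i : ι} (hi : i ∈ D) : mix D ω β i = ω i := by
  simp only [mix, if_pos hi]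

lemma x2_mix_not_mem {D : Set ι} {ω β : Cfg ι} {i : ι} (hi : i ∉ D) : mix D ω β i = β i := by
  simp only [mix, if_neg hi]

lemma x2_mix_mix (D : Set ι) (ω ω' : Cfg ι) : mix D (mix D ω ω') (mix D ω' ω) = ω := by
  funext i
  by_cases hi : i ∈ D
  · rw [x2_mix_mem hi, x2_mix_mem hi]
  · rw [x2_mix_not_mem hi, x2_mix_not_mem hi]

lemma x2_pw_mix (D : Set ι) (ω ω' : Cfg ι) :
    pw a p (mix D ω ω') * pw a p (mix D ω' ω) = pw a p ω * pw a p ω' := by
  unfold pw
  rw [← Finset.prod_mul_distrib, ← Finset.prod_mul_distrib]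
  refine Finset.prod_congr rfl fun i _ => ?_
  by_cases hi : i ∈ D
  · rw [x2_mix_mem hi, x2_mix_mem hi]
  · rw [x2_mix_not_mem hi, x2_mix_not_mem hi, mul_comm]

/-- the swap of the contents outside `D` -/
noncomputable def x2swap (D : Set ι) : Cfg ι × Cfg ι ≃ Cfg ι × Cfg ι where
  toFun w := (mix D w.1 w.2, mix D w.2 w.1)
  invFun w := (mix D w.1 w.2, mix D w.2 w.1)
  left_inv := by
    rintro ⟨ω, ω'⟩
    simp only [x2_mix_mix]
  right_inv := by
    rintro ⟨ω, ω'⟩
    simp only [x2_mix_mix]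

/-- resampling the sites of `D` -/
lemma ex_mix (D : Set ι) (f : Cfg ι → ℝ) :
    ex a p f = ex a p (fun ω' => ex a p (fun ω => f (mix D ω ω'))) := by
  have h1 : ex a p f = ∑ w : Cfg ι × Cfg ι, pw a p w.1 * pw a p w.2 * f w.1 := by
    rw [Fintype.sum_prod_type]
    unfold ex
    refine Finset.sum_congr rfl fun ω _ => ?_
    have : ∑ ω' : Cfg ι, pw a p ω * pw a p ω' * f ω = pw a p ω * f ω * ∑ ω' : Cfg ι, pw a p ω' := by
      rw [Finset.mul_sum]
      exact Finset.sum_congr rfl fun ω' _ => by ring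
    rw [this, sum_pw, mul_one]
  have h2 : ex a p (fun ω' => ex a p (fun ω => f (mix D ω ω'))) =
      ∑ w : Cfg ι × Cfg ι, pw a p w.1 * pw a p w.2 * f (mix D w.1 w.2) := by
    rw [Fintype.sum_prod_type_right]
    unfold ex
    refine Finset.sum_congr rfl fun ω' _ => ?_
    rw [Finset.mul_sum]
    exact Finset.sum_congr rfl fun ω _ => by ring
  rw [h1, h2]
  refine (Fintype.sum_equiv (x2swap D) _ _ ?_).symm
  rintro ⟨ω, ω'⟩
  show pw a p ω * pw a p ω' * f (mix D ω ω') =
    pw a p (mix D ω ω') * pw a p (mix D ω' ω) * f (mix D ω ω')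
  rw [x2_pw_mix]

/-- a bound for every fixed content outside `D` gives a bound -/
lemma ex_le_of_mix (h : Par a p) (D : Set ι) (f : Cfg ι → ℝ) {c : ℝ}
    (hc : ∀ ω', ex a p (fun ω => f (mix D ω ω')) ≤ c) : ex a p f ≤ c := by
  rw [ex_mix D f]
  exact (ex_mono h hc).trans (le_of_eq (ex_const a p c))

/-- functions of disjoint sets of sites are independent -/
lemma ex_indep (D : Set ι) {f g : Cfg ι → ℝ} (hf : ∀ ω ω', (∀ i ∈ D, ω i = ω' i) → f ω = f ω')
    (hg : ∀ ω ω', (∀ i, i ∉ D → ω i = ω' i) → g ω = g ω') :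
    ex a p (fun ω => f ω * g ω) = ex a p f * ex a p g := by
  rw [ex_mix D (fun ω => f ω * g ω)]
  have h1 : ∀ ω ω', f (mix D ω ω') = f ω := fun ω ω' => hf _ _ fun i hi => x2_mix_mem hi
  have h2 : ∀ ω ω', g (mix D ω ω') = g ω' := fun ω ω' => hg _ _ fun i hi => x2_mix_not_mem hi
  simp only [h1, h2]
  have h3 : (fun ω' => ex a p fun ω => f ω * g ω') = fun ω' => ex a p f * g ω' := by
    funext ω'
    have : (fun ω => f ω * g ω') = fun ω => g ω' * f ω := by
      funext ω
      ring
    rw [this, ex_mul_left, mul_comm]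
  rw [h3, ex_mul_left]

lemma pr_indep (D : Set ι) {A B : Cfg ι → Prop}
    (hf : ∀ ω ω', (∀ i ∈ D, ω i = ω' i) → (A ω ↔ A ω'))
    (hg : ∀ ω ω', (∀ i, i ∉ D → ω i = ω' i) → (B ω ↔ B ω')) :
    pr a p (fun ω => A ω ∧ B ω) = pr a p A * pr a p B := by
  unfold pr
  simp only [ind_and]
  refine ex_indep D (fun ω ω' h => ?_) (fun ω ω' h => ?_)
  · rw [propext (hf ω ω' h)]
  · rw [propext (hg ω ω' h)]

/-- independence of several events living on disjoint sets of sites -/
lemma pr_indep_finset (h : Par a p) {κ : Type*} (K : Finset κ) (D : κ → Set ι)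
    (hD : ∀ k ∈ K, ∀ k' ∈ K, k ≠ k' → Disjoint (D k) (D k')) (A : κ → Cfg ι → Prop)
    (hA : ∀ k ∈ K, ∀ ω ω', (∀ i ∈ D k, ω i = ω' i) → (A k ω ↔ A k ω')) :
    pr a p (fun ω => ∀ k ∈ K, A k ω) = ∏ k ∈ K, pr a p (A k) := by
  classical
  induction K using Finset.induction_on with
  | empty =>
    rw [Finset.prod_empty]
    have : (fun ω : Cfg ι => ind (∀ k ∈ (∅ : Finset κ), A k ω)) = fun _ => (1 : ℝ) := by
      funext ω
      exact ind_true (by simp)
    unfold pr
    rw [this, ex_const]
  | insert k₀ K hk₀ ih =>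
    rw [Finset.prod_insert hk₀, ← ih
      (fun k hk k' hk' => hD k (Finset.mem_insert_of_mem hk) k' (Finset.mem_insert_of_mem hk'))
      (fun k hk => hA k (Finset.mem_insert_of_mem hk)),
      ← pr_indep (D k₀) (hA k₀ (Finset.mem_insert_self _ _))]
    · unfold pr
      congr 1
      funext ω
      congr 1
      beta_reduce
      rw [Finset.forall_mem_insert]
    · intro ω ω' hω
      refine forall₂_congr fun k hk => hA k (Finset.mem_insert_of_mem hk) ω ω' fun i hi => ?_
      refine hω i fun hi' => ?_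
      have hne : k₀ ≠ k := by
        rintro rfl
        exact hk₀ hk
      exact Set.disjoint_left.1 (hD k₀ (Finset.mem_insert_self _ _) k
        (Finset.mem_insert_of_mem hk) hne) hi' hi

lemma x2_ins_self (ω : Cfg ι) (z : ι) (b : Bool) : ins ω z b z = some b := by
  simp only [ins, if_pos]

lemma x2_ins_of_ne (ω : Cfg ι) {z i : ι} (hi : i ≠ z) (b : Bool) : ins ω z b i = ω i := by
  simp only [ins, if_neg hi]

lemma x2_pw_ins (ω : Cfg ι) (z : ι) (b : Bool) :
    pw a p (ins ω z b) * wt a p (ω z) = wt a p (some b) * pw a p ω := by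
  unfold pw
  rw [← Finset.mul_prod_erase Finset.univ (fun i => wt a p (ins ω z b i)) (Finset.mem_univ z),
    ← Finset.mul_prod_erase Finset.univ (fun i => wt a p (ω i)) (Finset.mem_univ z)]
  have : ∏ i ∈ Finset.univ.erase z, wt a p (ins ω z b i) =
      ∏ i ∈ Finset.univ.erase z, wt a p (ω i) :=
    Finset.prod_congr rfl fun i hi => by rw [x2_ins_of_ne ω (Finset.ne_of_mem_erase hi)]
  rw [this, x2_ins_self]
  ring

lemma x2_wt_some (b : Bool) : wt a p (some b) = a * (if b then p else 1 - p) := by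
  cases b <;> simp [wt]

/-- Mecke formula at one site -/
lemma mecke (h : Par a p) (z : ι) (b : Bool) (f : Cfg ι → ℝ) :
    ex a p (fun ω => ind (ω z = some b) * f ω) =
      a * (if b then p else 1 - p) / (1 - a) *
        ex a p (fun ω => ind (ω z = none) * f (ins ω z b)) := by
  classical
  have ha : (1 - a) ≠ 0 := by
    have := h.a_half
    intro h0
    linarith
  rw [← x2_wt_some b, ← ex_mul_left]
  have key : ∀ ω : Cfg ι, ω z = none →
      pw a p (ins ω z b) = wt a p (some b) / (1 - a) * pw a p ω := by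
    intro ω hω
    have h1 := x2_pw_ins (a := a) (p := p) ω z b
    rw [hω] at h1
    have h2 : wt a p none = 1 - a := rfl
    rw [h2] at h1
    rw [div_mul_eq_mul_div, eq_div_iff ha, h1]
  have h1 : ex a p (fun ω => ind (ω z = some b) * f ω) =
      ∑ ω ∈ Finset.univ.filter (fun ω : Cfg ι => ω z = some b), pw a p ω * f ω := by
    unfold ex
    rw [Finset.sum_filter]
    refine Finset.sum_congr rfl fun ω _ => ?_
    beta_reduce
    by_cases hω : ω z = some b
    · rw [if_pos hω, ind_true hω, one_mul]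
    · rw [if_neg hω, ind_false hω, zero_mul, mul_zero]
  have h2 : ex a p (fun ω => wt a p (some b) / (1 - a) *
        (ind (ω z = none) * f (ins ω z b))) =
      ∑ ω ∈ Finset.univ.filter (fun ω : Cfg ι => ω z = none),
        pw a p (ins ω z b) * f (ins ω z b) := by
    unfold ex
    rw [Finset.sum_filter]
    refine Finset.sum_congr rfl fun ω _ => ?_
    beta_reduce
    by_cases hω : ω z = none
    · rw [if_pos hω, ind_true hω, key ω hω]
      ring
    · rw [if_neg hω, ind_false hω]
      ring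
  rw [h1, h2]
  symm
  refine Finset.sum_bij' (fun ω _ => ins ω z b) (fun ω _ => er ω {z}) ?_ ?_ ?_ ?_ ?_
  · intro ω _
    exact Finset.mem_filter.2 ⟨Finset.mem_univ _, x2_ins_self ω z b⟩
  · intro ω _
    exact Finset.mem_filter.2 ⟨Finset.mem_univ _, by simp [er]⟩
  · intro ω hω
    have hω' := (Finset.mem_filter.1 hω).2
    funext i
    by_cases hi : i = z
    · subst hi
      simp [er, hω']
    · simp only [er, Set.mem_singleton_iff, if_neg hi, x2_ins_of_ne ω hi]
  · intro ω hω
    have hω' := (Finset.mem_filter.1 hω).2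
    funext i
    by_cases hi : i = z
    · subst hi
      rw [x2_ins_self, hω']
    · simp only [x2_ins_of_ne _ hi, er, Set.mem_singleton_iff, if_neg hi]
  · intro ω _
    rfl

/-- insertion of one blue point: if `(ω, z) ↦ ins ω z false` maps the pairs with `P ω z` (in
particular `ω z = none`) injectively into `Q` -/
lemma insert_ineq (h : Par a p) (b : Bool) (P : Cfg ι → ι → Prop) (Q : Cfg ι → Prop)
    (hP : ∀ ω z, P ω z → ω z = none) (hQ : ∀ ω z, P ω z → Q (ins ω z b))
    (hinj : ∀ ω z ω' z', P ω z → P ω' z' → ins ω z b = ins ω' z' b → z = z') :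
    a * (if b then p else 1 - p) * ex a p (fun ω => cnt fun z => P ω z) ≤ pr a p Q := by
  classical
  rw [← x2_wt_some b]
  have hle : ∀ ω z, P ω z → wt a p (some b) * pw a p ω ≤ pw a p (ins ω z b) := by
    intro ω z hz
    have h1 := x2_pw_ins (a := a) (p := p) ω z b
    rw [hP ω z hz] at h1
    rw [← h1]
    have h2 : wt a p none ≤ 1 := by
      have := h.a_pos
      simp only [wt]
      linarith
    calc pw a p (ins ω z b) * wt a p none ≤ pw a p (ins ω z b) * 1 :=
          mul_le_mul_of_nonneg_left h2 (pw_pos h _).le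
      _ = pw a p (ins ω z b) := mul_one _
  have h1 : wt a p (some b) * ex a p (fun ω => cnt fun z => P ω z) =
      ∑ w ∈ Finset.univ.filter (fun w : Cfg ι × ι => P w.1 w.2),
        wt a p (some b) * pw a p w.1 := by
    rw [Finset.sum_filter, Fintype.sum_prod_type]
    unfold ex
    rw [Finset.mul_sum]
    refine Finset.sum_congr rfl fun ω _ => ?_
    beta_reduce
    rw [cnt_eq_sum, Finset.mul_sum, Finset.mul_sum]
    refine Finset.sum_congr rfl fun z _ => ?_
    by_cases hz : P ω z
    · rw [if_pos hz, ind_true hz, mul_one]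
    · rw [if_neg hz, ind_false hz, mul_zero, mul_zero]
  have h2 : pr a p Q = ∑ ω ∈ Finset.univ.filter (fun ω : Cfg ι => Q ω), pw a p ω := by
    unfold pr ex
    rw [Finset.sum_filter]
    refine Finset.sum_congr rfl fun ω _ => ?_
    beta_reduce
    by_cases hω : Q ω
    · rw [if_pos hω, ind_true hω, mul_one]
    · rw [if_neg hω, ind_false hω, mul_zero]
  have hinj' : Set.InjOn (fun w : Cfg ι × ι => ins w.1 w.2 b)
      (Finset.univ.filter (fun w : Cfg ι × ι => P w.1 w.2) : Finset (Cfg ι × ι)) := by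
    rintro ⟨ω, z⟩ hw ⟨ω', z'⟩ hw' heq
    have hz : P ω z := (Finset.mem_filter.1 (Finset.mem_coe.1 hw)).2
    have hz' : P ω' z' := (Finset.mem_filter.1 (Finset.mem_coe.1 hw')).2
    have heq' : ins ω z b = ins ω' z' b := heq
    have hzz : z = z' := hinj ω z ω' z' hz hz' heq'
    subst hzz
    have : ω = ω' := by
      funext i
      by_cases hi : i = z
      · subst hi
        rw [hP ω i hz, hP ω' i hz']
      · have := congrFun heq' i
        rwa [x2_ins_of_ne ω hi, x2_ins_of_ne ω' hi] at this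
    rw [this]
  rw [h1, h2]
  calc ∑ w ∈ Finset.univ.filter (fun w : Cfg ι × ι => P w.1 w.2), wt a p (some b) * pw a p w.1
      ≤ ∑ w ∈ Finset.univ.filter (fun w : Cfg ι × ι => P w.1 w.2), pw a p (ins w.1 w.2 b) :=
        Finset.sum_le_sum fun w hw => hle w.1 w.2 (Finset.mem_filter.1 hw).2
    _ = ∑ ω ∈ (Finset.univ.filter (fun w : Cfg ι × ι => P w.1 w.2)).image
          (fun w : Cfg ι × ι => ins w.1 w.2 b), pw a p ω := by
        rw [Finset.sum_image hinj']
    _ ≤ ∑ ω ∈ Finset.univ.filter (fun ω : Cfg ι => Q ω), pw a p ω := by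
        refine Finset.sum_le_sum_of_subset_of_nonneg ?_ fun ω _ _ => (pw_pos h ω).le
        intro ω hω
        obtain ⟨w, hw, rfl⟩ := Finset.mem_image.1 hω
        exact Finset.mem_filter.2 ⟨Finset.mem_univ _, hQ w.1 w.2 (Finset.mem_filter.1 hw).2⟩

end x

end Pool.Agent.Lib_helper33.ASM
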